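import Pool.Agent.helper63.WG.CellC

/-!
# W head: assembly of cells and columns
-/

namespace Pool.Agent.helper63.WG

open Complex Set Pool.Agent.helper31.EQ.W Pool.Agent.helper63.EQC Pool.Agent.helper82.WH
open Pool.Agent.helper31.IC (CovD)

variable {e κ : ℝ}

/-- the tails -/
def HT : Prop := ∀ e κ V : ℝ, 1 < e → e ≤ 4 → 0 < κ → V ≤ 1 / 5 → V ≤ 51 / 200 - 11 / 400 * e →
  TailH e κ V

/-- a box is done -/
def BoxOK (a b k1 k2 : ℕ) : Prop := HT → ∀ e κ : ℝ, 1 < e → e ≤ 4 → 0 < κ →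
  (a : ℝ) / (2 ^ 40 : ℕ) ≤ e → e ≤ (b : ℝ) / (2 ^ 40 : ℕ) →
  (k1 : ℝ) / (2 ^ 40 : ℕ) ≤ κ → κ ≤ (k2 : ℝ) / (2 ^ 40 : ℕ) →
  fk e κ < (4 : ℝ) ^ (1 / e) - 1 → Nonempty (WDataB e κ)

/-- a column is done -/
def ColOK (a b : ℕ) : Prop := HT → ∀ e κ : ℝ, 1 < e → e ≤ 4 → 0 < κ →
  (a : ℝ) / (2 ^ 40 : ℕ) ≤ e → e ≤ (b : ℝ) / (2 ^ 40 : ℕ) →
  fk e κ < (4 : ℝ) ^ (1 / e) - 1 → Nonempty (WDataB e κ)

/-- the check of `V0` -/
def okV (V0 E : ℕ) : Bool := Nat.ble (5 * V0) U40 && Nat.ble (400 * V0 + 11 * E) (102 * U40)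

theorem okV_ok {V0 E : ℕ} (h : okV V0 E = true) (he : e ≤ (E : ℝ) / U40) :
    (V0 : ℝ) / 2 ^ 40 ≤ 1 / 5 ∧ (V0 : ℝ) / 2 ^ 40 ≤ 51 / 200 - 11 / 400 * e := by
  have hU : (0 : ℝ) < U40 := by rw [U40_eq]; positivity
  simp only [okV, Bool.and_eq_true] at h
  have h1 : 5 * (V0 : ℝ) ≤ U40 := by exact_mod_cast Nat.le_of_ble_eq_true h.1
  have h2 : 400 * (V0 : ℝ) + 11 * E ≤ 102 * U40 := by exact_mod_cast Nat.le_of_ble_eq_true h.2
  rw [← U40_eq]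
  constructor
  · rw [div_le_iff₀ hU]; linarith
  · rw [le_div_iff₀ hU] at he
    rw [div_le_iff₀ hU]
    linarith

theorem OC.box (c : OC) (hok : c.ok = true) (hV : okV c.V0 (c.ce + c.he) = true) (hc : c.Cert) :
    BoxOK (c.ce - c.he) (c.ce + c.he) (c.ck - c.hk) (c.ck + c.hk) := by
  intro hT e κ he he4 hκ h1 h2 h3 h4 hf
  have hin : InC c.ce c.he c.ck c.hk e κ := ⟨in_iv h1 h2, in_iv h3 h4⟩
  have h5 := okV_ok hV hin.up.1
  exact c.main hok hc he he4 hκ hin hf (hT e κ _ he he4 hκ h5.1 h5.2)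

theorem CC.box (c : CC) (hok : c.ok = true) (hV : okV c.V0 (c.ce + c.he) = true) (hc : c.Cert) :
    BoxOK (c.ce - c.he) (c.ce + c.he) (c.ck - c.hk) (c.ck + c.hk) := by
  intro hT e κ he he4 hκ h1 h2 h3 h4 hf
  have hin : InC c.ce c.he c.ck c.hk e κ := ⟨in_iv h1 h2, in_iv h3 h4⟩
  have h5 := okV_ok hV hin.up.1
  exact c.main hok hc he he4 hκ hin hf (hT e κ _ he he4 hκ h5.1 h5.2)

/-- the same box with other end points -/
theorem BoxOK.mono {a b k1 k2 a' b' k1' k2' : ℕ} (h : BoxOK a b k1 k2) (h1 : a ≤ a') (h2 : b' ≤ b)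
    (h3 : k1 ≤ k1') (h4 : k2' ≤ k2) : BoxOK a' b' k1' k2' := by
  intro hT e κ he he4 hκ g1 g2 g3 g4 hf
  have m : ∀ {x y : ℕ}, x ≤ y → (x : ℝ) / (2 ^ 40 : ℕ) ≤ (y : ℝ) / (2 ^ 40 : ℕ) := by
    intro x y hxy
    exact div_le_div_of_nonneg_right (by exact_mod_cast hxy) (by positivity)
  exact h hT e κ he he4 hκ ((m h1).trans g1) (g2.trans (m h2)) ((m h3).trans g3) (g4.trans (m h4)) hf

/-- **a column from its cells**; `top` is the upper end -/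
theorem col_of {a b top ce he : ℕ} (ks : List (ℕ × ℕ)) (h : chain top 0 ks = true) (h0 : 0 < top)
    (hcells : ∀ k ∈ ks, BoxOK a b k.1 k.2) (hX : CovD 0 [pX0] [(ce, he), (top, 0), (0, 0)])
    (ha : ce - he ≤ a) (hb : b ≤ ce + he) : ColOK a b := by
  intro hT e κ he1 he4 hκ h1 h2 hf
  have he0 : 0 < e := by linarith
  have m : ∀ {x y : ℕ}, x ≤ y → (x : ℝ) / (2 ^ 40 : ℕ) ≤ (y : ℝ) / (2 ^ 40 : ℕ) := by
    intro x y hxy
    exact div_le_div_of_nonneg_right (by exact_mod_cast hxy) (by positivity)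
  have h3 : κ ≤ (top : ℝ) / (2 ^ 40 : ℕ) := by
    by_contra hc
    push Not at hc
    have hx : In3 (ce, he) (top, 0) (0, 0) e ((top : ℝ) / (2 ^ 40 : ℕ)) 0 := by
      refine ⟨in_iv ((m ha).trans h1) (h2.trans (m hb)), ?_, ?_⟩
      · have : ((2 ^ 40 : ℕ) : ℝ) = 2 ^ 40 := by norm_num
        rw [this]; simp
      · simp
    have h4 := top_of hX he0 hx
    have ht : 0 < (top : ℝ) / (2 ^ 40 : ℕ) := by
      have : (0 : ℝ) < top := by exact_mod_cast h0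
      positivity
    have h5 := fk_mono (e := e) he0 ht hc.le
    linarith
  obtain ⟨k, hk, h4, h5⟩ := chain_mem (D := 2 ^ 40) (by norm_num) _ _ h κ
    (by simpa using hκ.le) h3
  exact hcells k hk hT e κ he1 he4 hκ h1 h2 h4 h5 hf

/-- a chain of columns -/
theorem all_of {cs : List (ℕ × ℕ)} (h : chain (4 * U40) U40 cs = true)
    (hc : ∀ c ∈ cs, ColOK c.1 c.2) (hT : HT) : ∀ e κ : ℝ, 1 < e → e ≤ 4 → 0 < κ →
    fk e κ < (4 : ℝ) ^ (1 / e) - 1 → Nonempty (WDataB e κ) := by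
  intro e κ he he4 hκ hf
  have hU : (0 : ℝ) < U40 := by rw [U40_eq]; positivity
  have hUU : ((2 ^ 40 : ℕ) : ℝ) = (U40 : ℝ) := by rw [U40_eq]; norm_num
  obtain ⟨c, hcm, h1, h2⟩ := chain_mem (D := 2 ^ 40) (by norm_num) _ _ h e
    (by rw [hUU, div_self hU.ne']; exact he.le)
    (by rw [hUU]; push_cast; rw [mul_div_cancel_right₀ _ hU.ne']; exact he4)
  exact hc c hcm hT e κ he he4 hκ h1 h2 hf

end Pool.Agent.helper63.WG
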