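import Pool.Agent.helper82.WH.Sem
import Pool.Agent.helper63.EQC.Glue

/-!
# W head glue: calculus
-/

namespace Pool.Agent.helper63.WG

open Complex Pool.Agent.helper31.EQ.W Pool.Agent.helper63.EQC Pool.Agent.helper82.WH
open Pool.Agent.helper4.EQW (KK rT nx gK v2 G1)

variable {e κ : ℝ} {p w : ℂ}

theorem m1_deriv (hw : w ∈ slitPlane) :
    HasDerivAt (m1 e) (-(e / 2) * w ^ (-(e : ℂ)) * w⁻¹) w := by
  have hw0 := slitPlane_ne_zero hw
  have h1 : HasDerivAt (fun w : ℂ => w ^ (-(e : ℂ))) (-(e : ℂ) * w ^ (-(e : ℂ) - 1) * 1) w :=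
    (hasDerivAt_id w).cpow_const hw
  have h2 := (h1.const_add 1).div_const 2
  have e1 : (fun w : ℂ => (1 + w ^ (-(e : ℂ))) / 2) = m1 e := by funext z; rfl
  rw [e1] at h2
  refine h2.congr_deriv ?_
  rw [Complex.cpow_sub _ _ hw0, Complex.cpow_one]
  ring

theorem w_mu (hw : m1 e w ≠ 0) : w ^ (-(e : ℂ)) = m1 e w * mu e w := by
  have h1 : w ^ (-(e : ℂ)) = 2 * m1 e w - 1 := by unfold m1; ring
  rw [h1, mu]
  field_simp

theorem GG_deriv (he : 0 < e) (hw : w ∈ slitPlane) (hm : m1 e w ∈ slitPlane) :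
    HasDerivAt (GG e κ) (GG e κ w * mu e w * w⁻¹) w := by
  have hm0 := slitPlane_ne_zero hm
  have he' : (e : ℂ) ≠ 0 := by exact_mod_cast he.ne'
  have h1 := (m1_deriv (e := e) hw).cpow_const (c := -((2 / e : ℝ) : ℂ)) hm
  have h2 := h1.const_mul (c2 e κ : ℂ)
  have e1 : (fun w => (c2 e κ : ℂ) * m1 e w ^ (-((2 / e : ℝ) : ℂ))) = GG e κ := by
    funext z; rfl
  rw [e1] at h2
  refine h2.congr_deriv ?_
  rw [w_mu hm0, Complex.cpow_sub _ _ hm0, Complex.cpow_one]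
  unfold GG gl
  have e2 : (1 + w ^ (-(e : ℂ))) / 2 = m1 e w := rfl
  rw [e2]
  push_cast
  field_simp

theorem mu_deriv (hw : w ∈ slitPlane) (hm : m1 e w ∈ slitPlane) :
    HasDerivAt (mu e) (-(e / 2) * mu e w * (2 - mu e w) * w⁻¹) w := by
  have hm0 := slitPlane_ne_zero hm
  have h1 := ((m1_deriv (e := e) hw).inv hm0).const_sub 2
  have e0 : (fun x => 2 - (m1 e)⁻¹ x) = mu e := by funext z; rfl
  rw [e0] at h1
  refine h1.congr_deriv ?_
  rw [w_mu hm0]
  have e1 : 2 - mu e w = (m1 e w)⁻¹ := by unfold mu; ring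
  rw [e1]
  field_simp

/-- `Y1 = 1 - zo` -/
theorem Y1_eq (hw : w ≠ 0) : Y1B e κ p w = 1 - zo e κ p w := by
  unfold Y1B d1B zo
  field_simp
  ring

theorem W2_eq (hw : w ≠ 0) : W2 e κ p w = 2 * (Real.cosh κ : ℂ) - 1 + zo e κ p w := by
  rw [W2, Y1_eq hw]; ring

theorem z0B_eq : z0B e κ p w = (GG e κ w - (c2 e κ : ℂ) * gp e p) / 2 := rfl

theorem zo_deriv (he : 0 < e) (hw : w ∈ slitPlane) (hm : m1 e w ∈ slitPlane) :
    HasDerivAt (zo e κ p) ((GG e κ w * w⁻¹ * mu e w / 2 - zo e κ p w) * w⁻¹) w := by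
  have hw0 := slitPlane_ne_zero hw
  have h1 : HasDerivAt (fun w => z0B e κ p w + ((Real.cosh κ : ℂ) - 1))
      (GG e κ w * mu e w * w⁻¹ / 2) w := by
    have h2 := (((GG_deriv (κ := κ) he hw hm).sub_const ((c2 e κ : ℂ) * gp e p)).div_const
      2).add_const ((Real.cosh κ : ℂ) - 1)
    exact h2
  have h3 := h1.mul (hasDerivAt_inv hw0)
  have e1 : (fun w => z0B e κ p w + ((Real.cosh κ : ℂ) - 1)) * (fun w : ℂ => w⁻¹) = zo e κ p := by
    funext z; rfl
  rw [e1] at h3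
  refine h3.congr_deriv ?_
  unfold zo
  field_simp
  ring

open Filter Topology in
theorem W2_deriv (he : 0 < e) (hw : w ∈ slitPlane) (hm : m1 e w ∈ slitPlane) :
    HasDerivAt (W2 e κ p) ((GG e κ w * w⁻¹ * mu e w / 2 - zo e κ p w) * w⁻¹) w := by
  have h1 := (zo_deriv (κ := κ) (p := p) he hw hm).const_add (2 * (Real.cosh κ : ℂ) - 1)
  refine h1.congr_of_eventuallyEq ?_
  have hw0 := slitPlane_ne_zero hw
  filter_upwards [isOpen_ne.mem_nhds hw0] with z hz
  exact W2_eq hz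

theorem E0_eq (hw : w ∈ slitPlane) : E0 e κ p w =
    GG e κ (W2 e κ p w) - GG e κ w * (w⁻¹) ^ 2 - 2 * ((Real.cosh κ : ℂ) - 1 + zo e κ p w) := by
  have hw0 := slitPlane_ne_zero hw
  unfold E0 FW
  rw [Y1_sub hw0, gs_eq hw]
  have e1 : wn κ (Y1B e κ p w) 0 = W2 e κ p w := by unfold wn W2; simp
  rw [e1, Y1_eq hw0]
  unfold GG
  rw [one_div]
  ring

open Filter Topology in
/-- **first derivative** -/
theorem E0_deriv (he : 0 < e) (h : Dom e κ p w) : HasDerivAt (E0 e κ p) (E1 e κ p w) w := by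
  have hw0 := slitPlane_ne_zero h.w_slit
  have hW := W2_deriv (κ := κ) (p := p) he h.w_slit h.m_slit
  have hG2 := (GG_deriv (κ := κ) he h.W_slit h.mW_slit).comp w hW
  have hG := GG_deriv (κ := κ) he h.w_slit h.m_slit
  have hi := (hasDerivAt_inv hw0).pow 2
  have hz := zo_deriv (κ := κ) (p := p) he h.w_slit h.m_slit
  have h1 := (hG2.sub (hG.mul hi)).sub ((hz.const_add ((Real.cosh κ : ℂ) - 1)).const_mul 2)
  have h2 : HasDerivAt (E0 e κ p) (GG e κ (W2 e κ p w) * mu e (W2 e κ p w) * (W2 e κ p w)⁻¹ *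
      ((GG e κ w * w⁻¹ * mu e w / 2 - zo e κ p w) * w⁻¹) -
      (GG e κ w * mu e w * w⁻¹ * (w⁻¹) ^ 2 + GG e κ w * ((2 : ℕ) * (w⁻¹) ^ (2 - 1) * (-(w ^ 2)⁻¹))) -
      2 * ((GG e κ w * w⁻¹ * mu e w / 2 - zo e κ p w) * w⁻¹)) w := by
    refine h1.congr_of_eventuallyEq ?_
    filter_upwards [isOpen_slitPlane.mem_nhds h.w_slit] with z hz
    rw [E0_eq hz]
    rfl
  refine h2.congr_deriv ?_
  unfold E1
  push_cast
  field_simp
  ring

/-- the derivative of `G μ / w` -/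
theorem GG2_deriv (he : 0 < e) (hw : w ∈ slitPlane) (hm : m1 e w ∈ slitPlane) :
    HasDerivAt (fun w => GG e κ w * mu e w * w⁻¹)
      (GG e κ w * mu e w * w⁻¹ * ((e / 2 + 1) * mu e w - (e + 1)) * w⁻¹) w := by
  have hw0 := slitPlane_ne_zero hw
  have h1 := ((GG_deriv (κ := κ) he hw hm).mul (mu_deriv (e := e) hw hm)).mul (hasDerivAt_inv hw0)
  refine h1.congr_deriv ?_
  simp only [Pi.mul_apply]
  field_simp
  ring

/-- **second derivative** -/
theorem E1_deriv (he : 0 < e) (h : Dom e κ p w) : HasDerivAt (E1 e κ p) (E2 e κ p w) w := by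
  have hw0 := slitPlane_ne_zero h.w_slit
  have hW0 := slitPlane_ne_zero h.W_slit
  have hW := W2_deriv (κ := κ) (p := p) he h.w_slit h.m_slit
  have hG2 := (GG2_deriv (κ := κ) he h.W_slit h.mW_slit).comp w hW
  have hG := GG_deriv (κ := κ) he h.w_slit h.m_slit
  have hGG := GG2_deriv (κ := κ) he h.w_slit h.m_slit
  have hμ := mu_deriv (e := e) h.w_slit h.m_slit
  have hi := hasDerivAt_inv hw0
  have hz := zo_deriv (κ := κ) (p := p) he h.w_slit h.m_slit
  have ha : HasDerivAt (fun w => GG e κ w * w⁻¹ * mu e w / 2 - zo e κ p w)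
      (GG e κ w * mu e w * w⁻¹ * ((e / 2 + 1) * mu e w - (e + 1)) * w⁻¹ / 2 -
        (GG e κ w * w⁻¹ * mu e w / 2 - zo e κ p w) * w⁻¹) w := by
    have h1 := (hGG.div_const 2).sub hz
    have e1 : ((fun w => GG e κ w * mu e w * w⁻¹ / 2) - zo e κ p) =
        fun w => GG e κ w * w⁻¹ * mu e w / 2 - zo e κ p w := by
      funext z; simp only [Pi.sub_apply]; ring
    rw [e1] at h1
    exact h1
  have hb := hG.mul hi
  have h1 := hi.mul (((hG2.sub_const 2).mul ha).sub ((hi.mul hb).mul (hμ.sub_const 2)))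
  refine (h1.congr_deriv ?_).congr_of_eventuallyEq (Filter.Eventually.of_forall ?_)
  · simp only [Pi.mul_apply, Pi.sub_apply, Function.comp]
    unfold E2
    set G := GG e κ w
    set μ := mu e w
    set z := zo e κ p w
    set G2 := GG e κ (W2 e κ p w)
    set μ2 := mu e (W2 e κ p w)
    set W := W2 e κ p w
    field_simp
    ring
  · intro z
    simp only [Pi.mul_apply, Pi.sub_apply, Function.comp]
    unfold E1
    ring

end Pool.Agent.helper63.WG
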