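import Pool.Agent.helper63.WG.HPof

/-!
# W head glue: cells
-/

namespace Pool.Agent.helper63.WG

open Complex Set Pool.Agent.helper31.EQ.W Pool.Agent.helper63.EQC Pool.Agent.helper82.WH
open Pool.Agent.helper4.EQW (KK rT nx gK v2 G1)

variable {e κ : ℝ} {p w : ℂ} {H : HeadFn} {b : BN} {θ θt θ1 V0 lam rho al dl s2 : ℝ}

/-- what the tail says about `x 0` of its fixed points -/
def TS (T : Tail e κ θt) (V θ1 : ℝ) : Prop :=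
  ∀ Y ∈ T.Ω, ‖v2 κ (nx κ Y)‖ < V → ∀ x : ℕ → ℂ, TFix e κ T.r Y x → ‖x 0‖ ≤ θ1

theorem ts_one (T : Tail e κ θt) (V : ℝ) : TS T V 1 := fun _ _ _ _ h => h.1 0

theorem TS.mono {T : Tail e κ θt} {V V' : ℝ} (h : TS T V θ1) (hV : V' ≤ V) : TS T V' θ1 :=
  fun Y hY hv x hx => h Y hY (hv.trans_le hV) x hx

/-- a test point: the solution is in the disc of radius `rho` -/
structure TPt (e κ θ V0 : ℝ) {θt : ℝ} (T : Tail e κ θt) (H : HeadFn) (p : ℂ) (rho : ℝ) where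
  b : BN
  θ1 : ℝ
  lam : ℝ
  ok : b.OkT V0 θ θ1 lam rho
  pb : PB e κ H b p
  hθ1 : θ1 ≤ 1
  ts : TS T b.V θ1

theorem TPt.sol (he : 1 < e) (he4 : e ≤ 4) (hκ : 0 < κ) {T : Tail e κ θt} (hTr : T.r = rT e κ)
    (hΩ : Reg κ V0 T.Ω) (t : TPt e κ θ V0 T H p rho) {x0 : ℂ} (hs : Sol e κ T.r H p x0) :
    ∃ X : ℂ, ‖X‖ ≤ 1 ∧ H.c1 p + H.r1 p * x0 = wtest e κ H p rho X :=
  t.pb.sol he he4 hκ T hTr hΩ t.ok t.hθ1 t.ts hs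

/-- the condition `Htest` -/
theorem test_I (he : 1 < e) (he4 : e ≤ 4) (hκ : 0 < κ) {T : Tail e κ θt} (hTr : T.r = rT e κ)
    (hΩ : Reg κ V0 T.Ω) (t : TPt e κ θ V0 T H ((al : ℂ) * I) rho)
    (h : PTI e κ H ((al : ℂ) * I) rho) :
    ∀ x0 : ℂ, Sol e κ T.r H ((al : ℂ) * I) x0 →
      (exp ((al : ℂ) * I / 2) *
        d0B e κ ((al : ℂ) * I) (H.c1 ((al : ℂ) * I) + H.r1 ((al : ℂ) * I) * x0)).re ≠ 0 := by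
  intro x0 hs
  obtain ⟨X, hX, e1⟩ := t.sol he he4 hκ hTr hΩ hs
  rw [e1]
  exact (h X hX).ne'

theorem d0_re (e κ : ℝ) (dl : ℝ) (w : ℂ) :
    (d0B e κ (dl : ℂ) w).re = Real.cosh κ - (z0B e κ (dl : ℂ) w).re - Real.exp (-dl) := by
  have e1 : exp (-(dl : ℂ)) = ((Real.exp (-dl) : ℝ) : ℂ) := by push_cast; rfl
  rw [d0B, e1, Complex.sub_re, Complex.sub_re, Complex.ofReal_re, Complex.ofReal_re]

theorem test_P (he : 1 < e) (he4 : e ≤ 4) (hκ : 0 < κ) {T : Tail e κ θt} (hTr : T.r = rT e κ)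
    (hΩ : Reg κ V0 T.Ω) (t : TPt e κ θ V0 T H (dl : ℂ) rho) (h : PTP e κ H (dl : ℂ) rho) :
    ∀ x0 : ℂ, Sol e κ T.r H (dl : ℂ) x0 →
      (d0B e κ (dl : ℂ) (H.c1 (dl : ℂ) + H.r1 (dl : ℂ) * x0)).re < 1 - Real.exp (-dl) := by
  intro x0 hs
  obtain ⟨X, hX, e1⟩ := t.sol he he4 hκ hTr hΩ hs
  rw [e1, d0_re]
  have h1 := h X hX
  rw [Complex.sub_re, Complex.sub_re, Complex.ofReal_re, Complex.one_re] at h1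
  linarith

theorem test_M (he : 1 < e) (he4 : e ≤ 4) (hκ : 0 < κ) {T : Tail e κ θt} (hTr : T.r = rT e κ)
    (hΩ : Reg κ V0 T.Ω) (t : TPt e κ θ V0 T H ((-dl : ℝ) : ℂ) rho)
    (h : PTM e κ H ((-dl : ℝ) : ℂ) rho) :
    ∀ x0 : ℂ, Sol e κ T.r H ((-dl : ℝ) : ℂ) x0 →
      1 - Real.exp dl <
        (d0B e κ ((-dl : ℝ) : ℂ) (H.c1 ((-dl : ℝ) : ℂ) + H.r1 ((-dl : ℝ) : ℂ) * x0)).re := by
  intro x0 hs
  obtain ⟨X, hX, e1⟩ := t.sol he he4 hκ hTr hΩ hs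
  rw [e1, d0_re, neg_neg]
  have h1 := h X hX
  rw [Complex.sub_re, Complex.sub_re, Complex.ofReal_re, Complex.one_re] at h1
  linarith

/-- **cell away from the neutral corner** -/
theorem cell_nc (he : 1 < e) (he4 : e ≤ 4) (hκ : 0 < κ) (T : Tail e κ θt) (hTr : T.r = rT e κ)
    (hθt0 : 0 ≤ θt) (hθt : θt < 1) (hθ : θ < 1) (hΩ : Reg κ V0 T.Ω) (H : HeadFn)
    (hal : 0 < al) (hdl : 0 < dl)
    (hI : ∀ y : ℝ, 0 ≤ y → y ≤ al → ∃ b : BN, b.Ok V0 θ ∧ PB e κ H b ((y : ℂ) * I))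
    (hR : ∀ y : ℝ, |y| ≤ dl → ∃ b : BN, b.Ok V0 θ ∧ PB e κ H b (y : ℂ))
    (hRS : ∀ y : ℝ, |y| ≤ dl → RS e κ H (y : ℂ)) {ri rp rm : ℝ}
    (tI : TPt e κ θ V0 T H ((al : ℂ) * I) ri) (hTI : PTI e κ H ((al : ℂ) * I) ri)
    (tP : TPt e κ θ V0 T H (dl : ℂ) rp) (hTP : PTP e κ H (dl : ℂ) rp)
    (tM : TPt e κ θ V0 T H ((-dl : ℝ) : ℂ) rm) (hTM : PTM e κ H ((-dl : ℝ) : ℂ) rm) :
    Nonempty (WDataB e κ) := by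
  refine wdataB_of_head he T hθt0 hθt hθ H hal hdl ?_ ?_ hRS
    (test_P he he4 hκ hTr hΩ tP hTP) (test_M he he4 hκ hTr hΩ tM hTM)
    (test_I he he4 hκ hTr hΩ tI hTI)
  · intro y h0 h1
    obtain ⟨b, hb, h⟩ := hI y h0 h1
    exact h.hp he he4 hκ T hTr hΩ hb
  · intro y h0
    obtain ⟨b, hb, h⟩ := hR y h0
    exact h.hp he he4 hκ T hTr hΩ hb

/-- **cell at the neutral corner** -/
theorem cell_c (he : 1 < e) (he4 : e ≤ 4) (hκ : 0 < κ) {s : ℝ} (hs0 : 0 < s)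
    (hs : s ≤ 1 / 10) (has : e / 2 * s ≤ 1 / 10) (hκs : 2 * (Real.cosh κ - 1) ≤ s ^ 2)
    (T : Tail e κ θt) (hTr : T.r = rT e κ) (hθt0 : 0 ≤ θt) (hθt : θt < 1) (hθ : θ < 1)
    (hθ' : 81 / 100 ≤ θ) (hΩ : Reg κ V0 T.Ω) (hV0 : 11 / 1000 < V0) (H : HeadFn)
    (hal : 0 < al) (hal3 : al ≤ 3)
    (hsmall : 5 / 2 < e → ∀ Y ∈ T.Ω, ‖v2 κ (nx κ Y)‖ ≤ 11 / 1000 → ∀ x : ℕ → ℂ,
      TFix e κ T.r Y x → ‖x 0‖ ≤ 3 / 5)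
    (HBi : ∀ y : ℝ, 0 ≤ y → y ≤ al → 2 * (Real.cosh κ - Real.cos y) ≤ s ^ 2 →
      HB e κ (σi κ y) H ((y : ℂ) * I))
    (HBr : ∀ x : ℝ, |x| ≤ 1 / 8 * κ ^ 2 → HB e κ (σr κ x) H (x : ℂ) ∧
      ‖H.r1 (x : ℂ)‖ ≤ 675 / 1000 * (2 * (Real.cosh κ - Real.cosh x)))
    (hI : ∀ y : ℝ, 0 ≤ y → y ≤ al → s ^ 2 < 2 * (Real.cosh κ - Real.cos y) →
      ∃ b : BN, b.Ok V0 θ ∧ PB e κ H b ((y : ℂ) * I)) {ri : ℝ}
    (tI : TPt e κ θ V0 T H ((al : ℂ) * I) ri) (hTI : PTI e κ H ((al : ℂ) * I) ri) :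
    Nonempty (WDataB e κ) := by
  refine wdataB_of_small he he4 hκ hs0 hs has hκs T hTr (tailC_of hV0 hΩ) hθt0 hθt hθ hθ' H hal hal3
    hsmall HBi HBr ?_ (test_I he he4 hκ hTr hΩ tI hTI)
  intro y h0 h1 h2
  obtain ⟨b, hb, h⟩ := hI y h0 h1 h2
  exact h.hp he he4 hκ T hTr hΩ hb

end Pool.Agent.helper63.WG
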