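import Pool.Agent.helper63.WG.CellN
import Pool.Agent.helper82.WH.PJ0

/-!
# W head: corner cells from certificates
-/

namespace Pool.Agent.helper63.WG

open Complex Set Pool.Agent.helper31.EQ.W Pool.Agent.helper63.EQC Pool.Agent.helper82.WH
open Pool.Agent.helper31.IA (Z Op Asserts InBox)
open Pool.Agent.helper31.IC (CovD)
open Pool.Agent.helper4.EQW (KK rT nx gK v2 G1)

variable {H : HC} {B : BC} {e κ x : ℝ}

/-- outside the corner -/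
theorem pJ0_of (hyp : Asserts (pJ0 H B) [(e : ℂ), (κ : ℂ), (x : ℂ)]) :
    0 < (hu κ (pp B κ x) * 2 - (H.s2.r : ℂ)).re := by
  refine pJ0_spec H B hyp _ ?_
  intro C kk mp u e1 e2 e3 e4 e5
  have hmp : mp = -(pp B κ x) := by rw [e3, e2, pp, neg_neg]
  have : u = hu κ (pp B κ x) := by
    rw [e4, e1, cosh_prog, hmp, neg_neg]; rfl
  rw [← this]; exact e5

theorem hu_I (κ y : ℝ) : hu κ ((y : ℂ) * I) = ((Real.cosh κ - Real.cos y : ℝ) : ℂ) := by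
  unfold hu hy
  push_cast
  rw [Complex.cos, ← neg_mul]
  ring

/-- a corner cell -/
structure CC where
  H : HC
  ce : ℕ
  he : ℕ
  ck : ℕ
  hk : ℕ
  V0 : ℕ
  θ : ℕ
  t1 : ℕ
  al : ℕ
  Is : List Pc
  xH : ℕ
  HI : List Pc
  HR : List Pc
  mT : ℕ
  T : BC
  lT : ℕ

/-- the numbers of the corner -/
def sOk (s2 : RC) (E K xH : ℕ) : Bool :=
  Nat.beq s2.b 0 && Nat.blt 0 s2.a && Nat.ble (100 * s2.a) U40 &&
    Nat.ble (25 * (E * E) * s2.a) (U40 * U40 * U40) &&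
    Nat.ble K U40 &&
    Nat.ble (11 * (U40 * U40) * (K * K) + (K * K) * (K * K)) (11 * (U40 * U40 * U40) * s2.a) &&
    Nat.ble xH U40 &&
    Nat.blt (48 * (U40 * U40 * U40) * s2.a + 5 * ((xH * xH) * (xH * xH)))
      (48 * (U40 * U40) * (xH * xH))

def CC.ok (c : CC) : Bool :=
  Nat.blt c.θ U40 && Nat.ble (81 * U40) (100 * c.θ) && Nat.blt (11 * U40) (1000 * c.V0) &&
  Nat.blt 0 c.al && Nat.ble c.al (3 * U40) &&
  sOk c.H.s2 (c.ce + c.he) (c.ck + c.hk) c.xH &&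
  (c.Is.all fun q => isI q.B && okN q.B c.V0 c.θ) &&
  chain c.al 0 (c.Is.map Pc.iv) &&
  (c.HI.all fun q => isI q.B) &&
  chain c.xH 0 (c.HI.map Pc.iv) &&
  (c.HR.all fun q => isR 137438953472 q.B) &&
  chain (2 * U40) 0 (c.HR.map Pc.iv) &&
  (!Nat.beq c.mT 1 && isI c.T && okTN c.T c.V0 c.θ c.t1 c.lT && kk12 U40 0 0 c.T &&
    okT1 c.t1 c.ce c.he c.ck c.hk c.T.V)

/-- the certificates of a corner cell -/
structure CC.Cert (c : CC) : Prop where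
  I : ∀ q ∈ c.Is, PCov q.m c.H q.B (c.ce, c.he) (c.ck, c.hk) (q.c, q.h)
  HI : ∀ q ∈ c.HI, CovD 0 [pH c.H q.B, pJ0 c.H q.B] [(c.ce, c.he), (c.ck, c.hk), (q.c, q.h)]
  HR : ∀ q ∈ c.HR, CovD 0 [pH c.H q.B] [(c.ce, c.he), (c.ck, c.hk), (q.c, q.h)]
  T : TCov c.mT c.H c.T (c.ce, c.he) (c.ck, c.hk) (c.al, 0)

theorem cosh_le_of {κ k : ℝ} (h0 : 0 ≤ κ) (hk : κ ≤ k) (h1 : k ≤ 1) :
    2 * (Real.cosh κ - 1) ≤ k ^ 2 + k ^ 4 / 11 := by
  have h2 : Real.cosh κ ≤ Real.cosh k := by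
    rw [Real.cosh_le_cosh, abs_of_nonneg h0, abs_of_nonneg (h0.trans hk)]; exact hk
  have hk0 := h0.trans hk
  have h3 := Real.exp_bound (x := k) (by rw [abs_of_nonneg hk0]; exact h1) (n := 6) (by norm_num)
  have h4 := Real.exp_bound (x := -k) (by rw [abs_neg, abs_of_nonneg hk0]; exact h1) (n := 6)
    (by norm_num)
  have h5 := (abs_le.1 h3).2
  have h6 := (abs_le.1 h4).2
  rw [abs_of_nonneg hk0] at h5
  rw [abs_neg, abs_of_nonneg hk0] at h6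
  simp only [Finset.sum_range_succ, Finset.sum_range_zero, Nat.factorial] at h5 h6
  norm_num at h5 h6
  have h7 : Real.cosh k ≤ 1 + k ^ 2 / 2 + k ^ 4 / 24 + k ^ 6 * (7 / 4320) := by
    rw [Real.cosh_eq]
    nlinarith
  have h8 : k ^ 6 ≤ k ^ 4 := pow_le_pow_of_le_one hk0 h1 (by norm_num)
  have h9 : 0 ≤ k ^ 4 := by positivity
  nlinarith

theorem cos_ge_of {x s : ℝ} (h0 : 0 ≤ x) (h1 : x ≤ 1) (hs : s + 5 / 48 * x ^ 4 < x ^ 2) :
    s < 2 * (1 - Real.cos x) := by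
  have h2 := Real.cos_bound (x := x) (by rw [abs_of_nonneg h0]; exact h1)
  have h3 := (abs_le.1 h2).2
  rw [abs_of_nonneg h0] at h3
  linarith

theorem sOk_ok {s2 : RC} {E K xH : ℕ} (h : sOk s2 E K xH = true) {e κ : ℝ} (he0 : 0 < e)
    (he : e ≤ (E : ℝ) / U40) (hκ : 0 < κ) (hK : κ ≤ (K : ℝ) / U40) :
    ∃ s : ℝ, 0 < s ∧ s ^ 2 = s2.r ∧ s ≤ 1 / 10 ∧ e / 2 * s ≤ 1 / 10 ∧
      2 * (Real.cosh κ - 1) ≤ s ^ 2 ∧ κ ≤ 1 / 10 ∧
      ∀ y : ℝ, 0 ≤ y → y ≤ 3 → 2 * (Real.cosh κ - Real.cos y) ≤ s ^ 2 → y ≤ (xH : ℝ) / U40 := by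
  simp only [sOk, Bool.and_eq_true] at h
  obtain ⟨⟨⟨⟨⟨⟨⟨h1, h2⟩, h3⟩, h4⟩, h5⟩, h6⟩, h7⟩, h8⟩ := h
  have h1 := Nat.eq_of_beq_eq_true h1
  have hU : (0 : ℝ) < U40 := by rw [U40_eq]; positivity
  have h2 : 0 < (s2.a : ℝ) := by exact_mod_cast Nat.le_of_ble_eq_true h2
  have h3 : 100 * (s2.a : ℝ) ≤ U40 := by exact_mod_cast Nat.le_of_ble_eq_true h3
  have h4 : 25 * ((E : ℝ) * E) * s2.a ≤ U40 * U40 * U40 := by
    exact_mod_cast Nat.le_of_ble_eq_true h4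
  have h5 : (K : ℝ) ≤ U40 := by exact_mod_cast Nat.le_of_ble_eq_true h5
  have h6 : 11 * ((U40 : ℝ) * U40) * (K * K) + (K * K) * (K * K) ≤
      11 * (U40 * U40 * U40) * s2.a := by exact_mod_cast Nat.le_of_ble_eq_true h6
  have h7 : (xH : ℝ) ≤ U40 := by exact_mod_cast Nat.le_of_ble_eq_true h7
  have h8n := Nat.le_of_ble_eq_true h8
  have h8 : 48 * ((U40 : ℝ) * U40 * U40) * s2.a + 5 * ((xH * xH) * (xH * xH)) + 1 ≤
      48 * (U40 * U40) * (xH * xH) := by exact_mod_cast h8n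
  have hr : s2.r = (s2.a : ℝ) / U40 := by
    rw [RC.r, h1, U40_eq]; push_cast; ring
  have hr0 : 0 < s2.r := by rw [hr]; positivity
  have hsq := Real.sq_sqrt hr0.le
  have hs0 := Real.sqrt_pos.2 hr0
  set s := Real.sqrt s2.r with hs
  have hr1 : s2.r ≤ 1 / 100 := by
    rw [hr, div_le_iff₀ hU]; linarith
  have hs1 : s ≤ 1 / 10 := by
    by_contra hc
    push Not at hc
    nlinarith
  -- κ
  have hkk : ((K : ℝ) / U40) ^ 2 + ((K : ℝ) / U40) ^ 4 / 11 ≤ s2.r := by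
    rw [hr]
    have e1 : ((K : ℝ) / U40) ^ 2 + ((K : ℝ) / U40) ^ 4 / 11 =
        (11 * ((U40 : ℝ) * U40) * (K * K) + (K * K) * (K * K)) / (11 * (U40 : ℝ) ^ 4) := by
      field_simp
    have e2 : (s2.a : ℝ) / U40 = (11 * (U40 * U40 * U40) * s2.a) / (11 * (U40 : ℝ) ^ 4) := by
      field_simp
    rw [e1, e2]
    exact div_le_div_of_nonneg_right h6 (by positivity)
  have hK1 : (K : ℝ) / U40 ≤ 1 := by rw [div_le_one hU]; exact h5
  have hK0 : 0 < (K : ℝ) / U40 := hκ.trans_le hK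
  have hκ1 : κ ≤ 1 / 10 := by
    refine hK.trans ?_
    by_contra hc
    push Not at hc
    have : 0 < ((K : ℝ) / U40) ^ 4 / 11 := by positivity
    nlinarith
  refine ⟨s, hs0, hsq, hs1, ?_, ?_, hκ1, ?_⟩
  · -- e/2 s ≤ 1/10
    have hE0 : 0 ≤ (E : ℝ) := Nat.cast_nonneg _
    have h9 : e * e * s2.r ≤ 1 / 25 := by
      have : e * e ≤ (E : ℝ) / U40 * ((E : ℝ) / U40) := mul_le_mul he he he0.le (by positivity)
      calc e * e * s2.r ≤ (E : ℝ) / U40 * ((E : ℝ) / U40) * s2.r :=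
            mul_le_mul_of_nonneg_right this hr0.le
        _ = (E * E * s2.a) / (U40 * U40 * U40) := by rw [hr]; field_simp
        _ ≤ 1 / 25 := by
            rw [div_le_iff₀ (by positivity)]
            linarith
    by_contra hc
    push Not at hc
    have h10 : (e / 2 * s) ^ 2 = e * e * s2.r / 4 := by rw [← hsq]; ring
    nlinarith
  · rw [hsq]
    exact (cosh_le_of hκ.le hK hK1).trans hkk
  · intro y hy0 hy3 hy
    by_contra hc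
    push Not at hc
    have hx0 : 0 ≤ (xH : ℝ) / U40 := by positivity
    have hx1 : (xH : ℝ) / U40 ≤ 1 := by rw [div_le_one hU]; exact h7
    have h9 : s2.r + 5 / 48 * ((xH : ℝ) / U40) ^ 4 < ((xH : ℝ) / U40) ^ 2 := by
      rw [hr]
      have e1 : (s2.a : ℝ) / U40 + 5 / 48 * ((xH : ℝ) / U40) ^ 4 =
          (48 * (U40 * U40 * U40) * s2.a + 5 * ((xH * xH) * (xH * xH))) /
            (48 * (U40 : ℝ) ^ 4) := by
        field_simp
      have e2 : ((xH : ℝ) / U40) ^ 2 = (48 * (U40 * U40) * (xH * xH)) / (48 * (U40 : ℝ) ^ 4) := by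
        field_simp
      rw [e1, e2]
      exact div_lt_div_of_pos_right (by linarith) (by positivity)
    have h10 := cos_ge_of hx0 hx1 h9
    have h11 : Real.cos y ≤ Real.cos ((xH : ℝ) / U40) :=
      Real.cos_le_cos_of_nonneg_of_le_pi hx0 (hy3.trans Real.pi_gt_three.le) hc.le
    have h12 := Real.one_le_cosh κ
    rw [hsq] at hy
    linarith

/-- **corner cells** -/
theorem CC.main (c : CC) (hok : c.ok = true) (hc : c.Cert) (he : 1 < e) (he4 : e ≤ 4) (hκ : 0 < κ)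
    (hin : InC c.ce c.he c.ck c.hk e κ) (hf : fk e κ < (4 : ℝ) ^ (1 / e) - 1)
    (hT : TailH e κ ((c.V0 : ℝ) / 2 ^ 40)) : Nonempty (WDataB e κ) := by
  have he0 : 0 < e := by linarith
  have hU : (0 : ℝ) < U40 := by rw [U40_eq]; positivity
  simp only [CC.ok, Bool.and_eq_true, List.all_eq_true] at hok
  obtain ⟨⟨⟨⟨⟨⟨⟨⟨⟨⟨⟨⟨o1, o2⟩, o3⟩, o4⟩, o5⟩, o6⟩, o7⟩, o8⟩, o9⟩, o10⟩, o11⟩, o12⟩, o13⟩ := hok
  obtain ⟨⟨⟨⟨p1, p2⟩, p3⟩, p4⟩, p5⟩ := o13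
  have hθ : (c.θ : ℝ) / 2 ^ 40 < 1 := by
    rw [← U40_eq, div_lt_one hU]
    exact_mod_cast Nat.le_of_ble_eq_true o1
  have hθ' : 81 / 100 ≤ (c.θ : ℝ) / 2 ^ 40 := by
    have : 81 * (U40 : ℝ) ≤ 100 * c.θ := by exact_mod_cast Nat.le_of_ble_eq_true o2
    rw [← U40_eq, le_div_iff₀ hU]
    linarith
  have hV0 : 11 / 1000 < (c.V0 : ℝ) / 2 ^ 40 := by
    have : 11 * (U40 : ℝ) + 1 ≤ 1000 * c.V0 := by exact_mod_cast Nat.le_of_ble_eq_true o3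
    rw [← U40_eq, lt_div_iff₀ hU]
    linarith
  have hal : 0 < (c.al : ℝ) / 2 ^ 40 := by
    have : (0 : ℝ) < c.al := by exact_mod_cast Nat.le_of_ble_eq_true o4
    positivity
  have hal3 : (c.al : ℝ) / 2 ^ 40 ≤ 3 := by
    have : (c.al : ℝ) ≤ 3 * U40 := by exact_mod_cast Nat.le_of_ble_eq_true o5
    rw [← U40_eq, div_le_iff₀ hU]
    exact this
  obtain ⟨s, hs0, hsq, hs1, hes, hks, hκ1, hsy⟩ := sOk_ok o6 he0 hin.up.1 hκ hin.up.2
  obtain ⟨θt, T, hTr, hθt0, hθt, hΩ, hsm⟩ := hT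
  have hx3 : ∀ {x : ℝ} {a b : ℕ}, |x - (a : ℝ) / 2 ^ 40| ≤ (b : ℝ) / 2 ^ 40 →
      In3 (c.ce, c.he) (c.ck, c.hk) (a, b) e κ x := fun h => ⟨hin.1, hin.2, h⟩
  have hpt : ∀ a : ℕ, |(a : ℝ) / 2 ^ 40 - (a : ℝ) / 2 ^ 40| ≤ ((0 : ℕ) : ℝ) / 2 ^ 40 := by
    intro a; simp
  refine cell_c_head (θ := (c.θ : ℝ) / 2 ^ 40) (V0 := (c.V0 : ℝ) / 2 ^ 40)
    (al := (c.al : ℝ) / 2 ^ 40) (H := c.H) he he4 hκ hs0 hs1 hes hks T hTr hθt0 hθt hθ hθ' hΩ hV0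
    hal hal3 ?_ ?_ ?_ ?_ (ri := c.T.rho.r) ?_ ?_
  · intro h52 Y hY hv x hx
    exact hsm h52.le (sinh_41 (by linarith)) Y hY (hv.trans (by norm_num)) x hx
  · intro y h0 h1 h2
    have h3 := hsy y h0 (h1.trans hal3) h2
    obtain ⟨iv, hiv, h4, h5⟩ := chain_mem (D := 2 ^ 40) (by norm_num) _ _ o10 y (by simpa using h0)
      (by rw [show ((2 ^ 40 : ℕ) : ℝ) = (U40 : ℝ) by rw [U40_eq]; norm_num]; exact h3)
    obtain ⟨q, hq, rfl⟩ := List.mem_map.1 hiv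
    obtain ⟨ops, ho, ha⟩ := covD0 (hc.HI q hq) (hx3 (in_iv h4 h5))
    rw [List.mem_cons, List.mem_singleton] at ho
    rcases ho with ho | ho
    · rw [ho] at ha
      have := pH_of he0 ha
      rwa [pp_I (o9 q hq)] at this
    · rw [ho] at ha
      have := pJ0_of ha
      rw [pp_I (o9 q hq), hu_I, ← hsq] at this
      exfalso
      rw [show (((Real.cosh κ - Real.cos y : ℝ) : ℂ) * 2 - ((s ^ 2 : ℝ) : ℂ)) =
        (((Real.cosh κ - Real.cos y) * 2 - s ^ 2 : ℝ) : ℂ) by push_cast; ring,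
        Complex.ofReal_re] at this
      linarith
  · intro y hy
    obtain ⟨x, hx0, hx2, hyx⟩ : ∃ x : ℝ, 0 ≤ x ∧ x ≤ 2 ∧
        y = ((137438953472 : ℕ) : ℝ) / 2 ^ 40 * κ ^ 2 * (x - 1) := by
      have e1 : ((137438953472 : ℕ) : ℝ) / 2 ^ 40 = 1 / 8 := by norm_num
      rw [e1]
      have hdl : 0 < 1 / 8 * κ ^ 2 := by positivity
      have h1 := abs_le.1 hy
      refine ⟨1 + y / (1 / 8 * κ ^ 2), ?_, ?_, ?_⟩
      · have : -1 ≤ y / (1 / 8 * κ ^ 2) := by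
          rw [le_div_iff₀ hdl]; linarith [h1.1]
        linarith
      · have : y / (1 / 8 * κ ^ 2) ≤ 1 := by
          rw [div_le_iff₀ hdl]; linarith [h1.2]
        linarith
      · rw [add_sub_cancel_left, mul_div_cancel₀ _ hdl.ne']
    obtain ⟨iv, hiv, h1, h2⟩ := chain_mem (D := 2 ^ 40) (by norm_num) _ _ o12 x (by simpa using hx0)
      (by rw [show ((2 ^ 40 : ℕ) : ℝ) = (U40 : ℝ) by rw [U40_eq]; norm_num]
          push_cast
          rw [mul_div_cancel_right₀ _ hU.ne']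
          exact hx2)
    obtain ⟨q, hq, rfl⟩ := List.mem_map.1 hiv
    obtain ⟨ops, ho, ha⟩ := covD0 (hc.HR q hq) (hx3 (in_iv h1 h2))
    rw [List.mem_singleton] at ho
    rw [ho] at ha
    have := pH_of he0 ha
    rwa [pp_R (o11 q hq), ← hyx] at this
  · intro y h0 h1 h2
    obtain ⟨iv, hiv, h3, h4⟩ := chain_mem (D := 2 ^ 40) (by norm_num) _ _ o8 y (by simpa using h0)
      (by rw [show ((2 ^ 40 : ℕ) : ℝ) = 2 ^ 40 by norm_num]; exact h1)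
    obtain ⟨q, hq, rfl⟩ := List.mem_map.1 hiv
    have h5 := o7 q hq
    have hE : ¬ Esc q.m c.H e κ (pp q.B κ y) := by
      rintro (⟨-, h⟩ | ⟨-, h⟩)
      · unfold KC at h
        rw [pp_I h5.1, hu_I, ← hsq] at h
        rw [show (((s ^ 2 : ℝ) : ℂ) - ((Real.cosh κ - Real.cos y : ℝ) : ℂ) * 2) =
          ((s ^ 2 - (Real.cosh κ - Real.cos y) * 2 : ℝ) : ℂ) by push_cast; ring,
          Complex.ofReal_re] at h
        linarith
      · linarith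
    have h6 := (hc.I q hq).pb he0 hκ (hx3 (in_iv h3 h4)) hE
    rw [pp_I h5.1] at h6
    exact ⟨bn q.B, okN_ok h5.2, h6⟩
  · have h1 := ts_of p5 hin T hsm
    have h2 := hc.T.toPCov.pb he0 hκ (hx3 (hpt c.al)) (not_esc (ne_one_of p1) hf _)
    rw [pp_I p2] at h2
    exact ⟨bn c.T, (c.t1 : ℝ) / 5, (c.lT : ℝ) / 2 ^ 40, okTN_ok p3, h2, h1.2, h1.1⟩
  · have h1 := pTI_of (κ := κ) (x := (c.al : ℝ) / 2 ^ 40) he0 (kk12_I p4).1 (kk12_I p4).2
      fun X hX => two1 hc.T.t he0 (hx3 (hpt c.al)) (not_esc (ne_one_of p1) hf _) hX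
    rwa [pp_I p2] at h1

end Pool.Agent.helper63.WG
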