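import Pool.Agent.helper63.WG.SpAll

/-!
# W head: cells from certificates
-/

namespace Pool.Agent.helper63.WG

open Complex Set Pool.Agent.helper31.EQ.W Pool.Agent.helper63.EQC Pool.Agent.helper82.WH
open Pool.Agent.helper31.IA (Z Op Asserts InBox)
open Pool.Agent.helper31.IC (CovD)
open Pool.Agent.helper4.EQW (KK rT nx gK v2 G1)

variable {H : HC} {B : BC} {e κ x : ℝ}

/-- a piece: mode, constants, centre and half width of `x` -/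
structure Pc where
  m : ℕ
  B : BC
  c : ℕ
  h : ℕ

/-- the interval of a piece -/
def Pc.iv (q : Pc) : ℕ × ℕ := (q.c - q.h, q.c + q.h)

/-- `p = x i` -/
def isI (B : BC) : Bool :=
  Nat.beq B.A0.a 0 && Nat.beq B.A0.b 0 && Nat.beq B.A0.c U40 && Nat.beq B.A0.d 0 &&
    Nat.beq B.B0.a 0 && Nat.beq B.B0.b 0 && Nat.beq B.D0.a 0 && Nat.beq B.D0.b 0

/-- `p = dc κ² (x - 1)` -/
def isR (dc : ℕ) (B : BC) : Bool :=
  Nat.beq B.A0.a 0 && Nat.beq B.A0.b 0 && Nat.beq B.A0.c 0 && Nat.beq B.A0.d 0 &&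
    Nat.beq B.B0.a dc && Nat.beq B.B0.b 0 && Nat.beq B.D0.a U40 && Nat.beq B.D0.b 0

theorem pp_I (h : isI B = true) (κ x : ℝ) : pp B κ x = (x : ℂ) * I := by
  simp only [isI, Bool.and_eq_true] at h
  obtain ⟨⟨⟨⟨⟨⟨⟨h1, h2⟩, h3⟩, h4⟩, h5⟩, h6⟩, h7⟩, h8⟩ := h
  have h1 := Nat.eq_of_beq_eq_true h1
  have h2 := Nat.eq_of_beq_eq_true h2
  have h3 := Nat.eq_of_beq_eq_true h3
  have h4 := Nat.eq_of_beq_eq_true h4
  have h5 := Nat.eq_of_beq_eq_true h5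
  have h6 := Nat.eq_of_beq_eq_true h6
  have h7 := Nat.eq_of_beq_eq_true h7
  have h8 := Nat.eq_of_beq_eq_true h8
  have hU : (0 : ℝ) < U40 := by rw [U40_eq]; positivity
  have e1 : B.A0.val = I := by
    rw [Z.val, h1, h2, h3, h4, ← U40_eq]
    push_cast
    have : (U40 : ℂ) ≠ 0 := by exact_mod_cast hU.ne'
    field_simp
    ring
  have e2 : B.B0.r = 0 := by rw [RC.r, h5, h6]; simp
  have e3 : B.D0.r = 0 := by rw [RC.r, h7, h8]; simp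
  rw [pp, e1, e2, e3]
  push_cast; ring

theorem pp_R {dc : ℕ} (h : isR dc B = true) (κ x : ℝ) :
    pp B κ x = (((dc : ℝ) / 2 ^ 40 * κ ^ 2 * (x - 1) : ℝ) : ℂ) := by
  simp only [isR, Bool.and_eq_true] at h
  obtain ⟨⟨⟨⟨⟨⟨⟨h1, h2⟩, h3⟩, h4⟩, h5⟩, h6⟩, h7⟩, h8⟩ := h
  have h1 := Nat.eq_of_beq_eq_true h1
  have h2 := Nat.eq_of_beq_eq_true h2
  have h3 := Nat.eq_of_beq_eq_true h3
  have h4 := Nat.eq_of_beq_eq_true h4
  have h5 := Nat.eq_of_beq_eq_true h5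
  have h6 := Nat.eq_of_beq_eq_true h6
  have h7 := Nat.eq_of_beq_eq_true h7
  have h8 := Nat.eq_of_beq_eq_true h8
  have hU : (0 : ℝ) < U40 := by rw [U40_eq]; positivity
  have e1 : B.A0.val = 0 := by
    rw [Z.val, h1, h2, h3, h4]; simp
  have e2 : B.B0.r = (dc : ℝ) / 2 ^ 40 := by rw [RC.r, h5, h6]; simp
  have e3 : B.D0.r = 1 := by
    rw [RC.r, h7, h8, ← U40_eq]
    simp only [Nat.cast_zero, sub_zero]
    exact div_self hU.ne'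
  rw [pp, e1, e2, e3]
  push_cast; ring

theorem in_iv {c h : ℕ} (h1 : ((c - h : ℕ) : ℝ) / (2 ^ 40 : ℕ) ≤ x)
    (h2 : x ≤ ((c + h : ℕ) : ℝ) / (2 ^ 40 : ℕ)) : |x - (c : ℝ) / 2 ^ 40| ≤ (h : ℝ) / 2 ^ 40 := by
  have h3 : (c : ℝ) - h ≤ ((c - h : ℕ) : ℝ) := by
    rcases le_total h c with h4 | h4
    · rw [Nat.cast_sub h4]
    · rw [Nat.sub_eq_zero_of_le h4]
      have : (c : ℝ) ≤ h := by exact_mod_cast h4
      push_cast; linarith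
  push_cast at h1 h2
  rw [div_le_iff₀ (by positivity)] at h1
  rw [le_div_iff₀ (by positivity)] at h2
  have e1 : (1099511627776 : ℝ) = 2 ^ 40 := by norm_num
  try rw [e1] at h1 h2
  have hp : (0 : ℝ) < 2 ^ 40 := by positivity
  have e2 : x - (c : ℝ) / 2 ^ 40 = (x * 2 ^ 40 - c) / 2 ^ 40 := by
    field_simp
  rw [e2, abs_div, abs_of_pos hp]
  refine div_le_div_of_nonneg_right ?_ hp.le
  rw [abs_le]
  constructor <;> linarith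

/-- what is needed about the tail -/
def TailH (e κ V0 : ℝ) : Prop :=
  ∃ (θt : ℝ) (T : Tail e κ θt), T.r = rT e κ ∧ 0 ≤ θt ∧ θt < 1 ∧ Reg κ V0 T.Ω ∧
    (5 / 2 ≤ e → Real.sinh κ ≤ 527 / 1250 → ∀ Y ∈ T.Ω, ‖v2 κ (nx κ Y)‖ ≤ 105 / 1000 →
      ∀ x : ℕ → ℂ, TFix e κ T.r Y x → ‖x 0‖ ≤ 3 / 5)

theorem TailH.mono {V V0 : ℝ} (h : TailH e κ V0) (hV : V ≤ V0) : TailH e κ V := by
  obtain ⟨θt, T, h1, h2, h3, h4, h5⟩ := h
  exact ⟨θt, T, h1, h2, h3, fun Y a b c d => h4 Y a b (c.trans_le hV) d, h5⟩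

/-- a point of the cell -/
def InC (ce he ck hk : ℕ) (e κ : ℝ) : Prop :=
  |e - (ce : ℝ) / 2 ^ 40| ≤ (he : ℝ) / 2 ^ 40 ∧ |κ - (ck : ℝ) / 2 ^ 40| ≤ (hk : ℝ) / 2 ^ 40

theorem InC.up {ce he ck hk : ℕ} (h : InC ce he ck hk e κ) :
    e ≤ ((ce + he : ℕ) : ℝ) / U40 ∧ κ ≤ ((ck + hk : ℕ) : ℝ) / U40 := by
  have h1 := (abs_le.1 h.1).2
  have h2 := (abs_le.1 h.2).2
  rw [U40_eq]
  push_cast
  rw [add_div, add_div]
  constructor <;> linarith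

theorem InC.dn {ce he ck hk : ℕ} (h : InC ce he ck hk e κ) (hc : he ≤ ce) :
    ((ce - he : ℕ) : ℝ) / U40 ≤ e := by
  have h1 := (abs_le.1 h.1).1
  rw [U40_eq, Nat.cast_sub hc, sub_div]
  linarith

/-- the small constant: `t1 = 5`, or `t1 = 3`, `e ≥ 5/2`, `κ ≤ 41/100`, `V ≤ 105/1000` -/
def okT1 (t1 ce he ck hk V : ℕ) : Bool :=
  Nat.beq t1 5 || (Nat.beq t1 3 && Nat.ble he ce && Nat.ble (5 * U40) (2 * (ce - he)) &&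
    Nat.ble (100 * (ck + hk)) (41 * U40) && Nat.ble (1000 * V) (105 * U40))

theorem sinh_41 {κ : ℝ} (h : κ ≤ 41 / 100) : Real.sinh κ ≤ 527 / 1250 := by
  refine (Real.sinh_le_sinh.2 h).trans ?_
  have h1 := Real.exp_bound (x := 41 / 100) (by rw [abs_of_pos] <;> norm_num) (n := 6) (by norm_num)
  have h2 := Real.exp_bound (x := -(41 / 100)) (by rw [abs_neg, abs_of_pos] <;> norm_num) (n := 6)
    (by norm_num)
  have h3 := (abs_le.1 h1).2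
  have h4 := (abs_le.1 h2).1
  rw [abs_of_pos (by norm_num)] at h3
  rw [abs_neg, abs_of_pos (by norm_num)] at h4
  simp only [Finset.sum_range_succ, Finset.sum_range_zero, Nat.factorial] at h3 h4
  norm_num at h3 h4
  rw [Real.sinh_eq]
  have e1 : -(41 / 100 : ℝ) = -41 / 100 := by ring
  rw [e1]
  linarith

theorem ts_of {t1 ce he ck hk V : ℕ} (h : okT1 t1 ce he ck hk V = true)
    (hin : InC ce he ck hk e κ) {θt : ℝ} (T : Tail e κ θt)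
    (hs : 5 / 2 ≤ e → Real.sinh κ ≤ 527 / 1250 → ∀ Y ∈ T.Ω, ‖v2 κ (nx κ Y)‖ ≤ 105 / 1000 →
      ∀ x : ℕ → ℂ, TFix e κ T.r Y x → ‖x 0‖ ≤ 3 / 5) :
    TS T ((V : ℝ) / 2 ^ 40) ((t1 : ℝ) / 5) ∧ (t1 : ℝ) / 5 ≤ 1 := by
  have hU : (0 : ℝ) < U40 := by rw [U40_eq]; positivity
  simp only [okT1, Bool.or_eq_true, Bool.and_eq_true] at h
  rcases h with h | ⟨⟨⟨⟨h1, h0⟩, h2⟩, h3⟩, h4⟩
  · have h := Nat.eq_of_beq_eq_true h
    subst h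
    have : ((5 : ℕ) : ℝ) / 5 = 1 := by norm_num
    rw [this]
    exact ⟨ts_one T _, le_rfl⟩
  · have h1 := Nat.eq_of_beq_eq_true h1
    subst h1
    have e1 : ((3 : ℕ) : ℝ) / 5 = 3 / 5 := by norm_num
    rw [e1]
    refine ⟨?_, by norm_num⟩
    have h0 := Nat.le_of_ble_eq_true h0
    have h2 : 5 * (U40 : ℝ) ≤ 2 * ((ce - he : ℕ) : ℝ) := by exact_mod_cast Nat.le_of_ble_eq_true h2
    have h3 : 100 * ((ck + hk : ℕ) : ℝ) ≤ 41 * U40 := by exact_mod_cast Nat.le_of_ble_eq_true h3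
    have h4 : 1000 * (V : ℝ) ≤ 105 * U40 := by exact_mod_cast Nat.le_of_ble_eq_true h4
    have a1 := hin.dn h0
    have a2 := hin.up.2
    rw [div_le_iff₀ hU] at a1
    rw [le_div_iff₀ hU] at a2
    have b1 : 5 / 2 ≤ e := by
      by_contra hc
      push Not at hc
      nlinarith
    have b2 : κ ≤ 41 / 100 := by
      by_contra hc
      push Not at hc
      nlinarith
    intro Y hY hv x hx
    refine hs b1 (sinh_41 b2) Y hY (hv.le.trans ?_) x hx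
    rw [← U40_eq, div_le_iff₀ hU]
    linarith

/-- the certificates of a test piece -/
structure TCov (m : ℕ) (H : HC) (B : BC) (b1 b2 b3 : ℕ × ℕ) : Prop extends
    PCov m H B b1 b2 b3 where
  t : CovD 1 (two (pTT H B) (pK1 H B) pX1 m) [b1, b2, b3]

/-- the certificates of a real piece -/
structure RCov (m : ℕ) (H : HC) (B : BC) (b1 b2 b3 : ℕ × ℕ) : Prop extends
    PCov m H B b1 b2 b3 where
  s : CovD 1 (two (pRS H B) (pK1 H B) pX1 m) [b1, b2, b3]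

theorem not_esc {m : ℕ} (hm : m ≠ 1) (hf : fk e κ < (4 : ℝ) ^ (1 / e) - 1) (p : ℂ) :
    ¬ Esc m H e κ p := by
  rintro (⟨h, -⟩ | ⟨-, h⟩)
  · exact hm h
  · linarith

/-- the check of the test constants -/
def kk12 (a b c : ℕ) (B : BC) : Bool :=
  Nat.beq B.K1.a a && Nat.beq B.K1.b 0 && Nat.beq B.K2.a b && Nat.beq B.K2.b c

theorem kk12_I (h : kk12 U40 0 0 B = true) : B.K1.r = 1 ∧ B.K2.r = 0 := by
  simp only [kk12, Bool.and_eq_true] at h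
  obtain ⟨⟨⟨h1, h2⟩, h3⟩, h4⟩ := h
  have hU : (0 : ℝ) < U40 := by rw [U40_eq]; positivity
  rw [RC.r, RC.r, Nat.eq_of_beq_eq_true h1, Nat.eq_of_beq_eq_true h2, Nat.eq_of_beq_eq_true h3,
    Nat.eq_of_beq_eq_true h4, ← U40_eq]
  simp only [Nat.cast_zero, sub_zero, zero_div, and_true]
  exact div_self hU.ne'

theorem kk12_P (h : kk12 0 U40 0 B = true) : B.K1.r = 0 ∧ B.K2.r = 1 := by
  simp only [kk12, Bool.and_eq_true] at h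
  obtain ⟨⟨⟨h1, h2⟩, h3⟩, h4⟩ := h
  have hU : (0 : ℝ) < U40 := by rw [U40_eq]; positivity
  rw [RC.r, RC.r, Nat.eq_of_beq_eq_true h1, Nat.eq_of_beq_eq_true h2, Nat.eq_of_beq_eq_true h3,
    Nat.eq_of_beq_eq_true h4, ← U40_eq]
  simp only [Nat.cast_zero, sub_zero, zero_div, true_and]
  exact div_self hU.ne'

theorem kk12_M (h : kk12 0 0 U40 B = true) : B.K1.r = 0 ∧ B.K2.r = -1 := by
  simp only [kk12, Bool.and_eq_true] at h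
  obtain ⟨⟨⟨h1, h2⟩, h3⟩, h4⟩ := h
  have hU : (0 : ℝ) < U40 := by rw [U40_eq]; positivity
  rw [RC.r, RC.r, Nat.eq_of_beq_eq_true h1, Nat.eq_of_beq_eq_true h2, Nat.eq_of_beq_eq_true h3,
    Nat.eq_of_beq_eq_true h4, ← U40_eq]
  simp only [Nat.cast_zero, sub_zero, zero_sub, zero_div, true_and]
  rw [neg_div, div_self hU.ne']

/-- an ordinary cell (also the last one of a column) -/
structure OC where
  H : HC
  ce : ℕ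
  he : ℕ
  ck : ℕ
  hk : ℕ
  V0 : ℕ
  θ : ℕ
  t0 : ℕ
  t1 : ℕ
  dc : ℕ
  al : ℕ
  Is : List Pc
  Rs : List Pc
  mT : ℕ
  T : BC
  lT : ℕ
  mP : ℕ
  P : BC
  lP : ℕ
  mM : ℕ
  M : BC
  lM : ℕ

def OC.ok (c : OC) : Bool :=
  Nat.blt c.θ U40 && Nat.blt 0 c.al && Nat.blt 0 c.dc &&
  (c.Is.all fun q => !Nat.beq q.m 1 && isI q.B && okN q.B c.V0 c.θ) &&
  chain c.al 0 (c.Is.map Pc.iv) &&
  (c.Rs.all fun q => !Nat.beq q.m 1 && isR c.dc q.B && okN q.B c.V0 c.θ) &&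
  chain (2 * U40) 0 (c.Rs.map Pc.iv) &&
  (!Nat.beq c.mT 1 && isI c.T && okTN c.T c.V0 c.θ c.t0 c.lT && kk12 U40 0 0 c.T &&
    okT1 c.t0 c.ce c.he c.ck c.hk c.T.V) &&
  (!Nat.beq c.mP 1 && isR c.dc c.P && okTN c.P c.V0 c.θ c.t1 c.lP && kk12 0 U40 0 c.P &&
    okT1 c.t1 c.ce c.he c.ck c.hk c.P.V) &&
  (!Nat.beq c.mM 1 && isR c.dc c.M && okTN c.M c.V0 c.θ c.t1 c.lM && kk12 0 0 U40 c.M &&
    okT1 c.t1 c.ce c.he c.ck c.hk c.M.V)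

/-- the certificates of an ordinary cell -/
structure OC.Cert (c : OC) : Prop where
  I : ∀ q ∈ c.Is, PCov q.m c.H q.B (c.ce, c.he) (c.ck, c.hk) (q.c, q.h)
  R : ∀ q ∈ c.Rs, RCov q.m c.H q.B (c.ce, c.he) (c.ck, c.hk) (q.c, q.h)
  T : TCov c.mT c.H c.T (c.ce, c.he) (c.ck, c.hk) (c.al, 0)
  P : TCov c.mP c.H c.P (c.ce, c.he) (c.ck, c.hk) (2 * U40, 0)
  M : TCov c.mM c.H c.M (c.ce, c.he) (c.ck, c.hk) (0, 0)

theorem ne_one_of {m : ℕ} (h : (!Nat.beq m 1) = true) : m ≠ 1 := by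
  rintro rfl
  exact absurd h (by decide)

/-- **ordinary cells** -/
theorem OC.main (c : OC) (hok : c.ok = true) (hc : c.Cert) (he : 1 < e) (he4 : e ≤ 4) (hκ : 0 < κ)
    (hin : InC c.ce c.he c.ck c.hk e κ) (hf : fk e κ < (4 : ℝ) ^ (1 / e) - 1)
    (hT : TailH e κ ((c.V0 : ℝ) / 2 ^ 40)) : Nonempty (WDataB e κ) := by
  have he0 : 0 < e := by linarith
  have hU : (0 : ℝ) < U40 := by rw [U40_eq]; positivity
  simp only [OC.ok, Bool.and_eq_true, List.all_eq_true] at hok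
  obtain ⟨⟨⟨⟨⟨⟨⟨⟨⟨o1, o2⟩, o3⟩, o4⟩, o5⟩, o6⟩, o7⟩, o8⟩, o9⟩, o10⟩ := hok
  obtain ⟨⟨⟨⟨p1, p2⟩, p3⟩, p4⟩, p5⟩ := o8
  obtain ⟨⟨⟨⟨q1, q2⟩, q3⟩, q4⟩, q5⟩ := o9
  obtain ⟨⟨⟨⟨r1, r2⟩, r3⟩, r4⟩, r5⟩ := o10
  have hθ : (c.θ : ℝ) / 2 ^ 40 < 1 := by
    rw [← U40_eq, div_lt_one hU]
    exact_mod_cast Nat.le_of_ble_eq_true o1
  have hal : 0 < (c.al : ℝ) / 2 ^ 40 := by
    have : (0 : ℝ) < c.al := by exact_mod_cast Nat.le_of_ble_eq_true o2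
    positivity
  have hdc : 0 < (c.dc : ℝ) / 2 ^ 40 := by
    have : (0 : ℝ) < c.dc := by exact_mod_cast Nat.le_of_ble_eq_true o3
    positivity
  have hdl : 0 < (c.dc : ℝ) / 2 ^ 40 * κ ^ 2 := by positivity
  obtain ⟨θt, T, hTr, hθt0, hθt, hΩ, hsm⟩ := hT
  have hx3 : ∀ {x : ℝ} {a b : ℕ}, |x - (a : ℝ) / 2 ^ 40| ≤ (b : ℝ) / 2 ^ 40 →
      In3 (c.ce, c.he) (c.ck, c.hk) (a, b) e κ x := fun h => ⟨hin.1, hin.2, h⟩
  have hpt : ∀ a : ℕ, |(a : ℝ) / 2 ^ 40 - (a : ℝ) / 2 ^ 40| ≤ ((0 : ℕ) : ℝ) / 2 ^ 40 := by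
    intro a; simp
  -- the real parameter
  have hpar : ∀ y : ℝ, |y| ≤ (c.dc : ℝ) / 2 ^ 40 * κ ^ 2 → ∃ x : ℝ, 0 ≤ x ∧ x ≤ 2 ∧
      y = (c.dc : ℝ) / 2 ^ 40 * κ ^ 2 * (x - 1) := by
    intro y hy
    have h1 := abs_le.1 hy
    refine ⟨1 + y / ((c.dc : ℝ) / 2 ^ 40 * κ ^ 2), ?_, ?_, ?_⟩
    · have : -1 ≤ y / ((c.dc : ℝ) / 2 ^ 40 * κ ^ 2) := by
        rw [le_div_iff₀ hdl]; linarith [h1.1]
      linarith
    · have : y / ((c.dc : ℝ) / 2 ^ 40 * κ ^ 2) ≤ 1 := by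
        rw [div_le_iff₀ hdl]; linarith [h1.2]
      linarith
    · rw [add_sub_cancel_left, mul_div_cancel₀ _ hdl.ne']
  have hRx : ∀ y : ℝ, |y| ≤ (c.dc : ℝ) / 2 ^ 40 * κ ^ 2 → ∃ q ∈ c.Rs, ∃ x : ℝ,
      In3 (c.ce, c.he) (c.ck, c.hk) (q.c, q.h) e κ x ∧ pp q.B κ x = (y : ℂ) ∧
      q.m ≠ 1 ∧ okN q.B c.V0 c.θ = true := by
    intro y hy
    obtain ⟨x, hx0, hx2, hyx⟩ := hpar y hy
    obtain ⟨iv, hiv, h1, h2⟩ := chain_mem (D := 2 ^ 40) (by norm_num) _ _ o7 x (by simpa using hx0)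
      (by rw [show ((2 ^ 40 : ℕ) : ℝ) = (U40 : ℝ) by rw [U40_eq]; norm_num]
          push_cast
          rw [mul_div_cancel_right₀ _ hU.ne']
          exact hx2)
    obtain ⟨q, hq, rfl⟩ := List.mem_map.1 hiv
    have h3 := o6 q hq
    exact ⟨q, hq, x, hx3 (in_iv h1 h2), by rw [pp_R h3.1.2, hyx], ne_one_of h3.1.1, h3.2⟩
  refine cell_nc (θ := (c.θ : ℝ) / 2 ^ 40) (V0 := (c.V0 : ℝ) / 2 ^ 40) (al := (c.al : ℝ) / 2 ^ 40)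
    (dl := (c.dc : ℝ) / 2 ^ 40 * κ ^ 2) he he4 hκ T hTr hθt0 hθt hθ hΩ (headFn c.H e κ) hal hdl
    ?_ ?_ ?_ (ri := c.T.rho.r) (rp := c.P.rho.r) (rm := c.M.rho.r) ?_ ?_ ?_ ?_ ?_ ?_
  · intro y h0 h1
    obtain ⟨iv, hiv, h2, h3⟩ := chain_mem (D := 2 ^ 40) (by norm_num) _ _ o5 y (by simpa using h0)
      (by rw [show ((2 ^ 40 : ℕ) : ℝ) = 2 ^ 40 by norm_num]; exact h1)
    obtain ⟨q, hq, rfl⟩ := List.mem_map.1 hiv
    have h4 := o4 q hq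
    have h5 := (hc.I q hq).pb he0 hκ (hx3 (in_iv h2 h3)) (not_esc (ne_one_of h4.1.1) hf _)
    rw [pp_I h4.1.2] at h5
    exact ⟨bn q.B, okN_ok h4.2, h5⟩
  · intro y hy
    obtain ⟨q, hq, x, h1, h2, h3, h4⟩ := hRx y hy
    have h5 := (hc.R q hq).toPCov.pb he0 hκ h1 (not_esc h3 hf _)
    rw [h2] at h5
    exact ⟨bn q.B, okN_ok h4, h5⟩
  · intro y hy
    obtain ⟨q, hq, x, h1, h2, h3, h4⟩ := hRx y hy
    exact pRS_of he0 hκ h2 fun X hX => two1 (hc.R q hq).s he0 h1 (not_esc h3 hf _) hX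
  · have h1 := ts_of p5 hin T hsm
    have h2 := hc.T.toPCov.pb he0 hκ (hx3 (hpt c.al)) (not_esc (ne_one_of p1) hf _)
    rw [pp_I p2] at h2
    exact ⟨bn c.T, (c.t0 : ℝ) / 5, (c.lT : ℝ) / 2 ^ 40, okTN_ok p3, h2, h1.2, h1.1⟩
  · have h1 := pTI_of (κ := κ) (x := (c.al : ℝ) / 2 ^ 40) he0 (kk12_I p4).1 (kk12_I p4).2
      fun X hX => two1 hc.T.t he0 (hx3 (hpt c.al)) (not_esc (ne_one_of p1) hf _) hX
    rwa [pp_I p2] at h1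
  · have h1 := ts_of q5 hin T hsm
    have hx : |(2 : ℝ) - ((2 * U40 : ℕ) : ℝ) / 2 ^ 40| ≤ ((0 : ℕ) : ℝ) / 2 ^ 40 := by
      rw [← U40_eq]; push_cast; rw [mul_div_cancel_right₀ _ hU.ne']; simp
    have h2 := hc.P.toPCov.pb he0 hκ (hx3 hx) (not_esc (ne_one_of q1) hf _)
    rw [pp_R q2] at h2
    have e1 : (c.dc : ℝ) / 2 ^ 40 * κ ^ 2 * (2 - 1) = (c.dc : ℝ) / 2 ^ 40 * κ ^ 2 := by ring
    rw [e1] at h2
    exact ⟨bn c.P, (c.t1 : ℝ) / 5, (c.lP : ℝ) / 2 ^ 40, okTN_ok q3, h2, h1.2, h1.1⟩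
  · have hx : |(2 : ℝ) - ((2 * U40 : ℕ) : ℝ) / 2 ^ 40| ≤ ((0 : ℕ) : ℝ) / 2 ^ 40 := by
      rw [← U40_eq]; push_cast; rw [mul_div_cancel_right₀ _ hU.ne']; simp
    have h1 := pTP_of (κ := κ) (x := 2) he0 (kk12_P q4).1 (kk12_P q4).2
      fun X hX => two1 hc.P.t he0 (hx3 hx) (not_esc (ne_one_of q1) hf _) hX
    rw [pp_R q2] at h1
    have e1 : (c.dc : ℝ) / 2 ^ 40 * κ ^ 2 * (2 - 1) = (c.dc : ℝ) / 2 ^ 40 * κ ^ 2 := by ring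
    rwa [e1] at h1
  · have h1 := ts_of r5 hin T hsm
    have hx : |(0 : ℝ) - ((0 : ℕ) : ℝ) / 2 ^ 40| ≤ ((0 : ℕ) : ℝ) / 2 ^ 40 := by simp
    have h2 := hc.M.toPCov.pb he0 hκ (hx3 hx) (not_esc (ne_one_of r1) hf _)
    rw [pp_R r2] at h2
    have e1 : (c.dc : ℝ) / 2 ^ 40 * κ ^ 2 * (0 - 1) = -((c.dc : ℝ) / 2 ^ 40 * κ ^ 2) := by ring
    rw [e1] at h2
    exact ⟨bn c.M, (c.t1 : ℝ) / 5, (c.lM : ℝ) / 2 ^ 40, okTN_ok r3, h2, h1.2, h1.1⟩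
  · have hx : |(0 : ℝ) - ((0 : ℕ) : ℝ) / 2 ^ 40| ≤ ((0 : ℕ) : ℝ) / 2 ^ 40 := by simp
    have h1 := pTM_of (κ := κ) (x := 0) he0 (kk12_M r4).1 (kk12_M r4).2
      fun X hX => two1 hc.M.t he0 (hx3 hx) (not_esc (ne_one_of r1) hf _) hX
    rw [pp_R r2] at h1
    have e1 : (c.dc : ℝ) / 2 ^ 40 * κ ^ 2 * (0 - 1) = -((c.dc : ℝ) / 2 ^ 40 * κ ^ 2) := by ring
    rwa [e1] at h1

end Pool.Agent.helper63.WG
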