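import Pool.Agent.helper63.WG.Tr

/-!
# Cover of the parameter region by boxes
-/

namespace Pool.Agent.helper63.WG

open Set

/-- the intervals `[a, b]` of the list cover `[lo, hi]`, from left to right -/
def chain (hi : ℕ) : ℕ → List (ℕ × ℕ) → Bool
  | _, [] => false
  | lo, (a, b) :: t => decide (a ≤ lo) && (decide (hi ≤ b) || chain hi b t)

theorem chain_mem {D : ℕ} (hD : 0 < D) {hi : ℕ} : ∀ (l : List (ℕ × ℕ)) (lo : ℕ),
    chain hi lo l = true → ∀ x : ℝ, (lo : ℝ) / D ≤ x → x ≤ (hi : ℝ) / D →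
    ∃ q ∈ l, (q.1 : ℝ) / D ≤ x ∧ x ≤ (q.2 : ℝ) / D := by
  have hD' : (0 : ℝ) < D := by exact_mod_cast hD
  intro l
  induction l with
  | nil => intro lo h; simp [chain] at h
  | cons q t ih =>
    rcases q with ⟨a, b⟩
    intro lo h x hx1 hx2
    simp only [chain, Bool.and_eq_true, decide_eq_true_eq, Bool.or_eq_true] at h
    obtain ⟨h1, h2⟩ := h
    rcases le_or_gt x ((b : ℝ) / D) with h3 | h3
    · refine ⟨(a, b), List.mem_cons_self, ?_, h3⟩
      refine le_trans ?_ hx1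
      have : (a : ℝ) ≤ lo := by exact_mod_cast h1
      exact div_le_div_of_nonneg_right this hD'.le
    · rcases h2 with h2 | h2
      · exfalso
        have : (hi : ℝ) ≤ b := by exact_mod_cast h2
        have := div_le_div_of_nonneg_right this hD'.le
        linarith
      · obtain ⟨q, hq, h4⟩ := ih b h2 x h3.le hx2
        exact ⟨q, List.mem_cons_of_mem _ hq, h4⟩

/-- a column of boxes: `a/D ≤ e ≤ b/D`, the intervals `ks` of `κ` cover `[0, top]` -/
structure Col where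
  a : ℕ
  b : ℕ
  top : ℕ
  ks : List (ℕ × ℕ)

/-- the check: the columns cover `[lo, hi]`, in each column the boxes cover `[0, top]` -/
def cover (lo hi : ℕ) (L : List Col) : Bool :=
  chain hi lo (L.map fun c => (c.a, c.b)) && L.all fun c => chain c.top 0 c.ks

/-- **The cover.** `D` is the unit of `e` and `κ`. -/
theorem cover_of {P : ℝ → ℝ → Prop} {B : ℝ → ℝ} {D lo hi : ℕ} (hD : 0 < D) {L : List Col}
    (h : cover lo hi L = true)
    (cells : ∀ c ∈ L, ∀ k ∈ c.ks, ∀ e κ : ℝ, 1 < e → (c.a : ℝ) / D ≤ e → e ≤ (c.b : ℝ) / D →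
      0 < κ → (k.1 : ℝ) / D ≤ κ → κ ≤ (k.2 : ℝ) / D → P e κ)
    (tops : ∀ c ∈ L, 0 < c.top ∧ ∀ e : ℝ, 1 < e → (c.a : ℝ) / D ≤ e → e ≤ (c.b : ℝ) / D →
      B e ≤ fk e ((c.top : ℝ) / D)) :
    ∀ e κ : ℝ, 1 < e → (lo : ℝ) / D ≤ e → e ≤ (hi : ℝ) / D → 0 < κ → fk e κ < B e → P e κ := by
  have hD' : (0 : ℝ) < D := by exact_mod_cast hD
  intro e κ he h1 h2 hκ hf
  simp only [cover, Bool.and_eq_true] at h
  obtain ⟨q, hq, h3, h4⟩ := chain_mem hD _ _ h.1 e h1 h2
  obtain ⟨c, hc, rfl⟩ := List.mem_map.1 hq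
  have h5 := (List.all_eq_true.1 h.2) c hc
  obtain ⟨ht0, ht⟩ := tops c hc
  have htop : 0 < (c.top : ℝ) / D := by
    have : (0 : ℝ) < c.top := by exact_mod_cast ht0
    positivity
  have h6 : κ ≤ (c.top : ℝ) / D := by
    by_contra hcon
    push Not at hcon
    have := fk_mono (e := e) (by linarith) htop hcon.le
    have := ht e he h3 h4
    linarith
  obtain ⟨k, hk, h7, h8⟩ := chain_mem hD _ _ h5 κ (by simpa using hκ.le) h6
  exact cells c hc k hk e κ he h3 h4 hκ h7 h8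

end Pool.Agent.helper63.WG
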