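import Pool.Agent.helper63.WG.HBof
import Pool.Agent.helper63.WG.Cell
import Pool.Agent.helper82.WH.Head
import Pool.Agent.helper31.EQ.Full

/-!
# W head: the corner facts `HB` for the head functions of a cell
-/

namespace Pool.Agent.helper63.WG

open Complex Set Pool.Agent.helper31.EQ.W Pool.Agent.helper63.EQC Pool.Agent.helper82.WH

variable {H : HC} {e κ : ℝ}

/-- what program H delivers at `p` -/
structure PH (H : HC) (e κ : ℝ) (p : ℂ) : Prop where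
  c : ‖hy p * hy p * (hu κ p * 4) * (hz κ p * hQ H e κ (hz κ p)) * (hg H e κ (hu κ p))⁻¹‖ < 1 / 100
  g : ‖hg H e κ (hu κ p) - 5 / 4‖ < 999 / 10000
  h : ‖hW κ p * 2 * hh H e κ (hz κ p) *
    ((1 + ((e / 2 : ℝ) : ℂ) * hz κ p) * (1 + ((e / 2 : ℝ) : ℂ) * hz κ p))⁻¹ - 1‖ < 8 / 100

theorem hb_head {σ : ℝ} {p : ℂ} (h : PH H e κ p) (hσ : hu κ p = ((σ ^ 2 / 2 : ℝ) : ℂ)) (hσ0 : 0 < σ) :
    HB e κ σ (headFn H e κ) p ∧ ‖(headFn H e κ).r1 p‖ ≤ 675 / 1000 * σ ^ 2 := by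
  refine hb_of (C := (Real.cosh κ : ℂ)) (y0 := hy p) (u := hu κ p) (z := hz κ p) (W0 := hW κ p)
    (v2v := hv κ p) (Q := hQ H e κ (hz κ p)) (g := hg H e κ (hu κ p))
    (b := 1 + ((e / 2 : ℝ) : ℂ) * hz κ p) rfl rfl rfl rfl rfl rfl ?_ ?_ hσ hσ0 ?_ ?_ ?_
  · show hg H e κ (hu κ p) * hu κ p = _
    ring
  · push_cast; ring
  · exact h.c
  · exact h.g.trans (by norm_num)
  · exact h.h

theorem hb_head_i {y : ℝ} (hy : 0 < Real.cosh κ - Real.cos y) (h : PH H e κ ((y : ℂ) * I)) :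
    HB e κ (σi κ y) (headFn H e κ) ((y : ℂ) * I) := by
  refine (hb_head h (u_imag (C := (Real.cosh κ : ℂ)) rfl rfl rfl hy) ?_).1
  exact Real.sqrt_pos.2 (by linarith)

theorem hb_head_r {x : ℝ} (hκ : 0 < κ) (hκ1 : κ ≤ 1) (hx : |x| ≤ 1 / 8 * κ ^ 2)
    (h : PH H e κ (x : ℂ)) : HB e κ (σr κ x) (headFn H e κ) (x : ℂ) ∧
      ‖(headFn H e κ).r1 (x : ℂ)‖ ≤ 675 / 1000 * (2 * (Real.cosh κ - Real.cosh x)) := by
  have h0 : 0 < Real.cosh κ - Real.cosh x := by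
    have : |x| < |κ| := by
      rw [abs_of_pos hκ]; nlinarith
    have := Real.cosh_lt_cosh.2 this
    linarith
  have h1 := hb_head h (u_real (C := (Real.cosh κ : ℂ)) rfl rfl rfl h0)
    (Real.sqrt_pos.2 (by linarith))
  refine ⟨h1.1, h1.2.trans (le_of_eq ?_)⟩
  rw [σr, Real.sq_sqrt (by linarith)]

open Pool.Agent.helper4.EQW (KK rT nx gK v2 G1)

/-- **cell at the neutral corner, head functions of a cell** -/
theorem cell_c_head {θ θt V0 al : ℝ} (he : 1 < e) (he4 : e ≤ 4) (hκ : 0 < κ) {s : ℝ} (hs0 : 0 < s)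
    (hs : s ≤ 1 / 10) (has : e / 2 * s ≤ 1 / 10) (hκs : 2 * (Real.cosh κ - 1) ≤ s ^ 2)
    (T : Tail e κ θt) (hTr : T.r = rT e κ) (hθt0 : 0 ≤ θt) (hθt : θt < 1) (hθ : θ < 1)
    (hθ' : 81 / 100 ≤ θ) (hΩ : Reg κ V0 T.Ω) (hV0 : 11 / 1000 < V0)
    (hal : 0 < al) (hal3 : al ≤ 3)
    (hsmall : 5 / 2 < e → ∀ Y ∈ T.Ω, ‖v2 κ (nx κ Y)‖ ≤ 11 / 1000 → ∀ x : ℕ → ℂ,
      TFix e κ T.r Y x → ‖x 0‖ ≤ 3 / 5)
    (HBi : ∀ y : ℝ, 0 ≤ y → y ≤ al → 2 * (Real.cosh κ - Real.cos y) ≤ s ^ 2 →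
      PH H e κ ((y : ℂ) * I))
    (HBr : ∀ x : ℝ, |x| ≤ 1 / 8 * κ ^ 2 → PH H e κ (x : ℂ))
    (hI : ∀ y : ℝ, 0 ≤ y → y ≤ al → s ^ 2 < 2 * (Real.cosh κ - Real.cos y) →
      ∃ b : BN, b.Ok V0 θ ∧ PB e κ (headFn H e κ) b ((y : ℂ) * I)) {ri : ℝ}
    (tI : TPt e κ θ V0 T (headFn H e κ) ((al : ℂ) * I) ri)
    (hTI : PTI e κ (headFn H e κ) ((al : ℂ) * I) ri) :
    Nonempty (WDataB e κ) := by
  have hκ1 : κ ≤ 1 := by
    by_contra hc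
    push Not at hc
    have h2 := Real.cosh_two_mul (κ / 2)
    have h3 := Real.cosh_sq (κ / 2)
    rw [show 2 * (κ / 2) = κ by ring] at h2
    have h4 := Real.self_le_sinh_iff.2 (by linarith : 0 ≤ κ / 2)
    nlinarith
  refine cell_c he he4 hκ hs0 hs has hκs T hTr hθt0 hθt hθ hθ' hΩ hV0 (headFn H e κ) hal hal3
    hsmall ?_ ?_ hI tI hTI
  · intro y h0 h1 h2
    refine hb_head_i ?_ (HBi y h0 h1 h2)
    have h3 : 1 < Real.cosh κ := Real.one_lt_cosh.2 hκ.ne'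
    have h4 := Real.cos_le_one y
    linarith
  · intro x hx
    exact hb_head_r hκ hκ1 hx (HBr x hx)

/-- **the part `W`, from the cells** -/
theorem hw_of (h : ∀ e κ : ℝ, 1 < e → e ≤ 4 → 0 < κ → fk e κ < 4 ^ (1 / e) - 1 →
    Nonempty (WDataB e κ)) :
    ∀ e κ : ℝ, 1 < e → e ≤ 4 → 0 < κ →
      2 * (Real.cosh κ - 1) / Real.cosh (e * κ / 2) ^ (2 / e) < 4 ^ (1 / e) - 1 →
      Nonempty (Pool.Agent.helper31.EQ.WTrap e (Real.exp κ)) := by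
  intro e κ he he4 hκ hb
  obtain ⟨W⟩ := h e κ he he4 hκ hb
  exact W.nonempty_wTrap he hκ

end Pool.Agent.helper63.WG
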