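import Pool.Agent.helper63.WG.Tr

/-!
# W head: the corner facts `HB` from the program values
-/

namespace Pool.Agent.helper63.WG

open Complex Set Pool.Agent.helper31.EQ.W Pool.Agent.helper63.EQC Pool.Agent.helper82.WH

variable {e κ : ℝ} {p w : ℂ} {H : HeadFn}

/-- **(L7)** -/
theorem hb_of {σ : ℝ} {C y0 u z W0 v2v Q g b : ℂ} (hC : C = (Real.cosh κ : ℂ))
    (hy0 : y0 = exp (-p)) (hz : z = C - y0) (hW0 : W0 = C + z)
    (hv2 : v2v = y0 * u * (-2)) (hc1 : H.c1 p = W0 + (v2v * v2v) * (z * Q))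
    (hr1 : H.r1 p = u * g) (hb : b = 1 + ((e : ℂ) * (1 / 2)) * z)
    (hσ : u = ((σ ^ 2 / 2 : ℝ) : ℂ)) (hσ0 : 0 < σ)
    (P1 : ‖(y0 * y0) * (u * 4) * (z * Q) * g⁻¹‖ < 1 / 100) (P2 : ‖g - 5 / 4‖ < 1 / 10)
    (P3 : ‖W0 * 2 * H.h p * (b * b)⁻¹ - 1‖ < 8 / 100) :
    HB e κ σ H p ∧ ‖H.r1 p‖ ≤ 675 / 1000 * σ ^ 2 := by
  have hb0 : b ≠ 0 := by
    intro h0
    rw [h0] at P3
    simp at P3
    norm_num at P3
  have hbn : 0 < ‖b‖ := norm_pos_iff.2 hb0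
  have hg1 : 115 / 100 ≤ ‖g‖ := by
    have := norm_sub_norm_le (5 / 4 : ℂ) (5 / 4 - g)
    rw [sub_sub_cancel, norm_sub_rev] at this
    norm_num at this ⊢
    linarith
  have hg2 : ‖g‖ ≤ 135 / 100 := by
    have := norm_add_le (g - 5 / 4) (5 / 4 : ℂ)
    rw [sub_add_cancel] at this
    norm_num at this ⊢
    linarith
  have hg0 : g ≠ 0 := by
    intro h0; rw [h0, norm_zero] at hg1; norm_num at hg1
  have hun : ‖u‖ = σ ^ 2 / 2 := by
    rw [hσ, Complex.norm_real, Real.norm_of_nonneg (by positivity)]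
  have hrn : ‖H.r1 p‖ = σ ^ 2 / 2 * ‖g‖ := by rw [hr1, norm_mul, hun]
  have hσ2 : 0 < σ ^ 2 := by positivity
  have eW : 2 * (Real.cosh κ : ℂ) - exp (-p) = W0 := by rw [hW0, hz, hC, hy0]; ring
  have ez : (Real.cosh κ : ℂ) - exp (-p) = z := by rw [hz, hC, hy0]
  refine ⟨⟨?_, ?_, ?_, ?_⟩, ?_⟩
  · rw [eW]
    have e1 : H.c1 p - W0 = H.r1 p * ((y0 * y0) * (u * 4) * (z * Q) * g⁻¹) := by
      rw [hc1, hr1, hv2]
      field_simp
      ring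
    rw [e1, norm_mul, mul_comm]
    exact mul_le_mul_of_nonneg_right P1.le (norm_nonneg _)
  · rw [hrn]; nlinarith
  · rw [hrn]; nlinarith
  · rw [eW, ez]
    have e1 : 2 * W0 * H.h p - (1 + ((e / 2 : ℝ) : ℂ) * z) ^ 2 =
        (W0 * 2 * H.h p * (b * b)⁻¹ - 1) * b ^ 2 := by
      have e2 : 1 + ((e / 2 : ℝ) : ℂ) * z = b := by rw [hb]; push_cast; ring
      rw [e2]
      field_simp
    have e2 : 1 + ((e / 2 : ℝ) : ℂ) * z = b := by rw [hb]; push_cast; ring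
    rw [e1, e2, norm_mul, norm_pow]
    exact mul_le_mul_of_nonneg_right P3.le (by positivity)
  · rw [hrn]; nlinarith

/-- `u` on the imaginary side -/
theorem u_imag {C y0 u : ℂ} {y : ℝ} (hC : C = (Real.cosh κ : ℂ))
    (hy0 : y0 = exp (-((y : ℂ) * I))) (hu : u = C - (y0 + exp ((y : ℂ) * I)) * (1 / 2))
    (h : 0 < Real.cosh κ - Real.cos y) : u = ((σi κ y ^ 2 / 2 : ℝ) : ℂ) := by
  have h1 : σi κ y ^ 2 = 2 * (Real.cosh κ - Real.cos y) := Real.sq_sqrt (by linarith)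
  have h2 : (y0 + exp ((y : ℂ) * I)) * (1 / 2) = ((Real.cos y : ℝ) : ℂ) := by
    rw [hy0]; push_cast
    rw [Complex.cos]
    have : -((y : ℂ) * I) = -(y : ℂ) * I := by ring
    rw [this]; ring
  rw [hu, h2, hC, h1]; push_cast; ring

/-- `u` on the real side -/
theorem u_real {C y0 u : ℂ} {x : ℝ} (hC : C = (Real.cosh κ : ℂ))
    (hy0 : y0 = exp (-(x : ℂ))) (hu : u = C - (y0 + exp (x : ℂ)) * (1 / 2))
    (h : 0 < Real.cosh κ - Real.cosh x) : u = ((σr κ x ^ 2 / 2 : ℝ) : ℂ) := by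
  have h1 : σr κ x ^ 2 = 2 * (Real.cosh κ - Real.cosh x) := Real.sq_sqrt (by linarith)
  have h2 : (y0 + exp (x : ℂ)) * (1 / 2) = ((Real.cosh x : ℝ) : ℂ) := by
    rw [hy0, ← cosh_prog]; ring
  rw [hu, h2, hC, h1]; push_cast; ring

end Pool.Agent.helper63.WG
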