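import Pool.Agent.helper63.WG.NL
import Pool.Agent.helper63.EQC.Small

/-!
# W head glue: programs A, D, G, R, T give `HP` and the disc of the solution
-/

namespace Pool.Agent.helper63.WG

open Complex Set Pool.Agent.helper31.EQ.W Pool.Agent.helper63.EQC Pool.Agent.helper82.WH
open Pool.Agent.helper63.FF
open Pool.Agent.helper4.EQW (KK rT nx gK v2 G1)

/-- numbers of a box -/
structure BN where
  tA : ℝ
  tD : ℝ
  tG : ℝ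
  tT : ℝ
  V : ℝ
  dd : ℝ
  be : ℝ
  mm : ℝ

namespace BN

/-- the factor for the effect of `d2` beyond first order -/
noncomputable def fac (b : BN) : ℝ := 1 + b.be * b.dd / 2 + 14 * b.dd ^ 2

/-- the conditions on the numbers of a box -/
structure Ok (b : BN) (V0 θ : ℝ) : Prop where
  hV : b.V ≤ V0
  hdd : b.dd ≤ 5 / 100
  hbe : b.be ≤ 33 / 10
  hmm : b.mm ≤ 13 / 10
  sum : b.tA + b.tD + b.tG + b.tT * b.fac ≤ θ

/-- the conditions on the numbers of a box with a test: `lam`, `rho` -/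
structure OkT (b : BN) (V0 θ θ1 lam rho : ℝ) : Prop extends Ok b V0 θ where
  hlam : b.tA + b.tT * b.fac * θ1 ≤ lam * (1 - b.tD - b.tG)
  hrho : (b.tD + b.tG * lam) * lam + b.tT * b.fac * θ1 ≤ rho
  hDG : b.tD + b.tG < 1

end BN

/-- all programs at the start parameter `p` -/
structure PB (e κ : ℝ) (H : HeadFn) (b : BN) (p : ℂ) : Prop where
  ad : PAD e κ H p b.tA b.tD
  g : PG e κ H p b.tG
  rt : PRT e κ H p b.V b.tT b.dd b.be b.mm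

/-- the region of the tail -/
def Reg (κ V : ℝ) (Ω : Set ℂ) : Prop := ∀ Y : ℂ, 2 * (Real.cosh κ : ℂ) - Y ≠ 0 →
  ‖nx κ Y - ((Real.exp (-κ) : ℝ) : ℂ)‖ < Real.exp (-(4 * κ)) * ‖nx κ Y - ((Real.exp κ : ℝ) : ℂ)‖ →
  ‖v2 κ (nx κ Y)‖ < V → Y ≠ ((Real.exp (-κ) : ℝ) : ℂ) → Y ∈ Ω

variable {e κ : ℝ} {p w : ℂ} {H : HeadFn} {b : BN} {θ θt θ1 V0 lam rho : ℝ}

theorem reg_facts (hκ : 0 < κ) {P : ℂ}
    (h : ‖P - ((Real.exp (-κ) : ℝ) : ℂ)‖ < Real.exp (-(4 * κ)) * ‖P - ((Real.exp κ : ℝ) : ℂ)‖) :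
    0 < P.re ∧ ‖P‖ < 1 := by
  set a := Real.exp (-κ) with ha
  have ha0 : 0 < a := Real.exp_pos _
  have ha1 : a < 1 := by
    have := Real.exp_lt_exp.2 (show -κ < 0 by linarith)
    rwa [Real.exp_zero] at this
  have e4 : Real.exp (-(4 * κ)) = a ^ 4 := by
    rw [ha, ← Real.exp_nat_mul]; congr 1; push_cast; ring
  have e1 : Real.exp κ = a⁻¹ := by rw [ha, Real.exp_neg, inv_inv]
  rw [e4, e1] at h
  have h2 : ‖P - (a : ℂ)‖ ^ 2 < (a ^ 4 * ‖P - ((a⁻¹ : ℝ) : ℂ)‖) ^ 2 :=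
    pow_lt_pow_left₀ h (norm_nonneg _) two_ne_zero
  have n1 : ‖P - (a : ℂ)‖ ^ 2 = (P.re - a) ^ 2 + P.im ^ 2 := by
    rw [← Complex.normSq_eq_norm_sq, Complex.normSq_apply]; simp; ring
  have n2 : ‖P - ((a⁻¹ : ℝ) : ℂ)‖ ^ 2 = (P.re - a⁻¹) ^ 2 + P.im ^ 2 := by
    rw [← Complex.normSq_eq_norm_sq, Complex.normSq_apply, Complex.sub_re, Complex.sub_im,
      Complex.ofReal_re, Complex.ofReal_im]; ring
  have n3 : ‖P‖ ^ 2 = P.re ^ 2 + P.im ^ 2 := by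
    rw [← Complex.normSq_eq_norm_sq, Complex.normSq_apply]; ring
  rw [mul_pow, n1, n2] at h2
  set x := P.re
  set y := P.im
  have h3 : (a ^ 4) ^ 2 * ((x - a⁻¹) ^ 2 + y ^ 2) = (a ^ 4 * x - a ^ 3) ^ 2 + (a ^ 4 * y) ^ 2 := by
    field_simp
  rw [h3] at h2
  have h4 : (1 - a ^ 8) * (x ^ 2 + y ^ 2) < 2 * x * (a - a ^ 7) - (a ^ 2 - a ^ 6) := by nlinarith
  have p2 : a ^ 6 ≤ a ^ 2 := pow_le_pow_of_le_one ha0.le ha1.le (by norm_num)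
  have p7 : a ^ 7 ≤ a := by
    have := pow_le_pow_of_le_one ha0.le ha1.le (show 1 ≤ 7 by norm_num)
    rwa [pow_one] at this
  have p8 : a ^ 8 < 1 := pow_lt_one₀ ha0.le ha1 (by norm_num)
  constructor
  · by_contra hx
    push Not at hx
    nlinarith [mul_nonneg (by linarith : 0 ≤ 1 - a ^ 8) (by positivity : 0 ≤ x ^ 2 + y ^ 2),
      mul_nonneg (neg_nonneg.2 hx) (by linarith : 0 ≤ a - a ^ 7)]
  · by_contra hr
    push Not at hr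
    rw [← n3] at h4
    have hx : x ≤ ‖P‖ := (le_abs_self _).trans (Complex.abs_re_le_norm P)
    set r := ‖P‖
    have h5 : (1 - a ^ 8) * r ^ 2 - 2 * r * (a - a ^ 7) + (a ^ 2 - a ^ 6) < 0 := by
      nlinarith [mul_nonneg (by linarith : 0 ≤ r - x) (by linarith : 0 ≤ a - a ^ 7)]
    have h6 : (1 - a ^ 8) * r ^ 2 - 2 * r * (a - a ^ 7) + (a ^ 2 - a ^ 6) =
        (1 - a) ^ 2 * (1 - a ^ 6) + (r - 1) * ((1 - a ^ 8) * (r + 1) - 2 * (a - a ^ 7)) := by ring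
    have p6 : a ^ 6 < 1 := pow_lt_one₀ ha0.le ha1 (by norm_num)
    have h7 : 0 ≤ (1 - a) ^ 2 * (1 - a ^ 6) := mul_nonneg (sq_nonneg _) (by linarith)
    have h8 : 0 ≤ (1 - a ^ 8) * (r + 1) - 2 * (a - a ^ 7) := by
      have h9 : 0 ≤ (1 - a) * (1 + a ^ 7) := mul_nonneg (by linarith) (by positivity)
      nlinarith [mul_nonneg (by linarith : 0 ≤ 1 - a ^ 8) (by linarith : 0 ≤ r - 1)]
    have h9 := mul_nonneg (by linarith : 0 ≤ r - 1) h8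
    linarith

/-- membership of the position of link 1 in the region -/
theorem PB.mem {Ω : Set ℂ} (hΩ : Reg κ V0 Ω) (hV : b.V ≤ V0) (h : PB e κ H b p) {x0 : ℂ} (hx0 : ‖x0‖ ≤ 1) :
    Y1B e κ p (H.c1 p + H.r1 p * x0) ∈ Ω := by
  have hd := h.rt.dom x0 hx0
  obtain ⟨h1, h2⟩ := h.rt.reg x0 hx0 _ rfl
  exact hΩ _ (slitPlane_ne_zero hd.W_slit) h1 (h2.trans_le hV) (h.rt.Y_ne x0 hx0)

/-- **expansion of the law of link 1** -/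
theorem PB.core (he : 1 < e) (he4 : e ≤ 4) (hκ : 0 < κ) (T : Tail e κ θt) (hTr : T.r = rT e κ)
    (hΩ : Reg κ V0 T.Ω) (hb : b.Ok V0 θ) (h : PB e κ H b p) {x0 x1 : ℂ} (hx0 : ‖x0‖ ≤ 1)
    (hx1 : ‖x1‖ ≤ 1) : ∃ R D2 : ℂ,
      FW e κ (Y1B e κ p (H.c1 p + H.r1 p * x0)) (d1B e κ p (H.c1 p + H.r1 p * x0))
        (T.r (Y1B e κ p (H.c1 p + H.r1 p * x0)) * x1) =
        E0 e κ p (H.c1 p) + E1 e κ p (H.c1 p) * (H.r1 p * x0) + R + D2 ∧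
      ‖R‖ ≤ b.tG * (‖H.h p‖ * ‖H.r1 p‖) * ‖x0‖ ^ 2 ∧
      ‖D2‖ ≤ b.tT * b.fac * (‖H.h p‖ * ‖H.r1 p‖) * ‖x1‖ := by
  have he0 : 0 < e := by linarith
  have hhr := h.ad.hr_ne
  have hh0 : H.h p ≠ 0 := left_ne_zero_of_mul hhr
  have hr0 : H.r1 p ≠ 0 := right_ne_zero_of_mul hhr
  have hhn : 0 < ‖H.h p‖ := norm_pos_iff.2 hh0
  have hrn : 0 < ‖H.r1 p‖ := norm_pos_iff.2 hr0
  set w := H.c1 p + H.r1 p * x0 with hw
  set Y := Y1B e κ p w with hY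
  have hd := h.rt.dom x0 hx0
  rw [← hw] at hd
  have hmem : Y ∈ T.Ω := h.mem hΩ hb.hV hx0
  obtain ⟨hreg, -⟩ := h.rt.reg x0 hx0 _ rfl
  rw [← hw, ← hY] at hreg
  have hW0 : W2 e κ p w ≠ 0 := slitPlane_ne_zero hd.W_slit
  have hP : nx κ Y = (W2 e κ p w)⁻¹ := by rw [nx, one_div, W2]
  obtain ⟨hPre, hPn⟩ := reg_facts hκ hreg
  have hWre : 0 < (W2 e κ p w).re := by
    rw [hP, Complex.inv_re] at hPre
    have := Complex.normSq_pos.2 hW0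
    exact (div_pos_iff_of_pos_right this).1 hPre
  have hWn : 1 < ‖W2 e κ p w‖ := by
    rw [hP, norm_inv] at hPn
    exact (inv_lt_one₀ (norm_pos_iff.2 hW0)).1 hPn
  -- remainder of Taylor
  have hseg : ∀ t ∈ Icc (0 : ℝ) 1, ‖(t : ℂ) * x0‖ ≤ 1 := by
    intro t ht
    rw [norm_mul, Complex.norm_real, Real.norm_of_nonneg ht.1]
    nlinarith [norm_nonneg x0, ht.2, ht.1]
  have eseg : ∀ t : ℝ, H.c1 p + (t : ℂ) * (H.r1 p * x0) = H.c1 p + H.r1 p * ((t : ℂ) * x0) := by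
    intro t; ring
  have hT := taylor2 (f := E0 e κ p) (f1 := E1 e κ p) (f2 := E2 e κ p) (c := H.c1 p)
    (v := H.r1 p * x0) (M := 2 * b.tG * ‖H.h p‖ / ‖H.r1 p‖)
    (fun t ht => by rw [eseg]; exact E0_deriv he0 (h.rt.dom _ (hseg t ht)))
    (fun t ht => by rw [eseg]; exact E1_deriv he0 (h.rt.dom _ (hseg t ht)))
    (fun t ht => by
      rw [eseg]
      have h1 := (h.g.G _ (hseg t ht)).le
      rw [norm_mul, norm_div, norm_mul, norm_inv, Complex.norm_ofNat] at h1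
      rw [le_div_iff₀ hrn]
      rw [mul_inv_le_iff₀ hhn] at h1
      linarith)
  rw [← hw] at hT
  -- effect of d2
  set d := T.r Y * x1 with hdd
  have hrY : T.r Y = rT e κ Y := by rw [hTr]
  have hrd : ‖rT e κ Y‖ < b.dd := h.rt.d x0 hx0
  have hdn : ‖d‖ ≤ b.dd := by
    rw [hdd, norm_mul, hrY]
    nlinarith [norm_nonneg (rT e κ Y), norm_nonneg x1]
  have hd1 : ‖d‖ < 1 := by linarith [hb.hdd]
  have hn' : 1 < ‖W2 e κ p w / (1 - d)‖ := T.w_norm Y hmem x1 hx1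
  have hq := GG_quot (κ := κ) he0 hWre hWn hd1 hn'
  have hm := (h.rt.m x0 hx0).le
  have hbb := (h.rt.b x0 hx0 w rfl).le
  have hbb' : ‖((e : ℂ) / 2 + 1) * mu e (W2 e κ p w) - ((e : ℂ) - 1)‖ ≤ b.be := by
    convert hbb using 2
  have hnn := nn_le he.le he4 hm hb.hmm hbb' hb.hbe hdn hb.hdd
  set g := nn e (mu e (W2 e κ p w)) d ^ (-((2 / e : ℝ) : ℂ)) with hg
  have hF : FW e κ Y (d1B e κ p w) d = E0 e κ p w + GG e κ (W2 e κ p w) * (g - 1) := by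
    have e1 : (c2 e κ : ℂ) * gl e (wn κ Y d) = GG e κ (W2 e κ p w / (1 - d)) := rfl
    have e2 : (c2 e κ : ℂ) * gl e (wn κ Y 0) = GG e κ (W2 e κ p w) := by
      have : wn κ Y 0 = W2 e κ p w := by unfold wn W2; rw [sub_zero, div_one]
      rw [this]; rfl
    unfold E0 FW
    rw [e1, hq, e2]
    ring
  refine ⟨E0 e κ p w - E0 e κ p (H.c1 p) - E1 e κ p (H.c1 p) * (H.r1 p * x0),
    GG e κ (W2 e κ p w) * (g - 1), ?_, ?_, ?_⟩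
  · rw [hF]; ring
  · refine hT.trans (le_of_eq ?_)
    rw [norm_mul]
    field_simp
  · have hTT := (h.rt.T x0 hx0 w rfl).le
    rw [← hY, norm_mul, norm_inv, mul_inv_le_iff₀ (norm_pos_iff.2 hhr), norm_mul, norm_mul,
      norm_mul] at hTT
    rw [norm_mul]
    have h2 : ‖d‖ = ‖rT e κ Y‖ * ‖x1‖ := by rw [hdd, norm_mul, hrY]
    have hfac : 0 ≤ b.fac := by
      have h3 : 0 ≤ b.be := (norm_nonneg _).trans hbb
      have h4 : 0 ≤ b.dd := (norm_nonneg _).trans hrd.le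
      unfold BN.fac; positivity
    calc ‖GG e κ (W2 e κ p w)‖ * ‖g - 1‖
        ≤ ‖GG e κ (W2 e κ p w)‖ * (‖mu e (W2 e κ p w)‖ * ‖d‖ * b.fac) :=
          mul_le_mul_of_nonneg_left hnn (norm_nonneg _)
      _ = (‖rT e κ Y‖ * (‖GG e κ (W2 e κ p w)‖ * ‖mu e (W2 e κ p w)‖)) * (b.fac * ‖x1‖) := by
          rw [h2]; ring
      _ ≤ (b.tT * (‖H.h p‖ * ‖H.r1 p‖)) * (b.fac * ‖x1‖) :=
          mul_le_mul_of_nonneg_right hTT (by positivity)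
      _ = _ := by ring

/-- **the head at one start parameter** -/
theorem PB.hp (he : 1 < e) (he4 : e ≤ 4) (hκ : 0 < κ) (T : Tail e κ θt) (hTr : T.r = rT e κ)
    (hΩ : Reg κ V0 T.Ω) (hb : b.Ok V0 θ) (h : PB e κ H b p) : HP e κ θ T.Ω T.r H p := by
  have hhr := h.ad.hr_ne
  have hh0 : H.h p ≠ 0 := left_ne_zero_of_mul hhr
  have hr0 : H.r1 p ≠ 0 := right_ne_zero_of_mul hhr
  have hhn : 0 < ‖H.h p‖ := norm_pos_iff.2 hh0
  have hrn : 0 < ‖H.r1 p‖ := norm_pos_iff.2 hr0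
  refine ⟨h.ad.cosh_slit, hr0, hh0, fun x0 hx0 => (h.rt.dom x0 hx0).w_slit,
    fun x0 hx0 => h.rt.w_norm x0 hx0, fun x0 hx0 => h.mem hΩ hb.hV hx0, ?_⟩
  intro x0 x1 hx0 hx1
  obtain ⟨R, D2, hF, hR, hD⟩ := h.core he he4 hκ T hTr hΩ hb hx0 hx1
  rw [hF]
  have e1 : H.r1 p * x0 - (H.h p)⁻¹ * (E0 e κ p (H.c1 p) + E1 e κ p (H.c1 p) * (H.r1 p * x0) +
      R + D2) = H.r1 p * x0 * (1 - E1 e κ p (H.c1 p) * (H.h p)⁻¹) -
      E0 e κ p (H.c1 p) * (H.h p * H.r1 p)⁻¹ * H.r1 p - (R * (H.h p)⁻¹ + D2 * (H.h p)⁻¹) := by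
    field_simp
    ring
  rw [e1]
  have hA := h.ad.A
  have hDD := h.ad.D
  have hG0 : 0 ≤ b.tG := (norm_nonneg _).trans (h.g.G 0 (by simp)).le
  have hT0 : 0 ≤ b.tT := (norm_nonneg _).trans (h.rt.T 0 (by simp) _ rfl).le
  have hfac : 0 ≤ b.fac := by
    have h3 : 0 ≤ b.be := (norm_nonneg _).trans (h.rt.b 0 (by simp) _ rfl).le
    have h4 : 0 ≤ b.dd := (norm_nonneg _).trans (h.rt.d 0 (by simp)).le
    unfold BN.fac; positivity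
  have n1 : ‖H.r1 p * x0 * (1 - E1 e κ p (H.c1 p) * (H.h p)⁻¹)‖ ≤ ‖H.r1 p‖ * b.tD := by
    rw [norm_mul, norm_mul]
    calc ‖H.r1 p‖ * ‖x0‖ * ‖1 - E1 e κ p (H.c1 p) * (H.h p)⁻¹‖ ≤ ‖H.r1 p‖ * 1 * b.tD :=
        mul_le_mul (mul_le_mul_of_nonneg_left hx0 hrn.le) hDD.le (norm_nonneg _) (by positivity)
      _ = _ := by ring
  have n2 : ‖E0 e κ p (H.c1 p) * (H.h p * H.r1 p)⁻¹ * H.r1 p‖ < b.tA * ‖H.r1 p‖ := by
    rw [norm_mul]; exact mul_lt_mul_of_pos_right hA hrn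
  have n3 : ‖R * (H.h p)⁻¹‖ ≤ b.tG * ‖H.r1 p‖ := by
    rw [norm_mul, norm_inv, mul_inv_le_iff₀ hhn]
    refine hR.trans ?_
    have : ‖x0‖ ^ 2 ≤ 1 := pow_le_one₀ (norm_nonneg _) hx0
    calc b.tG * (‖H.h p‖ * ‖H.r1 p‖) * ‖x0‖ ^ 2 ≤ b.tG * (‖H.h p‖ * ‖H.r1 p‖) * 1 :=
        mul_le_mul_of_nonneg_left this (by positivity)
      _ = _ := by ring
  have n4 : ‖D2 * (H.h p)⁻¹‖ ≤ b.tT * b.fac * ‖H.r1 p‖ := by
    rw [norm_mul, norm_inv, mul_inv_le_iff₀ hhn]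
    refine hD.trans ?_
    calc b.tT * b.fac * (‖H.h p‖ * ‖H.r1 p‖) * ‖x1‖ ≤ b.tT * b.fac * (‖H.h p‖ * ‖H.r1 p‖) * 1 :=
        mul_le_mul_of_nonneg_left hx1 (by positivity)
      _ = _ := by ring
  have n5 := norm_sub_le (H.r1 p * x0 * (1 - E1 e κ p (H.c1 p) * (H.h p)⁻¹) -
      E0 e κ p (H.c1 p) * (H.h p * H.r1 p)⁻¹ * H.r1 p) (R * (H.h p)⁻¹ + D2 * (H.h p)⁻¹)
  have n6 := norm_sub_le (H.r1 p * x0 * (1 - E1 e κ p (H.c1 p) * (H.h p)⁻¹))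
      (E0 e κ p (H.c1 p) * (H.h p * H.r1 p)⁻¹ * H.r1 p)
  have n7 := norm_add_le (R * (H.h p)⁻¹) (D2 * (H.h p)⁻¹)
  have n8 := mul_le_mul_of_nonneg_right hb.sum hrn.le
  nlinarith

/-- **the disc of the solution** -/
theorem PB.sol (he : 1 < e) (he4 : e ≤ 4) (hκ : 0 < κ) (T : Tail e κ θt) (hTr : T.r = rT e κ)
    (hΩ : Reg κ V0 T.Ω) (hb : b.OkT V0 θ θ1 lam rho) (h : PB e κ H b p) (hθ1 : θ1 ≤ 1)
    (hsm : ∀ Y ∈ T.Ω, ‖v2 κ (nx κ Y)‖ < b.V → ∀ x : ℕ → ℂ, TFix e κ T.r Y x → ‖x 0‖ ≤ θ1)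
    {x0 : ℂ} (hs : Sol e κ T.r H p x0) :
    ∃ X : ℂ, ‖X‖ ≤ 1 ∧ H.c1 p + H.r1 p * x0 = wtest e κ H p rho X := by
  have hhr := h.ad.hr_ne
  have hh0 : H.h p ≠ 0 := left_ne_zero_of_mul hhr
  have hr0 : H.r1 p ≠ 0 := right_ne_zero_of_mul hhr
  have hhn : 0 < ‖H.h p‖ := norm_pos_iff.2 hh0
  have hrn : 0 < ‖H.r1 p‖ := norm_pos_iff.2 hr0
  obtain ⟨hx0, x, hx, hFx⟩ := hs
  have hx1 : ‖x 0‖ ≤ θ1 := hsm _ (h.mem hΩ hb.hV hx0) (h.rt.reg x0 hx0 _ rfl).2 x hx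
  obtain ⟨R, D2, hF, hR, hD⟩ := h.core he he4 hκ T hTr hΩ hb.toOk hx0 (hx1.trans hθ1)
  rw [hFx] at hF
  have hA := h.ad.A
  have hDD := h.ad.D
  have hG0 : 0 ≤ b.tG := (norm_nonneg _).trans (h.g.G 0 (by simp)).le
  have hT0 : 0 < b.tT := (norm_nonneg _).trans_lt (h.rt.T 0 (by simp) _ rfl)
  have hD0 : 0 < b.tD := (norm_nonneg _).trans_lt hDD
  have hA0 : 0 < b.tA := (norm_nonneg _).trans_lt hA
  have hθ10 : 0 ≤ θ1 := (norm_nonneg _).trans hx1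
  have hfac : 0 < b.fac := by
    have h3 : 0 < b.be := (norm_nonneg _).trans_lt (h.rt.b 0 (by simp) _ rfl)
    have h4 : 0 < b.dd := (norm_nonneg _).trans_lt (h.rt.d 0 (by simp))
    unfold BN.fac; positivity
  -- the deviation
  have key : H.r1 p * x0 + E0 e κ p (H.c1 p) * (H.h p)⁻¹ =
      H.r1 p * x0 * (1 - E1 e κ p (H.c1 p) * (H.h p)⁻¹) - (R * (H.h p)⁻¹ + D2 * (H.h p)⁻¹) := by
    field_simp
    linear_combination (-1 : ℂ) * hF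
  set r := ‖x0‖ with hr
  have hr00 : 0 ≤ r := norm_nonneg _
  have n1 : ‖H.r1 p * x0 * (1 - E1 e κ p (H.c1 p) * (H.h p)⁻¹)‖ ≤ ‖H.r1 p‖ * (b.tD * r) := by
    rw [norm_mul, norm_mul]
    calc ‖H.r1 p‖ * r * ‖1 - E1 e κ p (H.c1 p) * (H.h p)⁻¹‖ ≤ ‖H.r1 p‖ * r * b.tD :=
        mul_le_mul_of_nonneg_left hDD.le (by positivity)
      _ = _ := by ring
  have n3 : ‖R * (H.h p)⁻¹‖ ≤ ‖H.r1 p‖ * (b.tG * r ^ 2) := by
    rw [norm_mul, norm_inv, mul_inv_le_iff₀ hhn]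
    refine hR.trans (le_of_eq ?_)
    ring
  have n4 : ‖D2 * (H.h p)⁻¹‖ ≤ ‖H.r1 p‖ * (b.tT * b.fac * θ1) := by
    rw [norm_mul, norm_inv, mul_inv_le_iff₀ hhn]
    refine hD.trans ?_
    calc b.tT * b.fac * (‖H.h p‖ * ‖H.r1 p‖) * ‖x 0‖ ≤ b.tT * b.fac * (‖H.h p‖ * ‖H.r1 p‖) * θ1 :=
        mul_le_mul_of_nonneg_left hx1 (by positivity)
      _ = _ := by ring
  have n5 : ‖H.r1 p * x0 + E0 e κ p (H.c1 p) * (H.h p)⁻¹‖ ≤
      ‖H.r1 p‖ * (b.tD * r + b.tG * r ^ 2 + b.tT * b.fac * θ1) := by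
    rw [key]
    refine (norm_sub_le _ _).trans ?_
    have := norm_add_le (R * (H.h p)⁻¹) (D2 * (H.h p)⁻¹)
    linarith
  have n6 : ‖E0 e κ p (H.c1 p) * (H.h p)⁻¹‖ ≤ ‖H.r1 p‖ * b.tA := by
    have e2 : E0 e κ p (H.c1 p) * (H.h p)⁻¹ =
        E0 e κ p (H.c1 p) * (H.h p * H.r1 p)⁻¹ * H.r1 p := by field_simp
    rw [e2, norm_mul, mul_comm]
    exact mul_le_mul_of_nonneg_left hA.le hrn.le
  have n7 : ‖H.r1 p‖ * r ≤ ‖H.r1 p‖ * (b.tD * r + b.tG * r ^ 2 + b.tT * b.fac * θ1 + b.tA) := by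
    have := norm_sub_le (H.r1 p * x0 + E0 e κ p (H.c1 p) * (H.h p)⁻¹)
      (E0 e κ p (H.c1 p) * (H.h p)⁻¹)
    rw [add_sub_cancel_right, norm_mul] at this
    linarith
  have n8 : r ≤ b.tD * r + b.tG * r ^ 2 + b.tT * b.fac * θ1 + b.tA := le_of_mul_le_mul_left n7 hrn
  have n9 : r ≤ lam := by
    have h1 : r ^ 2 ≤ r := by nlinarith
    have h2 : r * (1 - b.tD - b.tG) ≤ lam * (1 - b.tD - b.tG) := by nlinarith [hb.hlam]
    exact le_of_mul_le_mul_right h2 (by linarith [hb.hDG])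
  have n10 : b.tD * r + b.tG * r ^ 2 + b.tT * b.fac * θ1 ≤ rho := by
    have h1 : r ^ 2 ≤ lam ^ 2 := pow_le_pow_left₀ hr00 n9 2
    have := hb.hrho
    nlinarith [mul_le_mul_of_nonneg_left n9 hD0.le, mul_le_mul_of_nonneg_left h1 hG0]
  have hrho0 : 0 ≤ rho := by
    refine le_trans ?_ n10
    positivity
  have n11 : ‖H.r1 p * x0 + E0 e κ p (H.c1 p) * (H.h p)⁻¹‖ ≤ ‖H.r1 p‖ * rho :=
    n5.trans (mul_le_mul_of_nonneg_left n10 hrn.le)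
  rcases hrho0.eq_or_lt with h0 | h0
  · rw [← h0, mul_zero] at n11
    have h1 := norm_le_zero_iff.1 n11
    refine ⟨0, by simp, ?_⟩
    rw [wtest]
    linear_combination h1
  · refine ⟨(H.r1 p * x0 + E0 e κ p (H.c1 p) * (H.h p)⁻¹) / (rho * H.r1 p), ?_, ?_⟩
    · rw [norm_div, norm_mul, Complex.norm_real, Real.norm_of_nonneg hrho0,
        div_le_one (by positivity)]
      linarith
    · rw [wtest]
      have : (rho : ℂ) ≠ 0 := by exact_mod_cast h0.ne'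
      field_simp
      ring

end Pool.Agent.helper63.WG
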