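import Pool.Agent.helper63.WG.Calc
import Pool.Agent.helper63.FF.Lg

/-!
# W head glue: Taylor bounds and the effect of `d2`
-/

namespace Pool.Agent.helper63.WG

open Complex Set Pool.Agent.helper31.EQ.W Pool.Agent.helper63.EQC Pool.Agent.helper82.WH
open Pool.Agent.helper63.FF
open Pool.Agent.helper4.EQW (KK rT nx gK v2 G1)

variable {e κ : ℝ} {p w : ℂ}

/-- integration along a segment -/
theorem seg_bound {g g' : ℂ → ℂ} {v : ℂ} {K : ℝ} (k : ℕ)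
    (h : ∀ t ∈ Icc (0 : ℝ) 1, HasDerivAt g (g' ((t : ℂ) * v)) ((t : ℂ) * v))
    (hb : ∀ t ∈ Icc (0 : ℝ) 1, ‖g' ((t : ℂ) * v)‖ ≤ K * (t * ‖v‖) ^ k) :
    ∀ t ∈ Icc (0 : ℝ) 1, ‖g ((t : ℂ) * v) - g 0‖ ≤ K * (t * ‖v‖) ^ (k + 1) / (k + 1) := by
  have hd : ∀ t ∈ Icc (0 : ℝ) 1,
      HasDerivAt (fun t : ℝ => g ((t : ℂ) * v) - g 0) (g' ((t : ℂ) * v) * v) t := by
    intro t ht
    have h1 : HasDerivAt (fun t : ℝ => ((t : ℂ) * v)) v t := by
      have := (Complex.ofRealCLM.hasDerivAt (x := t)).mul_const v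
      simpa using this
    exact ((h t ht).comp t h1).sub_const _
  refine image_norm_le_of_norm_deriv_right_le_deriv_boundary
    (B := fun t : ℝ => K * (t * ‖v‖) ^ (k + 1) / (k + 1))
    (B' := fun t : ℝ => K * (t * ‖v‖) ^ k * ‖v‖)
    (fun t ht => (hd t ht).continuousAt.continuousWithinAt)
    (fun t ht => (hd t ⟨ht.1, ht.2.le⟩).hasDerivWithinAt) (by simp) ?_ ?_
  · intro t
    have h1 : HasDerivAt (fun t : ℝ => t * ‖v‖) ‖v‖ t := by
      simpa using (hasDerivAt_id t).mul_const ‖v‖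
    have h2 := ((h1.pow (k + 1)).const_mul K).div_const ((k : ℝ) + 1)
    refine h2.congr_deriv ?_
    have : (k : ℝ) + 1 ≠ 0 := by positivity
    push_cast
    field_simp
  · intro t ht
    have h1 := hb t ⟨ht.1, ht.2.le⟩
    rw [norm_mul]
    exact mul_le_mul_of_nonneg_right h1 (norm_nonneg _)

/-- **Taylor** on a segment -/
theorem taylor2 {f f1 f2 : ℂ → ℂ} {c v : ℂ} {M : ℝ}
    (h1 : ∀ t ∈ Icc (0 : ℝ) 1, HasDerivAt f (f1 (c + t * v)) (c + t * v))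
    (h2 : ∀ t ∈ Icc (0 : ℝ) 1, HasDerivAt f1 (f2 (c + t * v)) (c + t * v))
    (hM : ∀ t ∈ Icc (0 : ℝ) 1, ‖f2 (c + t * v)‖ ≤ M) :
    ‖f (c + v) - f c - f1 c * v‖ ≤ M * ‖v‖ ^ 2 / 2 := by
  have a1 : ∀ t ∈ Icc (0 : ℝ) 1, ‖f1 (c + t * v) - f1 c‖ ≤ M * (t * ‖v‖) ^ 1 := by
    intro t ht
    have := seg_bound (g := fun z => f1 (c + z)) (g' := fun z => f2 (c + z)) (v := v) (K := M) 0
      (fun t ht => by
        have := (h2 t ht).comp_const_add c ((t : ℂ) * v)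
        exact this) (fun t ht => by simpa using hM t ht) t ht
    simpa using this
  have a2 := seg_bound (g := fun z => f (c + z) - f1 c * z) (g' := fun z => f1 (c + z) - f1 c) (v := v)
    (K := M) 1
    (fun t ht => by
      have b1 := (h1 t ht).comp_const_add c ((t : ℂ) * v)
      have b2 := (hasDerivAt_id ((t : ℂ) * v)).const_mul (f1 c)
      exact (b1.sub b2).congr_deriv (by ring)) a1 1 (by simp)
  simp only [ofReal_one, one_mul, add_zero, mul_zero, sub_zero] at a2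
  have e1 : f (c + v) - f c - f1 c * v = f (c + v) - f1 c * v - f c := by ring
  rw [e1]
  refine a2.trans (le_of_eq ?_)
  norm_num

theorem m1_re (he : 0 < e) {W : ℂ} (hn : 1 < ‖W‖) : 0 < (m1 e W).re := by
  have h1 : ‖W ^ (-(e : ℂ))‖ < 1 := by
    have e1 : (-(e : ℂ)) = ((-e : ℝ) : ℂ) := by push_cast; ring
    rw [e1, Complex.norm_cpow_real]
    exact Real.rpow_lt_one_of_one_lt_of_neg hn (by linarith)
  have h2 := (neg_abs_le _).trans' (neg_le_neg (Complex.abs_re_le_norm (W ^ (-(e : ℂ)))))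
  have h3 : (m1 e W).re = (1 + (W ^ (-(e : ℂ))).re) / 2 := by
    have : m1 e W = ((1 / 2 : ℝ) : ℂ) * (1 + W ^ (-(e : ℂ))) := by unfold m1; push_cast; ring
    rw [this, Complex.re_ofReal_mul, Complex.add_re, Complex.one_re]; ring
  rw [h3]
  linarith

theorem m1_quot (he : 0 < e) {W d : ℂ} (hW : 0 < W.re) (hn : 1 < ‖W‖) (hd : ‖d‖ < 1) :
    m1 e (W / (1 - d)) = m1 e W * (1 + mu e W / 2 * ((1 - d) ^ (e : ℂ) - 1)) := by
  have h0 : m1 e W ≠ 0 := fun h => by have := m1_re he hn; rw [h] at this; simp at this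
  have hW0 : W ≠ 0 := by rintro rfl; simp at hW
  have hre : 0 < (1 - d).re := by
    have := (le_abs_self _).trans (Complex.abs_re_le_norm d)
    rw [Complex.sub_re, Complex.one_re]; linarith
  have hd0 : (1 - d) ≠ 0 := by intro h; rw [h] at hre; simp at hre
  have h1 : (W / (1 - d)) ^ (-(e : ℂ)) = W ^ (-(e : ℂ)) * (1 - d) ^ (e : ℂ) := by
    rw [Complex.cpow_def_of_ne_zero (div_ne_zero hW0 hd0), Complex.cpow_def_of_ne_zero hW0,
      Complex.cpow_def_of_ne_zero hd0, ← log_sub_log hW hre, ← Complex.exp_add]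
    congr 1; ring
  have h2 := w_mu h0
  have h3 : m1 e (W / (1 - d)) = (1 + W ^ (-(e : ℂ)) * (1 - d) ^ (e : ℂ)) / 2 := by
    rw [← h1]; rfl
  have h4 : m1 e W * mu e W = 2 * m1 e W - 1 := by rw [mu]; field_simp
  rw [h3, h2]
  linear_combination (1 / 2 : ℂ) * h4

/-- the factor of `G` when `W` is replaced by `W/(1-d)` -/
noncomputable def nn (e : ℝ) (μ d : ℂ) : ℂ := 1 + μ / 2 * ((1 - d) ^ (e : ℂ) - 1)

theorem GG_quot (he : 0 < e) {W d : ℂ} (hW : 0 < W.re) (hn : 1 < ‖W‖) (hd : ‖d‖ < 1)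
    (hn' : 1 < ‖W / (1 - d)‖) :
    GG e κ (W / (1 - d)) = GG e κ W * nn e (mu e W) d ^ (-((2 / e : ℝ) : ℂ)) := by
  have h1 := m1_re he hn
  have h2 := m1_re he hn'
  have h0 : m1 e W ≠ 0 := fun h => by rw [h] at h1; simp at h1
  have h0' : m1 e (W / (1 - d)) ≠ 0 := fun h => by rw [h] at h2; simp at h2
  have h3 := m1_quot he hW hn hd
  have h4 : m1 e (W / (1 - d)) / m1 e W = nn e (mu e W) d := by
    rw [h3, nn]; field_simp
  have h5 : nn e (mu e W) d ≠ 0 := by rw [← h4]; exact div_ne_zero h0' h0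
  have h6 := log_sub_log h2 h1
  rw [h4] at h6
  have h7 : GG e κ (W / (1 - d)) = (c2 e κ : ℂ) * m1 e (W / (1 - d)) ^ (-((2 / e : ℝ) : ℂ)) := rfl
  have h8 : GG e κ W = (c2 e κ : ℂ) * m1 e W ^ (-((2 / e : ℝ) : ℂ)) := rfl
  rw [h7, h8, Complex.cpow_def_of_ne_zero h0', Complex.cpow_def_of_ne_zero h0,
    Complex.cpow_def_of_ne_zero h5, mul_assoc, ← Complex.exp_add, ← h6]
  congr 2; ring


theorem e_facts {z : ℂ} (hz : ‖z‖ ≤ 5 / 100) : 95 / 100 ≤ ‖1 - z‖ ∧ ‖1 - z‖ ≤ 105 / 100 ∧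
    0 < (1 - z).re := by
  have h1 := norm_sub_norm_le (1 : ℂ) z
  have h2 := norm_sub_le (1 : ℂ) z
  have h3 := (le_abs_self _).trans (Complex.abs_re_le_norm z)
  rw [norm_one] at h1 h2
  rw [Complex.sub_re, Complex.one_re]
  exact ⟨by linarith, by linarith, by linarith⟩

/-- `‖(1-z)^e - 1‖ ≤ 93/20 ‖z‖` -/
theorem P_bound (he : 1 ≤ e) (he4 : e ≤ 4) {z : ℂ} (hz : ‖z‖ ≤ 5 / 100) :
    ‖(1 - z) ^ (e : ℂ) - 1‖ ≤ 93 / 20 * ‖z‖ := by
  have hk : ∀ t ∈ Icc (0 : ℝ) 1, ‖(t : ℂ) * z‖ ≤ 5 / 100 := by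
    intro t ht
    rw [norm_mul, Complex.norm_real, Real.norm_of_nonneg ht.1]
    nlinarith [norm_nonneg z, ht.2, ht.1]
  have h := seg_bound (g := fun z => (1 - z) ^ (e : ℂ))
    (g' := fun z => (e : ℂ) * (1 - z) ^ ((e : ℂ) - 1) * (-1)) (v := z) (K := 93 / 20) 0
    (fun t ht => by
      have h1 := (e_facts (hk t ht)).2.2
      exact ((hasDerivAt_id ((t : ℂ) * z)).const_sub 1).cpow_const (Or.inl h1))
    (fun t ht => by
      obtain ⟨h1, h2, h3⟩ := e_facts (hk t ht)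
      have e1 : ((e : ℂ) - 1) = ((e - 1 : ℝ) : ℂ) := by push_cast; ring
      rw [e1, mul_neg_one, norm_neg, norm_mul, Complex.norm_cpow_real, Complex.norm_real,
        Real.norm_of_nonneg (by linarith), pow_zero, mul_one]
      have h4 : ‖1 - (t : ℂ) * z‖ ^ (e - 1) ≤ (105 / 100 : ℝ) ^ (3 : ℝ) :=
        (Real.rpow_le_rpow (norm_nonneg _) h2 (by linarith)).trans
          (Real.rpow_le_rpow_of_exponent_le (by norm_num) (by linarith))
      have h5 : (105 / 100 : ℝ) ^ (3 : ℝ) ≤ 93 / 80 := by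
        rw [show (3 : ℝ) = ((3 : ℕ) : ℝ) by norm_num, Real.rpow_natCast]; norm_num
      have h6 : 0 ≤ ‖1 - (t : ℂ) * z‖ ^ (e - 1) := by positivity
      nlinarith)
    1 (by simp)
  simpa using h

/-- logarithm of `f'/μ` -/
noncomputable def lamz (e : ℝ) (μ z : ℂ) : ℂ :=
  ((e : ℂ) - 1) * log (1 - z) - (1 + 2 / (e : ℂ)) * log (nn e μ z)

theorem nn_facts (he : 1 ≤ e) (he4 : e ≤ 4) {μ z : ℂ} (hμ : ‖μ‖ ≤ 13 / 10) (hz : ‖z‖ ≤ 5 / 100) :
    84 / 100 ≤ ‖nn e μ z‖ ∧ 0 < (nn e μ z).re := by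
  have h1 := P_bound he he4 hz
  have h2 : ‖μ / 2 * ((1 - z) ^ (e : ℂ) - 1)‖ ≤ 16 / 100 := by
    rw [norm_mul, norm_div, Complex.norm_ofNat]
    have := mul_le_mul (by linarith : ‖μ‖ / 2 ≤ 13 / 20) h1 (norm_nonneg _) (by norm_num)
    linarith
  have h3 := norm_sub_norm_le (1 : ℂ) (-(μ / 2 * ((1 - z) ^ (e : ℂ) - 1)))
  rw [norm_one, norm_neg, sub_neg_eq_add] at h3
  have h4 := (neg_abs_le _).trans' (neg_le_neg (Complex.abs_re_le_norm
    (μ / 2 * ((1 - z) ^ (e : ℂ) - 1))))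
  refine ⟨by unfold nn; linarith, ?_⟩
  unfold nn
  rw [Complex.add_re, Complex.one_re]
  linarith

theorem nn_deriv (μ : ℂ) {z : ℂ} (h : 0 < (1 - z).re) :
    HasDerivAt (nn e μ) (-(μ / 2) * e * (1 - z) ^ (e : ℂ) * (1 - z)⁻¹) z := by
  have h0 : (1 - z) ≠ 0 := by intro h0; rw [h0] at h; simp at h
  have h1 : HasDerivAt (fun z : ℂ => (1 - z) ^ (e : ℂ)) ((e : ℂ) * (1 - z) ^ ((e : ℂ) - 1) * (-1)) z :=
    ((hasDerivAt_id z).const_sub 1).cpow_const (Or.inl h)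
  have h2 := ((h1.sub_const 1).const_mul (μ / 2)).const_add 1
  refine h2.congr_deriv ?_
  rw [Complex.cpow_sub _ _ h0, Complex.cpow_one]
  field_simp

theorem lamz_deriv (he : 1 ≤ e) (he4 : e ≤ 4) {μ z : ℂ} (hμ : ‖μ‖ ≤ 13 / 10)
    (hz : ‖z‖ ≤ 5 / 100) : HasDerivAt (lamz e μ)
      ((-((e : ℂ) - 1) + (1 + (e : ℂ) / 2) * μ * ((1 - z) ^ (e : ℂ) / nn e μ z)) * (1 - z)⁻¹) z := by
  obtain ⟨h1, h2, h3⟩ := e_facts hz
  obtain ⟨h4, h5⟩ := nn_facts he he4 hμ hz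
  have he0 : (e : ℂ) ≠ 0 := by exact_mod_cast (by linarith : e ≠ 0)
  have hz0 : (1 - z) ≠ 0 := by intro h0; rw [h0] at h3; simp at h3
  have hn0 : nn e μ z ≠ 0 := by intro h0; rw [h0] at h5; simp at h5
  have a1 : HasDerivAt (fun z : ℂ => log (1 - z)) ((-1) / (1 - z)) z :=
    ((hasDerivAt_id z).const_sub 1).clog (Or.inl h3)
  have a2 := (nn_deriv (e := e) μ h3).clog (Or.inl h5)
  have a3 := (a1.const_mul ((e : ℂ) - 1)).sub (a2.const_mul (1 + 2 / (e : ℂ)))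
  refine a3.congr_deriv ?_
  field_simp
  ring

/-- `λ'` is close to `b` -/
theorem lamz'_bound (he : 1 ≤ e) (he4 : e ≤ 4) {μ z : ℂ} (hμ : ‖μ‖ ≤ 13 / 10)
    (hb : ‖(e / 2 + 1 : ℂ) * μ - ((e : ℂ) - 1)‖ ≤ 33 / 10) (hz : ‖z‖ ≤ 5 / 100) :
    ‖(-((e : ℂ) - 1) + (1 + (e : ℂ) / 2) * μ * ((1 - z) ^ (e : ℂ) / nn e μ z)) * (1 - z)⁻¹ -
      ((e / 2 + 1 : ℂ) * μ - ((e : ℂ) - 1))‖ ≤ 41 * ‖z‖ := by
  obtain ⟨h1, h2, h3⟩ := e_facts hz
  obtain ⟨h4, h5⟩ := nn_facts he he4 hμ hz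
  have hz0 : (1 - z) ≠ 0 := by intro h0; rw [h0] at h3; simp at h3
  have hn0 : nn e μ z ≠ 0 := by intro h0; rw [h0] at h5; simp at h5
  have hP := P_bound he he4 hz
  set b := (e / 2 + 1 : ℂ) * μ - ((e : ℂ) - 1) with hbd
  set s := (1 - z) ^ (e : ℂ) - 1 with hs
  have e0 : (1 - z) ^ (e : ℂ) = 1 + s := by rw [hs]; ring
  have en : nn e μ z = 1 + μ / 2 * s := rfl
  rw [e0]
  have e1 : (-((e : ℂ) - 1) + (1 + (e : ℂ) / 2) * μ * ((1 + s) / nn e μ z)) * (1 - z)⁻¹ - b =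
      (b * z + (1 + (e : ℂ) / 2) * (μ * (1 - μ / 2)) * (s / nn e μ z)) * (1 - z)⁻¹ := by
    have key : (1 + s) / nn e μ z = 1 + (1 - μ / 2) * (s / nn e μ z) := by
      rw [div_eq_iff hn0, add_mul, mul_assoc, div_mul_cancel₀ _ hn0, en]
      ring
    rw [key, hbd]
    field_simp
    ring
  rw [e1, norm_mul, norm_inv]
  have n1 : ‖(1 + (e : ℂ) / 2)‖ ≤ 3 := by
    have : (1 + (e : ℂ) / 2) = ((1 + e / 2 : ℝ) : ℂ) := by push_cast; ring
    rw [this, Complex.norm_real, Real.norm_of_nonneg (by linarith)]; linarith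
  have n2 : ‖μ * (1 - μ / 2)‖ ≤ 13 / 10 * (33 / 20) := by
    rw [norm_mul]
    have : ‖1 - μ / 2‖ ≤ 33 / 20 := by
      refine (norm_sub_le _ _).trans ?_
      rw [norm_one, norm_div, Complex.norm_ofNat]; linarith
    exact mul_le_mul hμ this (norm_nonneg _) (by norm_num)
  have n3 : ‖s / nn e μ z‖ ≤ (93 / 20 * ‖z‖) / (84 / 100) := by
    rw [norm_div]
    exact div_le_div₀ (by positivity) hP (by norm_num) h4
  have n4 : ‖(1 + (e : ℂ) / 2) * (μ * (1 - μ / 2)) * (s / nn e μ z)‖ ≤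
      3 * (13 / 10 * (33 / 20)) * ((93 / 20 * ‖z‖) / (84 / 100)) := by
    rw [norm_mul, norm_mul]
    exact mul_le_mul (mul_le_mul n1 n2 (norm_nonneg _) (by norm_num)) n3 (norm_nonneg _) (by norm_num)
  have n5 : ‖b * z‖ ≤ 33 / 10 * ‖z‖ := by
    rw [norm_mul]; exact mul_le_mul_of_nonneg_right hb (norm_nonneg _)
  have n6 := (norm_add_le (b * z) ((1 + (e : ℂ) / 2) * (μ * (1 - μ / 2)) * (s / nn e μ z))).trans
    (add_le_add n5 n4)
  have n7 : ‖1 - z‖⁻¹ ≤ (95 / 100)⁻¹ := inv_anti₀ (by norm_num) h1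
  have n8 := mul_le_mul n6 n7 (by positivity) (by positivity)
  refine n8.trans ?_
  have := norm_nonneg z
  rw [show (95 / 100 : ℝ)⁻¹ = 20 / 19 by norm_num]
  linarith

theorem lamz_zero (e : ℝ) (μ : ℂ) : lamz e μ 0 = 0 := by
  unfold lamz nn; simp

theorem lamz_bound (he : 1 ≤ e) (he4 : e ≤ 4) {μ z : ℂ} (hμ : ‖μ‖ ≤ 13 / 10)
    (hb : ‖(e / 2 + 1 : ℂ) * μ - ((e : ℂ) - 1)‖ ≤ 33 / 10) (hz : ‖z‖ ≤ 5 / 100) :
    ‖lamz e μ z - ((e / 2 + 1 : ℂ) * μ - ((e : ℂ) - 1)) * z‖ ≤ 41 / 2 * ‖z‖ ^ 2 := by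
  set b := (e / 2 + 1 : ℂ) * μ - ((e : ℂ) - 1) with hbd
  have hk : ∀ t ∈ Icc (0 : ℝ) 1, ‖(t : ℂ) * z‖ ≤ 5 / 100 := by
    intro t ht
    rw [norm_mul, Complex.norm_real, Real.norm_of_nonneg ht.1]
    nlinarith [norm_nonneg z, ht.2, ht.1]
  have h := seg_bound (g := fun z => lamz e μ z - b * z)
    (g' := fun z => (-((e : ℂ) - 1) + (1 + (e : ℂ) / 2) * μ * ((1 - z) ^ (e : ℂ) / nn e μ z)) *
      (1 - z)⁻¹ - b) (v := z) (K := 41) 1
    (fun t ht => by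
      have b1 := lamz_deriv he he4 hμ (hk t ht)
      have b2 := (hasDerivAt_id ((t : ℂ) * z)).const_mul b
      exact (b1.sub b2).congr_deriv (by ring))
    (fun t ht => by
      have := lamz'_bound he he4 hμ hb (hk t ht)
      rw [norm_mul, Complex.norm_real, Real.norm_of_nonneg ht.1, ← hbd] at this
      rw [pow_one]
      exact this) 1 (by simp)
  simp only [ofReal_one, one_mul, mul_zero, lamz_zero, sub_zero] at h
  refine h.trans (le_of_eq ?_)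
  norm_num
  ring

/-- **effect of `d2`**: `‖n^(-2/e) - 1‖ ≤ ‖μ‖ ‖d‖ (1 + ‖b‖ ‖d‖/2 + 14 ‖d‖²)` -/
theorem nn_bound (he : 1 ≤ e) (he4 : e ≤ 4) {μ d : ℂ} (hμ : ‖μ‖ ≤ 13 / 10)
    (hb : ‖(e / 2 + 1 : ℂ) * μ - ((e : ℂ) - 1)‖ ≤ 33 / 10) (hd : ‖d‖ ≤ 5 / 100) :
    ‖nn e μ d ^ (-((2 / e : ℝ) : ℂ)) - 1‖ ≤
      ‖μ‖ * ‖d‖ * (1 + ‖(e / 2 + 1 : ℂ) * μ - ((e : ℂ) - 1)‖ * ‖d‖ / 2 + 14 * ‖d‖ ^ 2) := by
  set b := (e / 2 + 1 : ℂ) * μ - ((e : ℂ) - 1) with hbd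
  have he0 : (e : ℂ) ≠ 0 := by exact_mod_cast (by linarith : e ≠ 0)
  have hk : ∀ t ∈ Icc (0 : ℝ) 1, ‖(t : ℂ) * d‖ ≤ 5 / 100 := by
    intro t ht
    rw [norm_mul, Complex.norm_real, Real.norm_of_nonneg ht.1]
    nlinarith [norm_nonneg d, ht.2, ht.1]
  -- derivative of `f`
  have hf : ∀ z : ℂ, ‖z‖ ≤ 5 / 100 →
      HasDerivAt (fun z => nn e μ z ^ (-((2 / e : ℝ) : ℂ))) (μ * exp (lamz e μ z)) z := by
    intro z hz
    obtain ⟨h1, h2, h3⟩ := e_facts hz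
    obtain ⟨h4, h5⟩ := nn_facts he he4 hμ hz
    have hz0 : (1 - z) ≠ 0 := by intro h0; rw [h0] at h3; simp at h3
    have hn0 : nn e μ z ≠ 0 := by intro h0; rw [h0] at h5; simp at h5
    refine ((nn_deriv (e := e) μ h3).cpow_const (Or.inl h5)).congr_deriv ?_
    have e1 : exp (lamz e μ z) = (1 - z) ^ (e : ℂ) * (1 - z)⁻¹ *
        (nn e μ z ^ (-((2 / e : ℝ) : ℂ) - 1)) := by
      rw [Complex.cpow_def_of_ne_zero hz0, Complex.cpow_def_of_ne_zero hn0, lamz]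
      nth_rewrite 3 [← Complex.exp_log hz0]
      rw [← Complex.exp_neg, ← Complex.exp_add, ← Complex.exp_add]
      congr 1
      push_cast
      ring
    rw [e1]
    push_cast
    field_simp
  have h := seg_bound (g := fun z => nn e μ z ^ (-((2 / e : ℝ) : ℂ)) - μ * (z + b * z ^ 2 / 2))
    (g' := fun z => μ * exp (lamz e μ z) - μ * (1 + b * z)) (v := d) (K := 42 * ‖μ‖) 2
    (fun t ht => by
      have b1 := hf _ (hk t ht)
      have b2 : HasDerivAt (fun z : ℂ => μ * (z + b * z ^ 2 / 2)) (μ * (1 + b * ((t : ℂ) * d)))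
          ((t : ℂ) * d) := by
        have b3 := hasDerivAt_id ((t : ℂ) * d)
        have b4 := ((hasDerivAt_pow 2 ((t : ℂ) * d)).const_mul b).div_const 2
        refine ((b3.add b4).const_mul μ).congr_deriv ?_
        push_cast
        ring
      exact b1.sub b2)
    (fun t ht => by
      have hz := hk t ht
      have ht' : t * ‖d‖ = ‖(t : ℂ) * d‖ := by
        rw [norm_mul, Complex.norm_real, Real.norm_of_nonneg ht.1]
      rw [ht']
      set z := (t : ℂ) * d with hzd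
      have c1 := lamz_bound he he4 hμ hb hz
      rw [← hbd] at c1
      have c2 : ‖lamz e μ z‖ ≤ 433 / 100 * ‖z‖ := by
        have c3 := norm_add_le (lamz e μ z - b * z) (b * z)
        rw [sub_add_cancel, norm_mul] at c3
        have c4 := mul_le_mul_of_nonneg_right hb (norm_nonneg z)
        nlinarith [norm_nonneg z]
      have c3 : ‖lamz e μ z‖ ≤ 1 := by linarith
      have c4 := Complex.norm_exp_sub_one_sub_id_le c3
      have c5 : ‖lamz e μ z‖ ^ 2 ≤ (433 / 100 * ‖z‖) ^ 2 := pow_le_pow_left₀ (norm_nonneg _) c2 2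
      have e1 : μ * exp (lamz e μ z) - μ * (1 + b * z) =
          μ * ((exp (lamz e μ z) - 1 - lamz e μ z) + (lamz e μ z - b * z)) := by ring
      rw [e1, norm_mul]
      have c6 := (norm_add_le (exp (lamz e μ z) - 1 - lamz e μ z) (lamz e μ z - b * z)).trans
        (add_le_add (c4.trans c5) c1)
      have c7 : (433 / 100 * ‖z‖) ^ 2 + 41 / 2 * ‖z‖ ^ 2 ≤ 42 * ‖z‖ ^ 2 := by
        have := sq_nonneg ‖z‖
        nlinarith
      have := mul_le_mul_of_nonneg_left (c6.trans c7) (norm_nonneg μ)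
      linarith)
    1 (by simp)
  have e0 : nn e μ 0 = 1 := by unfold nn; simp
  simp only [ofReal_one, one_mul, e0, Complex.one_cpow, ne_eq, OfNat.ofNat_ne_zero,
    not_false_eq_true, zero_pow, mul_zero, zero_div, sub_zero, add_zero] at h
  have h2 : nn e μ d ^ (-((2 / e : ℝ) : ℂ)) - 1 =
      (nn e μ d ^ (-((2 / e : ℝ) : ℂ)) - μ * (d + b * d ^ 2 / 2) - 1) + μ * (d + b * d ^ 2 / 2) := by
    ring
  rw [h2]
  refine (norm_add_le _ _).trans ?_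
  have h3 : ‖μ * (d + b * d ^ 2 / 2)‖ ≤ ‖μ‖ * (‖d‖ + ‖b‖ * ‖d‖ ^ 2 / 2) := by
    rw [norm_mul]
    refine mul_le_mul_of_nonneg_left ((norm_add_le _ _).trans (le_of_eq ?_)) (norm_nonneg _)
    rw [norm_div, norm_mul, norm_pow, Complex.norm_ofNat]
  have h4 := add_le_add h h3
  refine h4.trans (le_of_eq ?_)
  norm_num
  ring

/-- the same with numbers -/
theorem nn_le (he : 1 ≤ e) (he4 : e ≤ 4) {μ d : ℂ} {mm be dd : ℝ} (hμ : ‖μ‖ ≤ mm) (hmm : mm ≤ 13 / 10)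
    (hb : ‖(e / 2 + 1 : ℂ) * μ - ((e : ℂ) - 1)‖ ≤ be) (hbe : be ≤ 33 / 10)
    (hd : ‖d‖ ≤ dd) (hdd : dd ≤ 5 / 100) :
    ‖nn e μ d ^ (-((2 / e : ℝ) : ℂ)) - 1‖ ≤ ‖μ‖ * ‖d‖ * (1 + be * dd / 2 + 14 * dd ^ 2) := by
  refine (nn_bound he he4 (hμ.trans hmm) (hb.trans hbe) (hd.trans hdd)).trans ?_
  refine mul_le_mul_of_nonneg_left ?_ (by positivity)
  have h1 := mul_le_mul hb hd (norm_nonneg _) ((norm_nonneg _).trans hb)
  have h2 := pow_le_pow_left₀ (norm_nonneg _) hd 2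
  linarith

end Pool.Agent.helper63.WG
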