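import Pool.Agent.helper63.WG.SpBase
import Pool.Agent.helper82.WH.PAD

namespace Pool.Agent.helper63.WG

open Complex Set Pool.Agent.helper31.EQ.W Pool.Agent.helper63.EQC Pool.Agent.helper82.WH
open Pool.Agent.helper31.IA (Z Op Asserts InBox)
open Pool.Agent.helper31.IC (CovD)

variable {H : HC} {B : BC} {e κ x : ℝ}

/-- **(T1)** -/
theorem pAD_of (he : 0 < e) (hyp : Asserts (pAD H B) [(e : ℂ), (κ : ℂ), (x : ℂ)]) :
    PAD e κ (headFn H e κ) (pp B κ x) ((B.tA : ℝ) / 2 ^ 40) ((B.tD : ℝ) / 2 ^ 40) := by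
  refine pAD_spec H B hyp _ ?_
  intro twe ek emk C om kk mp y0 z W0 u de dk Q v2 c1 h g r1 hk lch hp l0 t0 lw wi m lm ex s1 Gp zo z1
    W2 lw2 m2 lm2 ex2 mu1 mu2 g2 gp2 E1 G2 E
    e1 e2 e3 e4 e5 e6 e7 e8 e9 e10 e11 e12 e13 e14 e15 e16 e17 e18 e19 e20 e21 e22 e23 e24 e25 e26 e27
    e28 e29 e30 e31 e32 e33 e34 e35 e36 e37 e38 e39 e40 e41 e42 e43 e44 e45 e46 e47 e48 e49 e50 e51
    e52 e53 e54 e55 e56 e57 e58 e59
  have hmp : mp = -(pp B κ x) := by rw [e8, e7, pp, neg_neg]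
  obtain ⟨b1, b2, b3, b4, b5, b6, b7, b8, b9, b10⟩ :=
    head_vals (H := H) e3 e4 e5 e7 hmp e9 e10 e11 e12 e13 e14 e15 e16 e17 e18 e19 e20
  have hPK : PK e κ C (C - emk) om twe lch := PK.of he b1 e4 rfl e6 e2 e21 e23
  obtain ⟨c_m, c_G, c_s, c_Gp, c_zo, c_z1, c_W2, c_mu, c_z0⟩ :=
    L1 hPK (p := pp B κ x) hmp e9 e24 e25 e26 e27 e37 e28 e29 e31 e32 e33 e34 e35 e36 e38 e39 e40
  obtain ⟨d_m, d_G, d_g, d_mu⟩ := L2 hPK e41 e42 e43 e44 e45 e46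
  obtain ⟨f1, -, -⟩ := hPK.Gp (p := pp B κ x) hmp e9 e24 e25 e26 e27 e37
  have hz1 : z1 = (Real.cosh κ : ℂ) - Y1B e κ (pp B κ x) c1 := by rw [c_z1, b1]
  have hE0 := E0_prog (κ := κ) (p := pp B κ x) e28 c_s e31 hz1 (g2 := G2) (by rw [e56, d_G, c_W2])
  have hE1 := E1_prog (κ := κ) (p := pp B κ x) (mu1 := mu1) (gp2 := gp2) c_s e31 c_zo
    (by rw [e48, c_mu]) (by rw [e52, e51, d_g, e50, d_mu, c_W2])
  rw [← e57] at hE0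
  rw [← e53] at hE1
  rw [c_m] at e33
  rw [d_m, c_W2] at e44
  rw [c_W2] at e41
  rw [b7] at e28 e33 e41 e44 hE0 hE1
  refine ⟨f1, ?_, ⟨e28, e33, e41, e44⟩, ?_, ?_⟩
  · rw [← b8, ← b10]; exact e58
  · rw [← hE0, ← b8, ← b10]; exact e59
  · rw [← hE1, ← b8]; exact e55

end Pool.Agent.helper63.WG
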