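import Pool.Agent.helper63.WG.SpBase
import Pool.Agent.helper63.WG.Cover
import Pool.Agent.helper82.WH.PH
import Pool.Agent.helper82.WH.PK0
import Pool.Agent.helper82.WH.PK1
import Pool.Agent.helper82.WH.PX0
import Pool.Agent.helper82.WH.PX1

namespace Pool.Agent.helper63.WG

open Complex Set Pool.Agent.helper31.EQ.W Pool.Agent.helper63.EQC Pool.Agent.helper82.WH
open Pool.Agent.helper31.IA (Z Op Asserts InBox)
open Pool.Agent.helper31.IC (CovD)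

variable {H : HC} {B : BC} {e κ x : ℝ}

/-- **(T6)** -/
theorem pH_of (he : 0 < e) (hyp : Asserts (pH H B) [(e : ℂ), (κ : ℂ), (x : ℂ)]) :
    PH H e κ (pp B κ x) := by
  refine pH_spec H B hyp _ ?_
  intro twe ek emk C om kk mp y0 z W0 u de dk Q v2 c1 h g r1 hk lch hp l0 t0 bb
    e1 e2 e3 e4 e5 e6 e7 e8 e9 e10 e11 e12 e13 e14 e15 e16 e17 e18 e19 e20 e21 e22 e23 e24 e25 e26 e27
    e28 e29 e30 e31 e32 e33
  have hmp : mp = -(pp B κ x) := by rw [e8, e7, pp, neg_neg]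
  obtain ⟨b1, b2, b3, b4, b5, b6, b7, b8, b9, b10⟩ :=
    head_vals (H := H) e3 e4 e5 e7 hmp e9 e10 e11 e12 e13 e14 e15 e16 e17 e18 e19 e20
  have b8' : h = hh H e κ (hz κ (pp B κ x)) := b8
  refine ⟨?_, ?_, ?_⟩
  · rw [← b2, ← b5, ← b3, ← b9, ← b3, ← b6] at *
    refine e29.trans_le ?_
    norm_num
  · rw [← b9]
    refine e30.trans_le ?_
    norm_num
  · have : (1 + ((e / 2 : ℝ) : ℂ) * hz κ (pp B κ x)) = bb := by
      rw [e31, b3]; push_cast; ring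
    rw [this, ← b4, ← b8']
    refine e33.trans_le ?_
    norm_num

/-- the condition of the programs K -/
def KC (H : HC) (κ : ℝ) (p : ℂ) : Prop := 0 < ((H.s2.r : ℂ) - hu κ p * 2).re

theorem pK0_of (hyp : Asserts (pK0 H B) [(e : ℂ), (κ : ℂ), (x : ℂ)]) : KC H κ (pp B κ x) := by
  refine pK0_spec H B hyp _ ?_
  intro C kk mp u e1 e2 e3 e4 e5
  have hmp : mp = -(pp B κ x) := by rw [e3, e2, pp, neg_neg]
  have : u = hu κ (pp B κ x) := by
    rw [e4, e1, cosh_prog, hmp, neg_neg]; rfl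
  unfold KC
  rw [← this]; exact e5

theorem pK1_of {X : ℂ} (hyp : Asserts (pK1 H B) [(e : ℂ), (κ : ℂ), (x : ℂ), X]) :
    KC H κ (pp B κ x) := by
  refine pK1_spec H B hyp _ ?_
  intro C kk mp u e1 e2 e3 e4 e5
  have hmp : mp = -(pp B κ x) := by rw [e3, e2, pp, neg_neg]
  have : u = hu κ (pp B κ x) := by
    rw [e4, e1, cosh_prog, hmp, neg_neg]; rfl
  unfold KC
  rw [← this]; exact e5

theorem pX0_of (he : 0 < e) (hyp : Asserts pX0 [(e : ℂ), (κ : ℂ), (x : ℂ)]) :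
    (4 : ℝ) ^ (1 / e) - 1 < fk e κ := by
  refine pX0_spec hyp _ ?_
  intro twe hk lch om e1 e2 e3 e4 e5 e6 e7 e8
  have hPK : PK e κ (Real.cosh κ : ℂ) ((Real.cosh κ : ℂ) - exp (-(κ : ℂ))) om twe lch :=
    PK.of he rfl rfl rfl (by rw [e6, cosh_prog]) e2 e3 e5
  exact fk_prog hPK e8

theorem pX1_of (he : 0 < e) {X : ℂ} (hyp : Asserts pX1 [(e : ℂ), (κ : ℂ), (x : ℂ), X]) :
    (4 : ℝ) ^ (1 / e) - 1 < fk e κ := by
  refine pX1_spec hyp _ ?_
  intro twe hk lch om e1 e2 e3 e4 e5 e6 e7 e8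
  have hPK : PK e κ (Real.cosh κ : ℂ) ((Real.cosh κ : ℂ) - exp (-(κ : ℂ))) om twe lch :=
    PK.of he rfl rfl rfl (by rw [e6, cosh_prog]) e2 e3 e5
  exact fk_prog hPK e8

/-- **(T7)** the top of a column -/
theorem top_of {b1 b2 b3 : ℕ × ℕ} (h : CovD 0 [pX0] [b1, b2, b3]) (he : 0 < e)
    (hx : In3 b1 b2 b3 e κ x) : (4 : ℝ) ^ (1 / e) - 1 < fk e κ := by
  obtain ⟨ops, ho, ha⟩ := covD0 h hx
  rw [List.mem_singleton] at ho
  subst ho
  exact pX0_of he ha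

end Pool.Agent.helper63.WG
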