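import Pool.Agent.helper63.WG.SpBase
import Pool.Agent.helper82.WH.PRS

namespace Pool.Agent.helper63.WG

open Complex Set Pool.Agent.helper31.EQ.W Pool.Agent.helper63.EQC Pool.Agent.helper82.WH
open Pool.Agent.helper31.IA (Z Op Asserts InBox)
open Pool.Agent.helper31.IC (CovD)

variable {H : HC} {B : BC} {e κ x : ℝ}

/-- **(T4)** -/
theorem pRS_of (he : 0 < e) (hκ : 0 < κ) {y : ℝ} (hy : pp B κ x = (y : ℂ))
    (hyp : ∀ X : ℂ, ‖X‖ ≤ 1 → Asserts (pRS H B) [(e : ℂ), (κ : ℂ), (x : ℂ), X]) :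
    RS e κ (headFn H e κ) (y : ℂ) := by
  obtain ⟨C, hC⟩ : ∃ C : ℂ, C = (exp (κ : ℂ) + exp (-(κ : ℂ))) * (1 / 2) := ⟨_, rfl⟩
  obtain ⟨hk, hhk⟩ : ∃ v : ℂ, v = ((e : ℂ) * κ) * (1 / 2) := ⟨_, rfl⟩
  obtain ⟨lch, hlch⟩ : ∃ v : ℂ, v = log ((exp hk + exp (-hk)) * (1 / 2)) := ⟨_, rfl⟩
  obtain ⟨mp, hmp⟩ : ∃ v : ℂ, v = -(y : ℂ) := ⟨_, rfl⟩
  obtain ⟨hp, hhp⟩ : ∃ v : ℂ, v = ((e : ℂ) * mp) * (1 / 2) := ⟨_, rfl⟩
  obtain ⟨l0, hl0⟩ : ∃ v : ℂ, v = log ((exp hp + exp (-hp)) * (1 / 2)) := ⟨_, rfl⟩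
  obtain ⟨t0, ht0⟩ : ∃ v : ℂ, v = ((e : ℂ)⁻¹ * 2) * (lch - l0) := ⟨_, rfl⟩
  have hC' : C = (Real.cosh κ : ℂ) := by rw [hC, cosh_prog]
  have hPK0 : PK e κ C (C - exp (-(κ : ℂ))) (C - 1) ((e : ℂ)⁻¹ * 2) lch :=
    PK.of he hC' rfl rfl rfl rfl hhk hlch
  have hs : (exp hp + exp (-hp)) * (1 / 2) ∈ slitPlane := by
    refine pRS_spec H B (hyp 0 (by simp)) _ ?_
    intro twe ek emk C om kk mp' y0 z W0 u de dk Q v2 c1 h g r1 hk lch hp' l0 t0 w lw m lm z0 rhs ept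
      e1 e2 e3 e4 e5 e6 e7 e8 e9 e10 e11 e12 e13 e14 e15 e16 e17 e18 e19 e20 e21 e22 e23 e24 e25
    intros
    have h1 : mp' = mp := by rw [hmp, ← hy, e8, e7, pp, neg_neg]
    have h2 : hp' = hp := by rw [hhp, e24, h1]
    rw [← h2]; exact e25
  refine L5 hκ hPK0 (y := y) hmp rfl hhp hs hl0 ht0 ?_
  intro X hX
  refine pRS_spec H B (hyp X hX) _ ?_
  intro twe ek emk C' om kk mp' y0 z W0 u de dk Q v2 c1 h g r1 hk' lch' hp' l0' t0' w lw m lm z0 rhs ept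
    e1 e2 e3 e4 e5 e6 e7 e8 e9 e10 e11 e12 e13 e14 e15 e16 e17 e18 e19 e20 e21 e22 e23 e24 e25 e26 e27
    ew e28 e29 e32 e33 e34 ez0 erhs eept ene efin
  have hmp' : mp' = -(pp B κ x) := by rw [e8, e7, pp, neg_neg]
  have k1 : mp' = mp := by rw [hmp, ← hy, hmp']
  have k2 : hp' = hp := by rw [hhp, e24, k1]
  have k3 : hk' = hk := by rw [hhk, e21]
  have k4 : lch' = lch := by rw [hlch, e23, k3]
  have k5 : t0' = t0 := by rw [ht0, e27, e2, k4, e26, k2, hl0]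
  obtain ⟨b1, b2, b3, b4, b5, b6, b7, b8, b9, b10⟩ :=
    head_vals (H := H) e3 e4 e5 e7 hmp' e9 e10 e11 e12 e13 e14 e15 e16 e17 e18 e19 e20
  have hPK : PK e κ C' (C' - emk) om twe lch' := PK.of he b1 e4 rfl e6 e2 e21 e23
  obtain ⟨c_m, c_G, c_s, c_Gp, c_zo, c_z1, c_W2, c_mu, c_z0⟩ :=
    L1 hPK (p := pp B κ x) hmp' e9 e24 e25 e26 e27 rfl e28 e29 rfl e32 e33 e34 rfl rfl rfl rfl rfl
  have hw : (headFn H e κ).c1 (y : ℂ) + (headFn H e κ).r1 (y : ℂ) * X = w := by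
    rw [ew, b7, b10, hy]
  rw [hw, ← hy, c_z0]
  have h6 : C - 1 = om := by rw [e6, b1, hC']
  rw [h6, ← k1, ← k5, ← eept]
  have h7 : exp ((κ : ℂ) * (1 / 2)) - exp (-((κ : ℂ) * (1 / 2))) = rhs := erhs.symm
  rw [h7, ← ez0]
  exact efin

end Pool.Agent.helper63.WG
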