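import Pool.Agent.helper63.WG.SpBase
import Pool.Agent.helper82.WH.PRT

namespace Pool.Agent.helper63.WG

open Complex Set Pool.Agent.helper31.EQ.W Pool.Agent.helper63.EQC Pool.Agent.helper82.WH
open Pool.Agent.helper31.IA (Z Op Asserts InBox)
open Pool.Agent.helper31.IC (CovD)
open Pool.Agent.helper4.EQW (KK rT nx gK v2 G1 f0)

variable {H : HC} {B : BC} {e κ x : ℝ}

/-- what program RT says at one `w` -/
structure RT1 (e κ : ℝ) (H : HeadFn) (p w : ℂ) (V tT dd be mm : ℝ) : Prop where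
  dom : Dom e κ p w
  w_norm : 1 < ‖w‖
  reg : ‖nx κ (Y1B e κ p w) - ((Real.exp (-κ) : ℝ) : ℂ)‖ <
    Real.exp (-(4 * κ)) * ‖nx κ (Y1B e κ p w) - ((Real.exp κ : ℝ) : ℂ)‖
  v : ‖v2 κ (nx κ (Y1B e κ p w))‖ < V
  Y_ne : Y1B e κ p w ≠ ((Real.exp (-κ) : ℝ) : ℂ)
  T : ‖rT e κ (Y1B e κ p w) * (GG e κ (W2 e κ p w) * mu e (W2 e κ p w)) *
      (H.h p * H.r1 p)⁻¹‖ < tT
  d : ‖rT e κ (Y1B e κ p w)‖ < dd
  b : ‖(e / 2 + 1) * mu e (W2 e κ p w) - (e - 1)‖ < be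
  m : ‖mu e (W2 e κ p w)‖ < mm

/-- **(T3)** at one `X` -/
theorem pRT_one (he : 0 < e) (hκ : 0 < κ) {X : ℂ}
    (hyp : Asserts (pRT H B) [(e : ℂ), (κ : ℂ), (x : ℂ), X]) :
    RT1 e κ (headFn H e κ) (pp B κ x)
      ((headFn H e κ).c1 (pp B κ x) + (headFn H e κ).r1 (pp B κ x) * X)
      ((B.V : ℝ) / 2 ^ 40) ((B.tT : ℝ) / 2 ^ 40) ((B.dd : ℝ) / 2 ^ 40) ((B.be2 : ℝ) / 2 ^ 40)
      ((B.mu : ℝ) / 2 ^ 40) := by
  refine pRT_spec H B hyp _ ?_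
  intro twe ek emk C om kk mp y0 z W0 u de dk Q v2v c1 h g r1 hk lch hp l0 t0 w lw wi m lm ex s1 Gp zo z1
    W2v S lw2 m2 lm2 mu2 ech K q T ph
    e1 e2 e3 e4 e5 e6 e7 e8 e9 e10 e11 e12 e13 e14 e15 e16 e17 e18 e19 e20 e21 e22 e23 e24 e25 e26 e27
    ew e28 e29 e30 e31 e32 e33 e34 e35 e36 e37 e38 e39 e40 e41 e42 e43 e44 e45 e46 e47 e48 e49 e50 e51
    e52 e53 e54 e55 e56 e57 e58 e59 e60 e61 e62 e63
  have hmp : mp = -(pp B κ x) := by rw [e8, e7, pp, neg_neg]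
  obtain ⟨b1, b2, b3, b4, b5, b6, b7, b8, b9, b10⟩ :=
    head_vals (H := H) e3 e4 e5 e7 hmp e9 e10 e11 e12 e13 e14 e15 e16 e17 e18 e19 e20
  have hPK : PK e κ C S om twe lch := PK.of he b1 e4 e43 e6 e2 e21 e23
  obtain ⟨c_m, c_G, c_s, c_Gp, c_zo, c_z1, c_W2, c_mu, c_z0⟩ :=
    L1 hPK (p := pp B κ x) hmp e9 e24 e25 e26 e27 e37 e28 e29 e31 e32 e33 e34 e35 e36 e38 e39 e40
  obtain ⟨d_m, d_G, d_g, d_mu⟩ := L2 hPK e44 e45 e49 e50 e51 rfl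
  have hz1 : z1 = (Real.cosh κ : ℂ) - Y1B e κ (pp B κ x) w := by rw [c_z1, b1]
  have hWd : W2v = 2 * (Real.cosh κ : ℂ) - Y1B e κ (pp B κ x) w := c_W2
  have hW0 := slitPlane_ne_zero e44
  have hWne : 2 * (Real.cosh κ : ℂ) - Y1B e κ (pp B κ x) w ≠ 0 := by rw [← hWd]; exact hW0
  have hS : S = (Real.sinh κ : ℂ) := hPK.S_eq
  have r1' := L3_reg hκ b1 c_z1 hWne e42
  have r2' := L3_v2 (κ := κ) hS hz1 hWd hW0 e45
  have r3' := L3_ne (κ := κ) hS hz1 e47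
  have hK := L4_K (κ := κ) hPK.lch_eq e56 e57
  obtain ⟨t1, t2⟩ := L4 hPK c_z1 hWd e44 e45 e49 e50 e51 e4 hK e58
  have hph : ‖ph‖ = 1 := by
    rw [e62]
    have : (x : ℂ) * ((B.pa.r : ℂ) * I) + (κ : ℂ) * ((B.pb.r : ℂ) * I) =
        ((x * B.pa.r + κ * B.pb.r : ℝ) : ℂ) * I := by push_cast; ring
    rw [this, Complex.norm_exp_ofReal_mul_I]
  rw [c_m] at e33
  rw [d_m, c_W2] at e50
  rw [c_W2] at e44
  have hw : (headFn H e κ).c1 (pp B κ x) + (headFn H e κ).r1 (pp B κ x) * X = w := by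
    rw [ew, b7, b10]
  rw [hw]
  refine ⟨⟨e28, e33, e44, e50⟩, ?_, r1', ?_, r3', ?_, ?_, ?_, ?_⟩
  · rw [e31, norm_inv] at e41
    exact (inv_lt_one₀ (norm_pos_iff.2 e30)).1 e41
  · rw [r2']; exact e48
  · rw [← c_W2, t2, ← e60, ← b8, ← b10]
    rw [norm_mul, hph, mul_one] at e63
    exact e63
  · rw [t1]; exact e59
  · rw [← c_W2, ← d_mu, ← e53]
    have : ((e : ℂ) / 2 + 1) * mu2 - (e - 1) = (((e : ℂ) * (1 / 2)) + 1) * mu2 - (e - 1) := by ring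
    rw [this]; exact e54
  · rw [← c_W2, ← d_mu, ← e53]; exact e55

end Pool.Agent.helper63.WG
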