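import Pool.Agent.helper63.WG.SpAD
import Pool.Agent.helper63.WG.SpG
import Pool.Agent.helper63.WG.SpRT
import Pool.Agent.helper63.WG.SpRS
import Pool.Agent.helper63.WG.SpTT
import Pool.Agent.helper63.WG.SpH

/-!
# W head: certificates of a piece give `PB`
-/

namespace Pool.Agent.helper63.WG

open Complex Set Pool.Agent.helper31.EQ.W Pool.Agent.helper63.EQC Pool.Agent.helper82.WH
open Pool.Agent.helper31.IA (Z Op Asserts InBox)
open Pool.Agent.helper31.IC (CovD)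

variable {H : HC} {B : BC} {e κ x : ℝ} {m : ℕ} {b1 b2 b3 : ℕ × ℕ}

/-- second program of a list: mode `0` none, mode `1` the corner program, mode `2` the top program -/
def two (a b c : List Op) : ℕ → List (List Op)
  | 0 => [a]
  | 1 => [a, b]
  | _ => [a, c]

/-- what the second program says -/
def Esc (m : ℕ) (H : HC) (e κ : ℝ) (p : ℂ) : Prop :=
  (m = 1 ∧ KC H κ p) ∨ (1 < m ∧ (4 : ℝ) ^ (1 / e) - 1 < fk e κ)

theorem two0 {a : List Op} (h : CovD 0 (two a (pK0 H B) pX0 m) [b1, b2, b3]) (he : 0 < e)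
    (hx : In3 b1 b2 b3 e κ x) (hE : ¬ Esc m H e κ (pp B κ x)) :
    Asserts a [(e : ℂ), (κ : ℂ), (x : ℂ)] := by
  obtain ⟨ops, ho, ha⟩ := covD0 h hx
  rcases m with _ | _ | m
  · rw [two, List.mem_singleton] at ho
    rwa [ho] at ha
  · rw [two, List.mem_cons, List.mem_singleton] at ho
    rcases ho with ho | ho
    · rwa [ho] at ha
    · rw [ho] at ha
      exact absurd (Or.inl ⟨rfl, pK0_of ha⟩) hE
  · rw [two, List.mem_cons, List.mem_singleton] at ho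
    · rcases ho with ho | ho
      · rwa [ho] at ha
      · rw [ho] at ha
        exact absurd (Or.inr ⟨by omega, pX0_of he ha⟩) hE
    · omega
    · omega

theorem two1 {a : List Op} (h : CovD 1 (two a (pK1 H B) pX1 m) [b1, b2, b3]) (he : 0 < e)
    (hx : In3 b1 b2 b3 e κ x) (hE : ¬ Esc m H e κ (pp B κ x)) {X : ℂ} (hX : ‖X‖ ≤ 1) :
    Asserts a [(e : ℂ), (κ : ℂ), (x : ℂ), X] := by
  obtain ⟨ops, ho, ha⟩ := covD1 h hx hX
  rcases m with _ | _ | m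
  · rw [two, List.mem_singleton] at ho
    rwa [ho] at ha
  · rw [two, List.mem_cons, List.mem_singleton] at ho
    rcases ho with ho | ho
    · rwa [ho] at ha
    · rw [ho] at ha
      exact absurd (Or.inl ⟨rfl, pK1_of ha⟩) hE
  · rw [two, List.mem_cons, List.mem_singleton] at ho
    · rcases ho with ho | ho
      · rwa [ho] at ha
      · rw [ho] at ha
        exact absurd (Or.inr ⟨by omega, pX1_of he ha⟩) hE
    · omega
    · omega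

/-- the numbers of a piece -/
noncomputable def bn (B : BC) : BN where
  tA := (B.tA : ℝ) / 2 ^ 40
  tD := (B.tD : ℝ) / 2 ^ 40
  tG := (B.tG : ℝ) / 2 ^ 40
  tT := (B.tT : ℝ) / 2 ^ 40
  V := (B.V : ℝ) / 2 ^ 40
  dd := (B.dd : ℝ) / 2 ^ 40
  be := (B.be2 : ℝ) / 2 ^ 40
  mm := (B.mu : ℝ) / 2 ^ 40

/-- the certificates of a piece -/
structure PCov (m : ℕ) (H : HC) (B : BC) (b1 b2 b3 : ℕ × ℕ) : Prop where
  ad : CovD 0 (two (pAD H B) (pK0 H B) pX0 m) [b1, b2, b3]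
  g : CovD 1 (two (pG H B) (pK1 H B) pX1 m) [b1, b2, b3]
  rt : CovD 1 (two (pRT H B) (pK1 H B) pX1 m) [b1, b2, b3]

theorem PCov.pb (h : PCov m H B b1 b2 b3) (he : 0 < e) (hκ : 0 < κ) (hx : In3 b1 b2 b3 e κ x)
    (hE : ¬ Esc m H e κ (pp B κ x)) : PB e κ (headFn H e κ) (bn B) (pp B κ x) := by
  have h1 := fun (X : ℂ) (hX : ‖X‖ ≤ 1) => pG_one he (two1 h.g he hx hE hX)
  have h2 := fun (X : ℂ) (hX : ‖X‖ ≤ 1) => pRT_one he hκ (two1 h.rt he hx hE hX)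
  refine ⟨pAD_of he (two0 h.ad he hx hE), ⟨fun X hX => (h1 X hX).1, fun X hX => (h1 X hX).2⟩, ?_⟩
  refine ⟨fun X hX => (h2 X hX).dom, fun X hX => (h2 X hX).w_norm, ?_, fun X hX => (h2 X hX).Y_ne,
    ?_, fun X hX => (h2 X hX).d, ?_, fun X hX => (h2 X hX).m⟩
  · intro X hX P hP
    rw [hP]
    exact ⟨(h2 X hX).reg, (h2 X hX).v⟩
  · intro X hX w hw
    rw [hw]
    exact (h2 X hX).T
  · intro X hX w hw
    rw [hw]
    exact (h2 X hX).b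

/-! ### numbers -/

/-- `2^40` -/
def U40 : ℕ := 1099511627776

theorem U40_eq : ((U40 : ℕ) : ℝ) = 2 ^ 40 := by norm_num [U40]

/-- `2 D² fac` -/
def facN (B : BC) : ℕ := 2 * (U40 * U40) + B.be2 * B.dd + 28 * (B.dd * B.dd)

theorem fac_eq (B : BC) : (bn B).fac = (facN B : ℝ) / (2 * (U40 : ℝ) ^ 2) := by
  have h : (0 : ℝ) < U40 := by rw [U40_eq]; positivity
  unfold BN.fac bn facN
  simp only
  rw [← U40_eq]
  push_cast
  field_simp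
  ring

/-- the check of `Ok` -/
def okN (B : BC) (V0 θ : ℕ) : Bool :=
  Nat.ble B.V V0 && Nat.ble (20 * B.dd) U40 && Nat.ble (10 * B.be2) (33 * U40) &&
    Nat.ble (10 * B.mu) (13 * U40) &&
    Nat.ble (2 * (U40 * U40) * (B.tA + B.tD + B.tG) + B.tT * facN B) (2 * (U40 * U40) * θ)

theorem okN_ok {V0 θ : ℕ} (h : okN B V0 θ = true) :
    (bn B).Ok ((V0 : ℝ) / 2 ^ 40) ((θ : ℝ) / 2 ^ 40) := by
  unfold okN at h
  rw [Bool.and_eq_true, Bool.and_eq_true, Bool.and_eq_true, Bool.and_eq_true] at h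
  obtain ⟨⟨⟨⟨h1, h2⟩, h3⟩, h4⟩, h5⟩ := h
  have h1' : (B.V : ℝ) ≤ V0 := by exact_mod_cast Nat.le_of_ble_eq_true h1
  have h2' : 20 * (B.dd : ℝ) ≤ U40 := by exact_mod_cast Nat.le_of_ble_eq_true h2
  have h3' : 10 * (B.be2 : ℝ) ≤ 33 * U40 := by exact_mod_cast Nat.le_of_ble_eq_true h3
  have h4' : 10 * (B.mu : ℝ) ≤ 13 * U40 := by exact_mod_cast Nat.le_of_ble_eq_true h4
  have h5' : 2 * ((U40 : ℝ) * U40) * (B.tA + B.tD + B.tG) + B.tT * facN B ≤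
      2 * ((U40 : ℝ) * U40) * θ := by exact_mod_cast Nat.le_of_ble_eq_true h5
  have hU : (0 : ℝ) < U40 := by rw [U40_eq]; positivity
  refine ⟨?_, ?_, ?_, ?_, ?_⟩
  · show (B.V : ℝ) / 2 ^ 40 ≤ (V0 : ℝ) / 2 ^ 40
    exact div_le_div_of_nonneg_right h1' (by positivity)
  · show (B.dd : ℝ) / 2 ^ 40 ≤ 5 / 100
    rw [← U40_eq, div_le_iff₀ hU]; linarith
  · show (B.be2 : ℝ) / 2 ^ 40 ≤ 33 / 10
    rw [← U40_eq, div_le_iff₀ hU]; linarith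
  · show (B.mu : ℝ) / 2 ^ 40 ≤ 13 / 10
    rw [← U40_eq, div_le_iff₀ hU]; linarith
  · rw [fac_eq]
    show (B.tA : ℝ) / 2 ^ 40 + (B.tD : ℝ) / 2 ^ 40 + (B.tG : ℝ) / 2 ^ 40 +
      (B.tT : ℝ) / 2 ^ 40 * ((facN B : ℝ) / (2 * (U40 : ℝ) ^ 2)) ≤ (θ : ℝ) / 2 ^ 40
    rw [← U40_eq, le_div_iff₀ hU]
    have e1 : ((B.tA : ℝ) / U40 + (B.tD : ℝ) / U40 + (B.tG : ℝ) / U40 +
      (B.tT : ℝ) / U40 * ((facN B : ℝ) / (2 * (U40 : ℝ) ^ 2))) * U40 =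
      (2 * ((U40 : ℝ) * U40) * (B.tA + B.tD + B.tG) + B.tT * facN B) / (2 * ((U40 : ℝ) * U40)) := by
      field_simp
    rw [e1, div_le_iff₀ (by positivity)]
    linarith

/-- the check of `OkT`; `θ1 = t1/5` -/
def okTN (B : BC) (V0 θ t1 lam : ℕ) : Bool :=
  okN B V0 θ &&
    Nat.ble (10 * (U40 * U40) * B.tA + B.tT * facN B * t1)
      (10 * U40 * lam * (U40 - (B.tD + B.tG))) &&
    Nat.ble (10 * (B.tD * U40 + B.tG * lam) * lam + B.tT * facN B * t1)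
      (10 * (U40 * U40) * B.rho.a) &&
    Nat.ble (B.tD + B.tG + 1) U40 && Nat.beq B.rho.b 0

theorem okTN_ok {V0 θ t1 lam : ℕ} (h : okTN B V0 θ t1 lam = true) :
    (bn B).OkT ((V0 : ℝ) / 2 ^ 40) ((θ : ℝ) / 2 ^ 40) ((t1 : ℝ) / 5) ((lam : ℝ) / 2 ^ 40)
      B.rho.r := by
  unfold okTN at h
  rw [Bool.and_eq_true, Bool.and_eq_true, Bool.and_eq_true, Bool.and_eq_true] at h
  obtain ⟨⟨⟨⟨h1, h2⟩, h3⟩, h4⟩, h5⟩ := h
  have h4n : B.tD + B.tG + 1 ≤ U40 := Nat.le_of_ble_eq_true h4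
  have h4' : (B.tD : ℝ) + B.tG + 1 ≤ U40 := by exact_mod_cast h4n
  have h2n := Nat.le_of_ble_eq_true h2
  have h2' : 10 * ((U40 : ℝ) * U40) * B.tA + B.tT * facN B * t1 ≤
      10 * U40 * lam * (U40 - (B.tD + B.tG)) := by
    have : ((U40 - (B.tD + B.tG) : ℕ) : ℝ) = (U40 : ℝ) - (B.tD + B.tG) := by
      rw [Nat.cast_sub (by omega)]; push_cast; ring
    rw [← this]
    exact_mod_cast h2n
  have h3' : 10 * ((B.tD : ℝ) * U40 + B.tG * lam) * lam + B.tT * facN B * t1 ≤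
      10 * ((U40 : ℝ) * U40) * B.rho.a := by exact_mod_cast Nat.le_of_ble_eq_true h3
  have h5' : B.rho.b = 0 := Nat.eq_of_beq_eq_true h5
  have hU : (0 : ℝ) < U40 := by rw [U40_eq]; positivity
  have hr : B.rho.r = (B.rho.a : ℝ) / U40 := by
    rw [RC.r, h5', U40_eq]; push_cast; ring
  refine ⟨okN_ok h1, ?_, ?_, ?_⟩
  · rw [fac_eq]
    show (B.tA : ℝ) / 2 ^ 40 + (B.tT : ℝ) / 2 ^ 40 * ((facN B : ℝ) / (2 * (U40 : ℝ) ^ 2)) *
      ((t1 : ℝ) / 5) ≤ (lam : ℝ) / 2 ^ 40 * (1 - (B.tD : ℝ) / 2 ^ 40 - (B.tG : ℝ) / 2 ^ 40)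
    rw [← U40_eq]
    have e1 : (B.tA : ℝ) / U40 + (B.tT : ℝ) / U40 * ((facN B : ℝ) / (2 * (U40 : ℝ) ^ 2)) *
      ((t1 : ℝ) / 5) = (10 * ((U40 : ℝ) * U40) * B.tA + B.tT * facN B * t1) /
        (10 * (U40 : ℝ) ^ 3) := by field_simp; ring
    have e2 : (lam : ℝ) / U40 * (1 - (B.tD : ℝ) / U40 - (B.tG : ℝ) / U40) =
      (10 * U40 * lam * (U40 - (B.tD + B.tG))) / (10 * (U40 : ℝ) ^ 3) := by field_simp; ring
    rw [e1, e2]
    exact div_le_div_of_nonneg_right h2' (by positivity)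
  · rw [fac_eq, hr]
    show ((B.tD : ℝ) / 2 ^ 40 + (B.tG : ℝ) / 2 ^ 40 * ((lam : ℝ) / 2 ^ 40)) *
      ((lam : ℝ) / 2 ^ 40) + (B.tT : ℝ) / 2 ^ 40 * ((facN B : ℝ) / (2 * (U40 : ℝ) ^ 2)) *
      ((t1 : ℝ) / 5) ≤ (B.rho.a : ℝ) / U40
    rw [← U40_eq]
    have e1 : ((B.tD : ℝ) / U40 + (B.tG : ℝ) / U40 * ((lam : ℝ) / U40)) * ((lam : ℝ) / U40) +
      (B.tT : ℝ) / U40 * ((facN B : ℝ) / (2 * (U40 : ℝ) ^ 2)) * ((t1 : ℝ) / 5) =
      (10 * ((B.tD : ℝ) * U40 + B.tG * lam) * lam + B.tT * facN B * t1) /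
        (10 * (U40 : ℝ) ^ 3) := by field_simp; ring
    have e2 : (B.rho.a : ℝ) / U40 = (10 * ((U40 : ℝ) * U40) * B.rho.a) / (10 * (U40 : ℝ) ^ 3) := by
      field_simp
    rw [e1, e2]
    exact div_le_div_of_nonneg_right h3' (by positivity)
  · show (B.tD : ℝ) / 2 ^ 40 + (B.tG : ℝ) / 2 ^ 40 < 1
    rw [← U40_eq, ← add_div, div_lt_one hU]
    linarith

end Pool.Agent.helper63.WG
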