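import Pool.Agent.helper63.WG.HBHead
import Pool.Agent.helper82.WH.Const

/-!
# W head: from the specs of the programs to the semantic statements, common part
-/

namespace Pool.Agent.helper63.WG

open Complex Set Pool.Agent.helper31.EQ.W Pool.Agent.helper63.EQC Pool.Agent.helper82.WH
open Pool.Agent.helper31.IA (Z Op Asserts InBox)
open Pool.Agent.helper31.IC (CovD)

variable {H : HC} {B : BC} {e κ x : ℝ}

/-- the start parameter of a piece -/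
noncomputable def pp (B : BC) (κ x : ℝ) : ℂ :=
  -(((κ : ℂ) * κ * (B.B0.r : ℂ) + B.A0.val) * ((B.D0.r : ℂ) - x))

/-- a point of a box -/
def In3 (b1 b2 b3 : ℕ × ℕ) (e κ x : ℝ) : Prop :=
  |e - (b1.1 : ℝ) / 2 ^ 40| ≤ (b1.2 : ℝ) / 2 ^ 40 ∧ |κ - (b2.1 : ℝ) / 2 ^ 40| ≤ (b2.2 : ℝ) / 2 ^ 40 ∧
    |x - (b3.1 : ℝ) / 2 ^ 40| ≤ (b3.2 : ℝ) / 2 ^ 40

theorem In3.box {b1 b2 b3 : ℕ × ℕ} (h : In3 b1 b2 b3 e κ x) : InBox [b1, b2, b3] [e, κ, x] :=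
  List.Forall₂.cons h.1 (List.Forall₂.cons h.2.1 (List.Forall₂.cons h.2.2 List.Forall₂.nil))

theorem covD0 {b1 b2 b3 : ℕ × ℕ} {progs : List (List Op)} (h : CovD 0 progs [b1, b2, b3])
    (hx : In3 b1 b2 b3 e κ x) : ∃ ops ∈ progs, Asserts ops [(e : ℂ), (κ : ℂ), (x : ℂ)] := by
  have := h [e, κ, x] [] hx.box rfl (by simp)
  simpa using this

theorem covD1 {b1 b2 b3 : ℕ × ℕ} {progs : List (List Op)} (h : CovD 1 progs [b1, b2, b3])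
    (hx : In3 b1 b2 b3 e κ x) {X : ℂ} (hX : ‖X‖ ≤ 1) :
    ∃ ops ∈ progs, Asserts ops [(e : ℂ), (κ : ℂ), (x : ℂ), X] := by
  have := h [e, κ, x] [X] hx.box rfl (by simpa using hX)
  simpa using this

/-- the values of the head -/
theorem head_vals {p ek emk C mp y0 z W0 u de dk kk Q v2 c1 h g r1 : ℂ}
    (q1 : ek = exp (κ : ℂ)) (q2 : emk = exp (-(κ : ℂ))) (q3 : C = (ek + emk) * (1 / 2))
    (q4 : kk = (κ : ℂ) * κ) (q5 : mp = -p) (q6 : y0 = exp mp) (q7 : z = C - y0)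
    (q8 : W0 = C + z) (q9 : u = C - ((y0 + exp (-mp)) * (1 / 2)))
    (q10 : de = (e : ℂ) - (H.ec.r : ℂ)) (q11 : dk = kk - (H.kc.r : ℂ))
    (q12 : Q = ((((((H.q30.r : ℂ) * z) + (H.q20.r : ℂ)) * z) + (((de * (H.q11.r : ℂ)) + (dk * (H.q12.r : ℂ))) + (H.q10.r : ℂ))) * z) + (((de * (H.q01.r : ℂ)) + (dk * (H.q02.r : ℂ))) + (H.q00.r : ℂ)))
    (q13 : v2 = (y0 * u) * (-2)) (q14 : c1 = W0 + ((v2 * v2) * (z * Q)))
    (q15 : h = ((((((((H.h40.r : ℂ) * z) + (H.h30.r : ℂ)) * z) + (((de * (H.h21.r : ℂ)) + (dk * (H.h22.r : ℂ))) + (H.h20.r : ℂ))) * z) + (((de * (H.h11.r : ℂ)) + (dk * (H.h12.r : ℂ))) + (H.h10.r : ℂ))) * z) + (((de * (H.h01.r : ℂ)) + (dk * (H.h02.r : ℂ))) + (H.h00.r : ℂ)))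
    (q16 : g = (((u * (H.b2.r : ℂ)) + (H.b1.r : ℂ)) * u) + (((de * (H.be.r : ℂ)) + (dk * (H.bk.r : ℂ))) + (H.b0.r : ℂ)))
    (q17 : r1 = g * u) :
    C = (Real.cosh κ : ℂ) ∧ y0 = hy p ∧ z = hz κ p ∧ W0 = hW κ p ∧ u = hu κ p ∧
      Q = hQ H e κ (hz κ p) ∧
      c1 = (headFn H e κ).c1 p ∧ h = (headFn H e κ).h p ∧
      g = hg H e κ (hu κ p) ∧ r1 = (headFn H e κ).r1 p := by
  have a1 : C = (Real.cosh κ : ℂ) := by rw [q3, q1, q2, cosh_prog]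
  have a2 : y0 = hy p := by rw [q6, q5]; rfl
  have a3 : z = hz κ p := by rw [q7, a1, a2]; rfl
  have a4 : W0 = hW κ p := by rw [q8, a1, a3]; rfl
  have a5 : u = hu κ p := by
    rw [q9, a1, a2, q5, neg_neg]; rfl
  have a6 : Q = hQ H e κ (hz κ p) := by
    rw [q12, ← a3, hQ, hco, hco, q10, q11, q4]; push_cast; ring
  have a8 : h = hh H e κ (hz κ p) := by
    rw [q15, ← a3, hh, hco, hco, hco, q10, q11, q4]; push_cast; ring
  have a9 : g = hg H e κ (hu κ p) := by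
    rw [q16, ← a5, hg, hco, q10, q11, q4]; push_cast; ring
  refine ⟨a1, a2, a3, a4, a5, a6, ?_, a8, a9, ?_⟩
  · rw [q14, q13, a2, a5, a4, a3, a6]; rfl
  · rw [q17, a9, a5]; rfl

end Pool.Agent.helper63.WG
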