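import Pool.Agent.helper63.WG.Asm
import Pool.Agent.helper4.EQW4.Tail24
import Pool.Agent.helper4.EQW.Tail12

/-!
# W head: the tails
-/

namespace Pool.Agent.helper63.WG

open Complex Set Pool.Agent.helper31.EQ.W Pool.Agent.helper63.EQC
open Pool.Agent.helper4.EQW (rT nx v2 OT tail12 thT thT_nonneg thT_lt)
open Pool.Agent.helper4.EQW4 (VV OT4 tail24 small24)

variable {e κ : ℝ}

/-- **the tails** -/
theorem ht_all : HT := by
  intro e κ V he he4 hκ h1 h2
  rcases le_or_gt e 2 with h | h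
  · refine ⟨thT κ, tail12 he.le h hκ, rfl, thT_nonneg κ, thT_lt hκ, ?_, ?_⟩
    · intro Y a b c d
      exact ⟨a, ⟨b, c.trans_le h1⟩, d⟩
    · intro h5
      linarith
  · refine ⟨thT κ, tail24 h.le he4 hκ, rfl, thT_nonneg κ, thT_lt hκ, ?_, ?_⟩
    · intro Y a b c d
      exact ⟨a, ⟨⟨b, c.trans_le h1⟩, c.trans_le h2⟩, d⟩
    · intro h5 hS Y hY hv x hx
      exact small24 h5 he4 hκ hS hY hv hx 0

end Pool.Agent.helper63.WG
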