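import Pool.Agent.helper63.WG.Cell

/-!
# W head: values of the kernel programs and the objects of `WH/Sem`

Equation style: every lemma has the equations of the program values as hypotheses.
-/

namespace Pool.Agent.helper63.WG

open Complex Set Pool.Agent.helper31.EQ.W Pool.Agent.helper63.EQC Pool.Agent.helper82.WH
open Pool.Agent.helper4.EQW (KK rT nx gK v2 G1 f0)

variable {e κ : ℝ} {p w : ℂ} {H : HeadFn}

theorem cosh_prog (κ : ℝ) : (exp (κ : ℂ) + exp (-(κ : ℂ))) * (1 / 2) = (Real.cosh κ : ℂ) := by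
  push_cast
  rw [Complex.cosh]; ring

theorem sinh_prog (κ : ℝ) : (Real.cosh κ : ℂ) - exp (-(κ : ℂ)) = (Real.sinh κ : ℂ) := by
  rw [← cosh_prog]
  push_cast
  rw [Complex.sinh]; ring

/-- the constants of the programs -/
structure PK (e κ : ℝ) (C S om twe lch : ℂ) : Prop where
  he : 0 < e
  C_eq : C = (Real.cosh κ : ℂ)
  S_eq : S = (Real.sinh κ : ℂ)
  om_eq : om = C - 1
  twe_eq : twe = (e : ℂ)⁻¹ * 2
  lch_eq : lch = ((Real.log (Real.cosh (e * κ / 2)) : ℝ) : ℂ)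

theorem PK.of (he : 0 < e) {C emk S om twe hk lch : ℂ} (hC : C = (Real.cosh κ : ℂ))
    (hemk : emk = exp (-(κ : ℂ))) (hS : S = C - emk) (hom : om = C - 1)
    (htwe : twe = (e : ℂ)⁻¹ * 2) (hhk : hk = ((e : ℂ) * κ) * (1 / 2))
    (hlch : lch = log ((exp hk + exp (-hk)) * (1 / 2))) : PK e κ C S om twe lch := by
  refine ⟨he, hC, ?_, hom, htwe, ?_⟩
  · rw [hS, hC, hemk, sinh_prog]
  · have h1 : (exp hk + exp (-hk)) * (1 / 2) = ((Real.cosh (e * κ / 2) : ℝ) : ℂ) := by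
      rw [hhk, ← cosh_prog]
      push_cast
      ring_nf
    rw [hlch, h1, Complex.ofReal_log (Real.cosh_pos _).le]

namespace PK

variable {C S om twe lch : ℂ}

theorem c2 (h : PK e κ C S om twe lch) : exp (twe * lch) = (c2 e κ : ℂ) := by
  rw [c2_eq, h.twe_eq, h.lch_eq]
  have h1 : cosh ((e : ℂ) * (κ : ℂ) / 2) = ((Real.cosh (e * κ / 2) : ℝ) : ℂ) := by push_cast; ring_nf
  rw [h1, ← Complex.ofReal_log (Real.cosh_pos _).le]
  congr 1; ring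

/-- `G` -/
theorem GG (h : PK e κ C S om twe lch) {lm1 ex : ℂ} (hw : w ≠ 0) (hm : m1 e w ≠ 0)
    (hlm : lm1 = log (m1 e w)) (hex : ex = twe * (lch - lm1)) : exp ex = GG e κ w := by
  have h1 : (1 + exp (-((e : ℂ) * log w))) / 2 = m1 e w := by
    have h2 : w ^ (-(e : ℂ)) = exp (-((e : ℂ) * log w)) := by
      rw [Complex.cpow_def_of_ne_zero hw]; congr 1; ring
    rw [← h2]; rfl
  have h3 := gl_eq (e := e) hw (by rw [h1]; exact hm)
  rw [h1] at h3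
  unfold Pool.Agent.helper82.WH.GG
  rw [h3, ← h.c2, ← Complex.exp_add, hex, hlm, h.twe_eq]
  congr 1; ring

/-- `c² gp` -/
theorem Gp (h : PK e κ C S om twe lch) {mp y0 hp l0 t0 Gpv : ℂ} (hmp : mp = -p)
    (hy0 : y0 = exp mp) (hhp : hp = ((e : ℂ) * mp) * (1 / 2))
    (hs : (exp hp + exp (-hp)) * (1 / 2) ∈ slitPlane)
    (hl0 : l0 = log ((exp hp + exp (-hp)) * (1 / 2))) (ht0 : t0 = twe * (lch - l0))
    (hG : Gpv = exp t0 * y0) :
    cosh ((e : ℂ) * p / 2) ∈ slitPlane ∧ l0 = log (cosh ((e : ℂ) * p / 2)) ∧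
      Gpv = (Pool.Agent.helper31.EQ.W.c2 e κ : ℂ) * gp e p := by
  have h1 : (exp hp + exp (-hp)) * (1 / 2) = cosh ((e : ℂ) * p / 2) := by
    rw [hhp, hmp, Complex.cosh]
    have e1 : (e : ℂ) * -p * (1 / 2) = -((e : ℂ) * p / 2) := by ring
    rw [e1, neg_neg]; ring
  rw [h1] at hs hl0
  refine ⟨hs, hl0, ?_⟩
  rw [gp_eq (slitPlane_ne_zero hs), hG, ht0, hl0, hy0, hmp, ← h.c2, ← Complex.exp_add,
    ← Complex.exp_add, ← Complex.exp_add, h.twe_eq]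
  congr 1; ring

end PK

theorem m1_prog {lw m1v : ℂ} (hw : w ≠ 0) (hlw : lw = log w)
    (hm : m1v = (exp (-((e : ℂ) * lw)) + 1) * (1 / 2)) : m1v = m1 e w := by
  have h2 : w ^ (-(e : ℂ)) = exp (-((e : ℂ) * log w)) := by
    rw [Complex.cpow_def_of_ne_zero hw]; congr 1; ring
  rw [hm, hlw, m1, h2]; ring

/-- **(L1)** values of link 1 -/
theorem L1 {C S om twe lch : ℂ} (h : PK e κ C S om twe lch) {mp y0 hp l0 t0 Gpv : ℂ}
    (hmp : mp = -p) (hy0 : y0 = exp mp) (hhp : hp = ((e : ℂ) * mp) * (1 / 2))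
    (hs : (exp hp + exp (-hp)) * (1 / 2) ∈ slitPlane)
    (hl0 : l0 = log ((exp hp + exp (-hp)) * (1 / 2))) (ht0 : t0 = twe * (lch - l0))
    (hG : Gpv = exp t0 * y0) {lw wi m1v lm1 ex s1 zov z1 W2v : ℂ} (hw : w ∈ slitPlane)
    (hlw : lw = log w) (hwi : wi = w⁻¹) (hm1 : m1v = (exp (-((e : ℂ) * lw)) + 1) * (1 / 2))
    (hms : m1v ∈ slitPlane) (hlm : lm1 = log m1v) (hex : ex = twe * (lch - lm1))
    (hs1 : s1 = exp (ex - lw)) (hzo : zov = s1 * (1 / 2) - (Gpv * (1 / 2) - om) * wi)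
    (hz1 : z1 = om + zov) (hW2 : W2v = C + z1) :
    m1v = m1 e w ∧ exp ex = GG e κ w ∧ s1 = GG e κ w * w⁻¹ ∧
      Gpv = (c2 e κ : ℂ) * gp e p ∧ zov = zo e κ p w ∧ z1 = C - Y1B e κ p w ∧
      W2v = W2 e κ p w ∧ 2 - m1v⁻¹ = mu e w ∧ z0B e κ p w = (exp ex - Gpv) * (1 / 2) := by
  have hw0 := slitPlane_ne_zero hw
  have a1 := m1_prog hw0 hlw hm1
  have hm0 := slitPlane_ne_zero hms
  rw [a1] at hm0 hlm
  have a2 := h.GG hw0 hm0 hlm hex
  have a3 : s1 = GG e κ w * w⁻¹ := by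
    rw [hs1, Complex.exp_sub, a2, hlw, Complex.exp_log hw0, div_eq_mul_inv]
  obtain ⟨-, -, a4⟩ := h.Gp hmp hy0 hhp hs hl0 ht0 hG
  have a5 : zov = zo e κ p w := by
    rw [hzo, a3, a4, zo, z0B_eq, h.om_eq, h.C_eq, hwi]; ring
  have a6 : z1 = C - Y1B e κ p w := by
    rw [hz1, a5, Y1_eq hw0, h.om_eq]; ring
  refine ⟨a1, a2, a3, a4, a5, a6, ?_, ?_, ?_⟩
  · rw [hW2, a6, W2, h.C_eq]; ring
  · rw [a1, mu]
  · rw [a2, a4, z0B_eq]; ring

/-- **(L2)** values of link 2; `W = W2` -/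
theorem L2 {C S om twe lch : ℂ} (h : PK e κ C S om twe lch) {W lw2 m2 lm2 ex2 : ℂ}
    (hW : W ∈ slitPlane) (hlw : lw2 = log W) (hm2 : m2 = (exp (-((e : ℂ) * lw2)) + 1) * (1 / 2))
    (hms : m2 ∈ slitPlane) (hlm : lm2 = log m2) (hex : ex2 = twe * (lch - lm2)) :
    m2 = m1 e W ∧ exp ex2 = GG e κ W ∧ exp (ex2 - lw2) = GG e κ W * W⁻¹ ∧ 2 - m2⁻¹ = mu e W := by
  have hW0 := slitPlane_ne_zero hW
  have a1 := m1_prog hW0 hlw hm2
  have hm0 := slitPlane_ne_zero hms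
  rw [a1] at hm0 hlm
  have a2 := h.GG hW0 hm0 hlm hex
  refine ⟨a1, a2, ?_, by rw [a1, mu]⟩
  rw [Complex.exp_sub, a2, hlw, Complex.exp_log hW0, div_eq_mul_inv]

/-- `E0` -/
theorem E0_prog (hw : w ∈ slitPlane) {s1 wi z1 g2 : ℂ} (hs1 : s1 = GG e κ w * w⁻¹)
    (hwi : wi = w⁻¹) (hz1 : z1 = (Real.cosh κ : ℂ) - Y1B e κ p w)
    (hg : g2 = GG e κ (W2 e κ p w)) : g2 - s1 * wi - z1 * 2 = E0 e κ p w := by
  have hw0 := slitPlane_ne_zero hw
  rw [E0_eq hw, hg, hs1, hwi, hz1, Y1_eq hw0]; ring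

/-- `E1` -/
theorem E1_prog {s1 wi zov mu1 gp2 : ℂ} (hs1 : s1 = GG e κ w * w⁻¹) (hwi : wi = w⁻¹)
    (hzo : zov = zo e κ p w) (hmu : mu1 = mu e w)
    (hg : gp2 = GG e κ (W2 e κ p w) * (W2 e κ p w)⁻¹ * mu e (W2 e κ p w)) :
    wi * ((gp2 - 2) * (s1 * mu1 * (1 / 2) - zov) - wi * s1 * (mu1 - 2)) = E1 e κ p w := by
  unfold E1
  rw [hs1, hwi, hzo, hmu, hg]; ring

/-- `E2` -/
theorem E2_prog {s1 wi zov mu1 mu2 gp2 W2i eh e1 k1 k2 sm a : ℂ} (hs1 : s1 = GG e κ w * w⁻¹)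
    (hwi : wi = w⁻¹) (hzo : zov = zo e κ p w) (hmu : mu1 = mu e w)
    (hmu2 : mu2 = mu e (W2 e κ p w)) (hW2i : W2i = (W2 e κ p w)⁻¹)
    (hg : gp2 = GG e κ (W2 e κ p w) * (W2 e κ p w)⁻¹ * mu e (W2 e κ p w))
    (heh : eh = (e : ℂ) * (1 / 2) + 1) (he1 : e1 = (e : ℂ) + 1) (hk1 : k1 = eh * mu1 - e1)
    (hk2 : k2 = eh * mu2 - e1) (hsm : sm = s1 * mu1) (ha : a = sm * (1 / 2) - zov) :
    (wi * wi) * ((gp2 * k2) * W2i * (a * a) +
      (gp2 - 2) * ((sm * (k1 - 2)) * (1 / 2) + zov * 2) - wi * s1 * (mu1 * (k1 - 4) + 6)) =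
      E2 e κ p w := by
  unfold E2
  rw [hk1, hk2, ha, hsm, hs1, hwi, hzo, hmu, hmu2, hW2i, hg, heh, he1]; ring

/-! ### the region -/

/-- **(L3)** the disc is the region at `P = nx κ Y` -/
theorem L3_reg (hκ : 0 < κ) {Y z1 C : ℂ} (hC : C = (Real.cosh κ : ℂ)) (hz1 : z1 = C - Y)
    (hW : 2 * (Real.cosh κ : ℂ) - Y ≠ 0) (h : ‖z1 * (C * 2) - (C * C * 2 - 1)‖ < 1) :
    ‖nx κ Y - ((Real.exp (-κ) : ℝ) : ℂ)‖ <
      Real.exp (-(4 * κ)) * ‖nx κ Y - ((Real.exp κ : ℝ) : ℂ)‖ := by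
  have hS : 0 < Real.sinh κ := Real.sinh_pos_iff.2 hκ
  have hc1 : 1 ≤ Real.cosh κ := Real.one_le_cosh κ
  have hCS := Real.cosh_sq κ
  have em : Real.exp (-κ) = Real.cosh κ - Real.sinh κ := by rw [Real.cosh_sub_sinh]
  have ep : Real.exp κ = Real.cosh κ + Real.sinh κ := by rw [Real.cosh_add_sinh]
  set c := Real.cosh κ with hcd
  set s := Real.sinh κ with hsd
  have hq0 : 0 < c - s := by rw [← em]; exact Real.exp_pos _
  have hW' : (c : ℂ) + z1 ≠ 0 := by rw [hz1, hC]; intro h0; apply hW; rw [← h0]; ring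
  have hcs1 : (c - s) * (c + s) = 1 := by linear_combination hCS
  have hcs1' : ((c : ℂ) - (s : ℂ)) * ((c : ℂ) + (s : ℂ)) = 1 := by exact_mod_cast hcs1
  have eP : nx κ Y = ((c : ℂ) + z1)⁻¹ := by
    rw [nx, hz1, hC, one_div]; congr 1; ring
  have a1 : nx κ Y - ((Real.exp (-κ) : ℝ) : ℂ) =
      -(((c - s : ℝ) : ℂ) * ((z1 - (s : ℂ)) * ((c : ℂ) + z1)⁻¹)) := by
    rw [eP, em]
    push_cast
    field_simp
    linear_combination (-1 : ℂ) * hcs1'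
  have a2 : nx κ Y - ((Real.exp κ : ℝ) : ℂ) =
      -(((c + s : ℝ) : ℂ) * ((z1 + (s : ℂ)) * ((c : ℂ) + z1)⁻¹)) := by
    rw [eP, ep]
    push_cast
    field_simp
    linear_combination (-1 : ℂ) * hcs1'
  have hWn : 0 < ‖(c : ℂ) + z1‖ := norm_pos_iff.2 hW'
  have n1 : ‖z1 - (s : ℂ)‖ ^ 2 = (z1.re - s) ^ 2 + z1.im ^ 2 := by
    rw [← Complex.normSq_eq_norm_sq, Complex.normSq_apply]; simp; ring
  have n2 : ‖z1 + (s : ℂ)‖ ^ 2 = (z1.re + s) ^ 2 + z1.im ^ 2 := by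
    rw [← Complex.normSq_eq_norm_sq, Complex.normSq_apply]; simp; ring
  have n3 : ‖z1 * (C * 2) - (C * C * 2 - 1)‖ ^ 2 =
      (2 * c * z1.re - (2 * c ^ 2 - 1)) ^ 2 + (2 * c * z1.im) ^ 2 := by
    have e1 : z1 * (C * 2) - (C * C * 2 - 1) = ((2 * c : ℝ) : ℂ) * z1 - ((2 * c ^ 2 - 1 : ℝ) : ℂ) := by
      rw [hC]; push_cast; ring
    rw [e1, ← Complex.normSq_eq_norm_sq, Complex.normSq_apply, Complex.sub_re, Complex.sub_im,
      Complex.re_ofReal_mul, Complex.im_ofReal_mul, Complex.ofReal_re, Complex.ofReal_im]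
    ring
  have h5 : (2 * c * z1.re - (2 * c ^ 2 - 1)) ^ 2 + (2 * c * z1.im) ^ 2 < 1 := by
    rw [← n3]
    have := norm_nonneg (z1 * (C * 2) - (C * C * 2 - 1))
    nlinarith
  set x := z1.re
  set y := z1.im
  -- c (|z|² + s²) < (2c² - 1) x
  have h6 : c * (x ^ 2 + y ^ 2 + s ^ 2) < (2 * c ^ 2 - 1) * x := by
    have h7 : c * (c * (x ^ 2 + y ^ 2 + s ^ 2)) < c * ((2 * c ^ 2 - 1) * x) := by nlinarith
    exact lt_of_mul_lt_mul_left h7 (by linarith)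
  have h8 : ‖z1 - (s : ℂ)‖ ^ 2 < ((c - s) ^ 2 * ‖z1 + (s : ℂ)‖) ^ 2 := by
    rw [mul_pow, n1, n2]
    have e1 : ((c - s) ^ 2) ^ 2 * ((x + s) ^ 2 + y ^ 2) - ((x - s) ^ 2 + y ^ 2) =
        4 * s * (c - s) ^ 2 * ((2 * c ^ 2 - 1) * x - c * (x ^ 2 + y ^ 2 + s ^ 2)) := by
      have e2 : (c - s) ^ 2 = 2 * c ^ 2 - 1 - 2 * c * s := by linear_combination (-1 : ℝ) * hCS
      have e3 : ((c - s) ^ 2) ^ 2 = 1 - 4 * c * s * (c - s) ^ 2 := by
        have : (c - s) ^ 2 * (c + s) ^ 2 = 1 := by rw [← mul_pow, hcs1, one_pow]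
        have e4 : (c - s) ^ 2 + 4 * c * s = (c + s) ^ 2 := by ring
        have e5 : (c - s) ^ 2 * ((c - s) ^ 2 + 4 * c * s) = 1 := by rw [e4]; exact this
        linear_combination e5
      rw [e3]
      have e6 : (c - s) ^ 2 * (2 * c ^ 2 - 1) = 1 - 2 * c * s * (c - s) ^ 2 := by
        linear_combination e3 - (c - s) ^ 2 * e2
      linear_combination (-4 * s * x) * e6
    have h9 : 0 < 4 * s * (c - s) ^ 2 * ((2 * c ^ 2 - 1) * x - c * (x ^ 2 + y ^ 2 + s ^ 2)) := by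
      have : 0 < (2 * c ^ 2 - 1) * x - c * (x ^ 2 + y ^ 2 + s ^ 2) := by linarith
      positivity
    linarith
  have h10 := lt_of_pow_lt_pow_left₀ 2 (by positivity) h8
  have e4 : Real.exp (-(4 * κ)) = (c - s) ^ 4 := by
    rw [← em, ← Real.exp_nat_mul]; congr 1; push_cast; ring
  rw [a1, a2, e4, norm_neg, norm_neg, norm_mul, norm_mul, norm_mul, norm_mul, Complex.norm_real,
    Complex.norm_real, Real.norm_of_nonneg hq0.le, Real.norm_of_nonneg (by linarith), norm_inv]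
  have e7 : (c - s) ^ 4 * ((c + s) * (‖z1 + (s : ℂ)‖ * ‖(c : ℂ) + z1‖⁻¹)) =
      (c - s) * (((c - s) ^ 2 * ‖z1 + (s : ℂ)‖) * ‖(c : ℂ) + z1‖⁻¹) := by
    have : (c - s) ^ 4 * (c + s) = (c - s) ^ 3 := by
      calc (c - s) ^ 4 * (c + s) = (c - s) ^ 3 * ((c - s) * (c + s)) := by ring
        _ = _ := by rw [hcs1, mul_one]
    calc (c - s) ^ 4 * ((c + s) * (‖z1 + (s : ℂ)‖ * ‖(c : ℂ) + z1‖⁻¹))
        = ((c - s) ^ 4 * (c + s)) * (‖z1 + (s : ℂ)‖ * ‖(c : ℂ) + z1‖⁻¹) := by ring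
      _ = _ := by rw [this]; ring
  rw [e7]
  exact mul_lt_mul_of_pos_left (mul_lt_mul_of_pos_right h10 (inv_pos.2 hWn)) hq0

/-- `v2` at `P = nx κ Y` -/
theorem L3_v2 {Y z1 W lw2 S : ℂ} (hS : S = (Real.sinh κ : ℂ)) (hz1 : z1 = (Real.cosh κ : ℂ) - Y)
    (hWd : W = 2 * (Real.cosh κ : ℂ) - Y) (hW : W ≠ 0) (hlw : lw2 = log W) :
    v2 κ (nx κ Y) = (z1 - S) * (z1 + S) * exp (-(lw2 * 2)) := by
  have h1 : exp (-(lw2 * 2)) = (W⁻¹) ^ 2 := by
    rw [show lw2 * 2 = lw2 + lw2 by ring, Complex.exp_neg, Complex.exp_add, hlw, Complex.exp_log hW]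
    field_simp
  have hcs : (Real.cosh κ : ℂ) ^ 2 = (Real.sinh κ : ℂ) ^ 2 + 1 := by exact_mod_cast Real.cosh_sq κ
  have hz : z1 = W - (Real.cosh κ : ℂ) := by rw [hz1, hWd]; ring
  rw [h1, nx, ← hWd, v2, hS, hz]
  field_simp
  linear_combination (-1 : ℂ) * hcs

theorem L3_ne {Y z1 S : ℂ} (hS : S = (Real.sinh κ : ℂ)) (hz1 : z1 = (Real.cosh κ : ℂ) - Y)
    (h : z1 - S ≠ 0) : Y ≠ ((Real.exp (-κ) : ℝ) : ℂ) := by
  intro h0
  apply h
  rw [hz1, hS, h0, ← Real.cosh_sub_sinh]; push_cast; ring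

/-! ### the radius of link 2 -/

/-- **(L4)** the constant -/
theorem L4_K {lch ech Kk : ℂ} (hl : lch = ((Real.log (Real.cosh (e * κ / 2)) : ℝ) : ℂ))
    (hech : ech = exp (-lch)) (hK : Kk = ((e : ℂ) * e) * (1 / 8) + 3 - (ech * ech) * 3) :
    Kk = (KK e κ : ℂ) := by
  have hc := Real.cosh_pos (e * κ / 2)
  have h1 : ech = ((Real.cosh (e * κ / 2) : ℝ) : ℂ)⁻¹ := by
    rw [hech, hl, ← Complex.ofReal_neg, ← Complex.ofReal_exp, Real.exp_neg, Real.exp_log hc]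
    push_cast; rfl
  have h2 : Real.tanh (e * κ / 2) ^ 2 = 1 - (Real.cosh (e * κ / 2))⁻¹ ^ 2 := by
    rw [Real.tanh_eq_sinh_div_cosh, div_pow]
    have := Real.cosh_sq (e * κ / 2)
    field_simp
    linarith
  rw [hK, h1, KK, h2]
  push_cast
  ring

theorem L4 {C S om twe lch : ℂ} (h : PK e κ C S om twe lch) {Y z1 W lw2 m2 lm2 emk Kk q : ℂ}
    (hz1 : z1 = C - Y) (hWd : W = 2 * (Real.cosh κ : ℂ) - Y) (hW : W ∈ slitPlane)
    (hlw : lw2 = log W) (hm2 : m2 = (exp (-((e : ℂ) * lw2)) + 1) * (1 / 2)) (hms : m2 ∈ slitPlane)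
    (hlm : lm2 = log m2) (hemk : emk = exp (-(κ : ℂ))) (hK : Kk = (KK e κ : ℂ))
    (hq : q = Kk * emk * ((z1 - S) * (z1 + S) * (z1 - S))) :
    rT e κ Y = q * exp (lm2 - lw2 * 2 - twe * (lch - lm2)) ∧
    rT e κ Y * (GG e κ W * mu e W) = q * exp (-(((e : ℂ) + 2) * lw2)) := by
  have hW0 := slitPlane_ne_zero hW
  have hm20 := slitPlane_ne_zero hms
  obtain ⟨a1, a2, -, -⟩ := L2 h hW hlw hm2 hms hlm rfl
  have hG0 : GG e κ W ≠ 0 := by rw [← a2]; exact Complex.exp_ne_zero _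
  have hv := L3_v2 (κ := κ) (Y := Y) (z1 := z1) (S := S) h.S_eq (by rw [hz1, h.C_eq]) hWd hW0 hlw
  have hgK : gK κ (nx κ Y) = emk * ((z1 - S) * (z1 + S) * (z1 - S)) * exp (-(lw2 * 2)) * W⁻¹ := by
    rw [gK, hv]
    have e1 : (Real.cosh κ : ℂ) - nx κ Y - (Real.sinh κ : ℂ) = emk * ((z1 - S) * W⁻¹) := by
      have hcs : (Real.cosh κ : ℂ) ^ 2 = (Real.sinh κ : ℂ) ^ 2 + 1 := by
        exact_mod_cast Real.cosh_sq κ
      have e2 : emk = (Real.cosh κ : ℂ) - (Real.sinh κ : ℂ) := by rw [hemk, ← sinh_prog]; ring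
      have e3 : z1 = W - (Real.cosh κ : ℂ) := by rw [hz1, hWd, h.C_eq]; ring
      rw [nx, ← hWd, e2, e3, h.S_eq]
      field_simp
      linear_combination hcs
    rw [e1]; ring
  have hm1e : (1 + exp (-((e : ℂ) * log W))) / 2 = m2 := by rw [hm2, hlw]; ring
  have hG1 : G1 e κ (nx κ Y) = GG e κ W / (W * m2) := by
    rw [nx, ← hWd, G1_eq hW (by rw [hm1e]; exact hm20), hm1e]; rfl
  have hr : rT e κ Y = q * exp (-(lw2 * 2)) * m2 * (GG e κ W)⁻¹ := by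
    rw [rT, hgK, hG1, hq, hK]
    field_simp
  have hlm' : exp lm2 = m2 := by rw [hlm, Complex.exp_log hm20]
  refine ⟨?_, ?_⟩
  · rw [hr, ← a2, ← Complex.exp_neg]
    nth_rewrite 1 [← hlm']
    rw [mul_assoc q, ← Complex.exp_add, mul_assoc q, ← Complex.exp_add]
    congr 2; ring
  · have hm0 : m1 e W ≠ 0 := by rw [← a1]; exact hm20
    have h3 := w_mu (e := e) hm0
    have h4 : W ^ (-(e : ℂ)) = exp (-((e : ℂ) * lw2)) := by
      rw [Complex.cpow_def_of_ne_zero hW0, hlw]; congr 1; ring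
    rw [hr, a1]
    have e1 : q * exp (-(lw2 * 2)) * m1 e W * (GG e κ W)⁻¹ * (GG e κ W * mu e W) =
        q * exp (-(lw2 * 2)) * (m1 e W * mu e W) := by field_simp
    rw [e1, ← h3, h4, mul_assoc, ← Complex.exp_add]
    congr 2; ring

/-! ### the real side and the tests -/

/-- **(L5)** the slope condition -/
theorem L5 (hκ : 0 < κ) {C S om twe lch : ℂ} (h : PK e κ C S om twe lch) {H : HeadFn} {y : ℝ}
    {mp y0 hp l0 t0 : ℂ} (hmp : mp = -(y : ℂ)) (hy0 : y0 = exp mp)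
    (hhp : hp = ((e : ℂ) * mp) * (1 / 2)) (hs : (exp hp + exp (-hp)) * (1 / 2) ∈ slitPlane)
    (hl0 : l0 = log ((exp hp + exp (-hp)) * (1 / 2))) (ht0 : t0 = twe * (lch - l0))
    (hw : ∀ X : ℂ, ‖X‖ ≤ 1 → ‖(z0B e κ (y : ℂ) (H.c1 y + H.r1 y * X) - om) *
      exp ((-(mp + t0)) * (1 / 2)) * (exp ((κ : ℂ) * (1 / 2)) - exp (-((κ : ℂ) * (1 / 2))))⁻¹‖ < 1) :
    RS e κ H (y : ℂ) := by
  intro x0 hx0
  have hX := hw x0 hx0
  set w := H.c1 (y : ℂ) + H.r1 (y : ℂ) * x0 with hwd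
  obtain ⟨g1, g2, -⟩ := h.Gp (p := (y : ℂ)) hmp hy0 hhp hs hl0 ht0 rfl
  have hcp : cosh ((e : ℂ) * (y : ℂ) / 2) = ((Real.cosh (e * y / 2) : ℝ) : ℂ) := by
    push_cast; ring_nf
  have hcy := Real.cosh_pos (e * y / 2)
  have hck := Real.cosh_pos (e * κ / 2)
  have hsh : 0 < Real.sinh (κ / 2) := Real.sinh_pos_iff.2 (by linarith)
  have he0 : 0 < e := h.he
  -- 2 sinh (p/2) - exp (p/2) d0 = exp (p/2) (z0 - om)
  have e1 : 2 * sinh ((y : ℂ) / 2) - exp ((y : ℂ) / 2) * d0B e κ (y : ℂ) w =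
      exp ((y : ℂ) / 2) * (z0B e κ (y : ℂ) w - om) := by
    rw [d0B, h.om_eq, h.C_eq, Complex.sinh]
    have e2 : exp ((y : ℂ) / 2) * exp (-(y : ℂ)) = exp (-((y : ℂ) / 2)) := by
      rw [← Complex.exp_add]; congr 1; ring
    linear_combination e2
  have e3 : exp ((κ : ℂ) * (1 / 2)) - exp (-((κ : ℂ) * (1 / 2))) =
      ((2 * Real.sinh (κ / 2) : ℝ) : ℂ) := by
    push_cast
    rw [Complex.sinh]
    have e4 : (κ : ℂ) * (1 / 2) = (κ : ℂ) / 2 := by ring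
    rw [e4]; ring
  have e5 : ‖exp ((-(mp + t0)) * (1 / 2))‖ = ‖exp ((y : ℂ) / 2)‖ *
      (Real.cosh (e * y / 2) ^ (1 / e) / Real.cosh (e * κ / 2) ^ (1 / e)) := by
    have e6 : (-(mp + t0)) * (1 / 2) = (y : ℂ) / 2 +
        ((1 / e * (Real.log (Real.cosh (e * y / 2)) - Real.log (Real.cosh (e * κ / 2))) : ℝ) : ℂ) := by
      rw [hmp, ht0, g2, hcp, h.twe_eq, h.lch_eq, ← Complex.ofReal_log hcy.le]
      push_cast
      field_simp
      ring
    rw [e6, Complex.exp_add, norm_mul, ← Complex.ofReal_exp, Complex.norm_real,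
      Real.norm_of_nonneg (Real.exp_pos _).le]
    congr 1
    rw [Real.rpow_def_of_pos hcy, Real.rpow_def_of_pos hck, ← Real.exp_sub]
    congr 1; ring
  rw [e1, norm_mul]
  rw [norm_mul, norm_mul, norm_inv, e3, e5, Complex.norm_real,
    Real.norm_of_nonneg (by positivity : 0 ≤ 2 * Real.sinh (κ / 2))] at hX
  have e7 : ‖cosh ((e : ℂ) * (y : ℂ) / 2)‖ = Real.cosh (e * y / 2) := by
    rw [hcp, Complex.norm_real, Real.norm_of_nonneg hcy.le]
  rw [e7]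
  have hp1 : 0 < Real.cosh (e * y / 2) ^ (1 / e) := Real.rpow_pos_of_pos hcy _
  have hp2 : 0 < Real.cosh (e * κ / 2) ^ (1 / e) := Real.rpow_pos_of_pos hck _
  have hp3 : 0 < 2 * Real.sinh (κ / 2) * Real.cosh (e * κ / 2) ^ (1 / e) := by positivity
  have e8 : ‖z0B e κ (y : ℂ) w - om‖ * (‖exp ((y : ℂ) / 2)‖ *
      (Real.cosh (e * y / 2) ^ (1 / e) / Real.cosh (e * κ / 2) ^ (1 / e))) *
      (2 * Real.sinh (κ / 2))⁻¹ = ‖exp ((y : ℂ) / 2)‖ * ‖z0B e κ (y : ℂ) w - om‖ *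
        Real.cosh (e * y / 2) ^ (1 / e) / (2 * Real.sinh (κ / 2) * Real.cosh (e * κ / 2) ^ (1 / e)) := by
    field_simp
  rw [e8, div_lt_one hp3] at hX
  exact hX

/-- **(L6)** the test values -/
theorem L6 {C om mp y0 z0 : ℂ} (hC : C = (Real.cosh κ : ℂ)) (hom : om = C - 1) (hmp : mp = -p)
    (hy0 : y0 = exp mp) (hz0 : z0 = z0B e κ p w) :
    exp (mp * (-(1 / 2))) * (C - y0 - z0) = exp (p / 2) * d0B e κ p w ∧
      z0 - om = z0B e κ p w - ((Real.cosh κ : ℂ) - 1) ∧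
      om - z0 = ((Real.cosh κ : ℂ) - 1) - z0B e κ p w := by
  refine ⟨?_, by rw [hz0, hom, hC], by rw [hz0, hom, hC]⟩
  rw [hmp, hy0, hmp, hC, hz0, d0B]
  have e1 : -p * (-(1 / 2)) = p / 2 := by ring
  rw [e1]; ring

/-! ### monotonicity in `κ` -/

/-- `tanh (e x) < coth x` in the form used below -/
theorem coth_gt (x y : ℝ) (hx : 0 < x) : 0 < Real.cosh x / Real.sinh x - Real.tanh y := by
  have hs := Real.sinh_pos_iff.2 hx
  have h1 : 1 < Real.cosh x / Real.sinh x := by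
    rw [one_lt_div hs]; exact Real.sinh_lt_cosh x
  have h2 : Real.tanh y < 1 := by
    rw [Real.tanh_eq_sinh_div_cosh, div_lt_one (Real.cosh_pos y)]
    exact Real.sinh_lt_cosh y
  linarith

/-- the function `2 (cosh k - 1)/c²(e, k)` -/
noncomputable def fk (e k : ℝ) : ℝ := 2 * (Real.cosh k - 1) / c2 e k

theorem fk_log (e : ℝ) {k : ℝ} (hk : 0 < k) :
    Real.log (fk e k) = Real.log 2 + Real.log (2 * Real.sinh (k / 2) ^ 2) -
      2 / e * Real.log (Real.cosh (e * k / 2)) := by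
  have hs := Real.sinh_pos_iff.2 (by linarith : 0 < k / 2)
  have h1 : Real.cosh k - 1 = 2 * Real.sinh (k / 2) ^ 2 := by
    have h2 := Real.cosh_two_mul (k / 2)
    have h3 := Real.cosh_sq (k / 2)
    rw [show 2 * (k / 2) = k by ring] at h2
    linarith
  have hc := Real.cosh_pos (e * k / 2)
  have hc2 : 0 < c2 e k := Real.rpow_pos_of_pos hc _
  rw [fk, h1, Real.log_div (by positivity) hc2.ne', Real.log_mul two_ne_zero (by positivity), c2,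
    Real.log_rpow hc]

/-- **(L8)** -/
theorem fk_mono (he : 0 < e) {k1 k : ℝ} (hk1 : 0 < k1) (hk : k1 ≤ k) : fk e k1 ≤ fk e k := by
  have hd : ∀ x : ℝ, 0 < x → HasDerivAt (fun x => Real.log (fk e x))
      (Real.cosh (x / 2) / Real.sinh (x / 2) - Real.tanh (e * x / 2)) x := by
    intro x hx
    have hs := Real.sinh_pos_iff.2 (by linarith : 0 < x / 2)
    have hc := Real.cosh_pos (e * x / 2)
    have d1 : HasDerivAt (fun x : ℝ => x / 2) (1 / 2) x := (hasDerivAt_id x).div_const 2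
    have d2 : HasDerivAt (fun x : ℝ => e * x / 2) (e / 2) x := by
      have := ((hasDerivAt_id x).const_mul e).div_const 2
      simpa using this
    have d3 : HasDerivAt (fun x => 2 * Real.sinh (x / 2) ^ 2)
        (2 * (2 * Real.sinh (x / 2) * (Real.cosh (x / 2) * (1 / 2)))) x := by
      have h0 := ((d1.sinh).pow 2).const_mul 2
      refine h0.congr_deriv ?_
      push_cast
      ring
    have d4 := d3.log (by positivity)
    have d5 := (d2.cosh).log hc.ne'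
    have d6 := (d4.const_add (Real.log 2)).sub (d5.const_mul (2 / e))
    have d7 : HasDerivAt (fun x => Real.log 2 + Real.log (2 * Real.sinh (x / 2) ^ 2) -
        2 / e * Real.log (Real.cosh (e * x / 2)))
        (Real.cosh (x / 2) / Real.sinh (x / 2) - Real.tanh (e * x / 2)) x := by
      refine d6.congr_deriv ?_
      rw [Real.tanh_eq_sinh_div_cosh]
      field_simp
    refine d7.congr_of_eventuallyEq ?_
    filter_upwards [isOpen_Ioi.mem_nhds (show x ∈ Ioi (0:ℝ) from hx)] with z hz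
    exact fk_log e hz
  have hmono : MonotoneOn (fun x => Real.log (fk e x)) (Ioi 0) := by
    apply monotoneOn_of_deriv_nonneg (convex_Ioi 0)
    · exact fun y hy => (hd y hy).continuousAt.continuousWithinAt
    · intro y hy
      rw [interior_Ioi] at hy
      exact (hd y hy).differentiableAt.differentiableWithinAt
    · intro y hy
      rw [interior_Ioi] at hy
      rw [(hd y hy).deriv]
      exact (coth_gt _ _ (by have : 0 < y := hy; linarith)).le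
  have h1 := hmono (show k1 ∈ Ioi (0:ℝ) from hk1) (show k ∈ Ioi (0:ℝ) by exact lt_of_lt_of_le hk1 hk) hk
  have pos : ∀ x : ℝ, 0 < x → 0 < fk e x := by
    intro x hx
    have : 1 < Real.cosh x := Real.one_lt_cosh.2 hx.ne'
    have hc2 : 0 < c2 e x := Real.rpow_pos_of_pos (Real.cosh_pos _) _
    unfold fk
    have : 0 < Real.cosh x - 1 := by linarith
    positivity
  exact (Real.log_le_log_iff (pos k1 hk1) (pos k (lt_of_lt_of_le hk1 hk))).1 h1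

/-- the program value that bounds `κ` -/
theorem fk_prog {C S om twe lch : ℂ} (h : PK e κ C S om twe lch)
    (hpos : 0 < (om * 2 * exp (-(twe * lch)) + 1 - exp (twe * log 2)).re) :
    (4 : ℝ) ^ (1 / e) - 1 < fk e κ := by
  have hc := Real.cosh_pos (e * κ / 2)
  have hc2 : 0 < c2 e κ := Real.rpow_pos_of_pos hc _
  have e1 : exp (-(twe * lch)) = (((c2 e κ)⁻¹ : ℝ) : ℂ) := by
    rw [Complex.exp_neg, h.c2]; push_cast; rfl
  have e2 : exp (twe * log 2) = (((4 : ℝ) ^ (1 / e) : ℝ) : ℂ) := by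
    have : log (2 : ℂ) = ((Real.log 2 : ℝ) : ℂ) := by
      rw [Complex.ofReal_log (by norm_num)]; norm_num
    rw [this, h.twe_eq, Real.rpow_def_of_pos (by norm_num), show (4 : ℝ) = 2 ^ 2 by norm_num,
      Real.log_pow]
    push_cast
    congr 1; ring
  have e3 : om * 2 * exp (-(twe * lch)) + 1 - exp (twe * log 2) =
      ((2 * (Real.cosh κ - 1) * (c2 e κ)⁻¹ + 1 - (4 : ℝ) ^ (1 / e) : ℝ) : ℂ) := by
    rw [e1, e2, h.om_eq, h.C_eq]; push_cast; ring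
  rw [e3, Complex.ofReal_re] at hpos
  unfold fk
  rw [div_eq_mul_inv (2 * (Real.cosh κ - 1))]
  linarith

end Pool.Agent.helper63.WG
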